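import Mathlib

/-!
# A fusion lemma for perfect sets
-/

set_option autoImplicit false

namespace Pool.Agent.R820.QC

open Set Filter

/-- The Cantor space. -/
abbrev K : Type := ℕ → Bool

def cyl (x : K) (n : ℕ) : Set K := {y | ∀ i < n, y i = x i}

lemma mem_cyl_self (x : K) (n : ℕ) : x ∈ cyl x n := fun _ _ => rfl

lemma cyl_anti (x : K) {m n : ℕ} (h : m ≤ n) : cyl x n ⊆ cyl x m :=
  fun _ hy i hi => hy i (hi.trans_le h)

lemma cyl_eq {x y : K} {n : ℕ} (h : y ∈ cyl x n) : cyl y n = cyl x n := by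
  ext z
  exact ⟨fun hz i hi => (hz i hi).trans (h i hi), fun hz i hi => (hz i hi).trans (h i hi).symm⟩

lemma isClopen_cyl (x : K) (n : ℕ) : IsClopen (cyl x n) := by
  have h : cyl x n = ⋂ i ∈ Iio n, (fun y : K => y i) ⁻¹' {x i} := by
    ext y
    simp [cyl]
  rw [h]
  exact (finite_Iio n).isClopen_biInter fun i _ => (isClopen_discrete _).preimage (continuous_apply i)

lemma exists_cyl {U : Set K} (hU : IsOpen U) {x : K} (hx : x ∈ U) : ∃ n, cyl x n ⊆ U := by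
  obtain ⟨I, u, hu, hI⟩ := isOpen_pi_iff.1 hU x hx
  refine ⟨I.sup id + 1, fun y hy => hI ?_⟩
  intro i hi
  have : i < I.sup id + 1 := Nat.lt_succ_of_le (Finset.le_sup (f := id) hi)
  rw [hy i this]
  exact (hu i hi).2

lemma eventually_disjoint {x y : K} (h : x ≠ y) : ∀ᶠ M in atTop, Disjoint (cyl x M) (cyl y M) := by
  obtain ⟨i, hi⟩ := Function.ne_iff.1 h
  filter_upwards [eventually_gt_atTop i] with M hM
  rw [Set.disjoint_left]
  intro z hz hz'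
  exact hi ((hz i hM).symm.trans (hz' i hM))

section fusion

variable {I E : Type}

structure Rel (C : I → Set K) (D : ℕ → Set I) (q : ℕ → K) (O : E → Set I) (P : ℕ → I) (k : ℕ)
    (e : E) (S S' : Finset (ℕ × I)) : Prop where
  split : ∀ a ∈ S, ∃ b ∈ S', ∃ b' ∈ S', b ≠ b' ∧ b.1 = a.1 ∧ b'.1 = a.1 ∧ C b.2 ⊆ C a.2 ∧
    C b'.2 ⊆ C a.2
  par : ∀ b ∈ S', (b.1 = k ∧ C b.2 ⊆ C (P k)) ∨ ∃ a ∈ S, a.1 = b.1 ∧ C b.2 ⊆ C a.2
  root : ∃ b ∈ S', b.1 = k
  dense : ∀ b ∈ S', ∀ i ≤ k, b.2 ∈ D i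
  avoid : ∀ b ∈ S', ∀ i ≤ k, q i ∉ C b.2
  small : ∀ b ∈ S', ∃ x, C b.2 ⊆ cyl x (k + 1)
  task : ∀ b ∈ S', b.2 ∈ O e

def Valid (C : I → Set K) (S : Finset (ℕ × I)) : Prop :=
  ∀ a ∈ S, ∀ b ∈ S, a ≠ b → Disjoint (C a.2) (C b.2)

lemma dense_fin {C : I → Set K} {D : ℕ → Set I} (hD : ∀ k i, ∃ j ∈ D k, C j ⊆ C i)
    (hDd : ∀ k, ∀ j ∈ D k, ∀ i, C i ⊆ C j → i ∈ D k) (k : ℕ) (i : I) :
    ∃ j, C j ⊆ C i ∧ ∀ l ≤ k, j ∈ D l := by
  induction k with
  | zero =>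
    obtain ⟨j, hj, hji⟩ := hD 0 i
    refine ⟨j, hji, fun l hl => ?_⟩
    rw [Nat.le_zero.1 hl]
    exact hj
  | succ k ih =>
    obtain ⟨j, hji, hj⟩ := ih
    obtain ⟨j', hj', hj'j⟩ := hD (k + 1) j
    refine ⟨j', hj'j.trans hji, fun l hl => ?_⟩
    rcases Nat.le_succ_iff.1 hl with hl | rfl
    · exact hDd l j (hj l hl) j' hj'j
    · exact hj'

lemma step {C : I → Set K} (hinf : ∀ i, (C i).Infinite)
    (hsm : ∀ i, ∀ x ∈ C i, ∀ n, ∃ j, x ∈ C j ∧ C j ⊆ C i ∧ C j ⊆ cyl x n)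
    {D : ℕ → Set I} (hD : ∀ k i, ∃ j ∈ D k, C j ⊆ C i)
    (hDd : ∀ k, ∀ j ∈ D k, ∀ i, C i ⊆ C j → i ∈ D k)
    (q : ℕ → K) {𝓔 : ℕ → Set E} {O : E → Set I}
    (hO : ∀ k (s : Finset I), ∃ e ∈ 𝓔 k, ∀ i ∈ s, ∃ j ∈ O e, C j ⊆ C i) (P : ℕ → I)
    (k : ℕ) (S : Finset (ℕ × I)) (hS : Valid C S) :
    ∃ e ∈ 𝓔 k, ∃ S', Valid C S' ∧ Rel C D q O P k e S S' := by
  classical
  let B : Set K := q '' Iic k
  have hB : B.Finite := (finite_Iic k).image q
  obtain ⟨z, hz, hzB⟩ := (hinf (P k)).exists_notMem_finite hB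
  have h1 : ∀ a : ℕ × I, ∃ x0 ∈ C a.2, ∃ x1 ∈ C a.2, x0 ≠ x1 ∧ x0 ∉ insert z B ∧
      x1 ∉ insert z B := by
    intro a
    obtain ⟨x0, hx0, hx0B⟩ := (hinf a.2).exists_notMem_finite (hB.insert z)
    obtain ⟨x1, hx1, hx1B⟩ := (hinf a.2).exists_notMem_finite ((hB.insert z).insert x0)
    exact ⟨x0, hx0, x1, hx1, fun h => hx1B (Or.inl h.symm), hx0B, fun h => hx1B (Or.inr h)⟩
  choose x0 hx0 x1 hx1 hne hx0B hx1B using h1
  let pt : Option ({a // a ∈ S} × Bool) → K := fun ν => match ν with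
    | none => z
    | some (a, b) => if b then x1 a.1 else x0 a.1
  let par : Option ({a // a ∈ S} × Bool) → I := fun ν => match ν with
    | none => P k
    | some (a, _) => a.1.2
  let lab : Option ({a // a ∈ S} × Bool) → ℕ := fun ν => match ν with
    | none => k
    | some (a, _) => a.1.1
  have hpar : ∀ ν, pt ν ∈ C (par ν) := by
    rintro (_ | ⟨a, _ | _⟩)
    · exact hz
    · exact hx0 _
    · exact hx1 _
  have hptz : ∀ a b, pt (some (a, b)) ≠ z := by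
    rintro a (_ | _)
    · exact fun h => hx0B a.1 (Or.inl h)
    · exact fun h => hx1B a.1 (Or.inl h)
  have hptB : ∀ ν, pt ν ∉ B := by
    rintro (_ | ⟨a, _ | _⟩)
    · exact hzB
    · exact fun h => hx0B _ (Or.inr h)
    · exact fun h => hx1B _ (Or.inr h)
  have hinj : Function.Injective pt := by
    rintro (_ | ⟨a, b⟩) (_ | ⟨a', b'⟩) h
    · rfl
    · exact absurd h.symm (hptz a' b')
    · exact absurd h (hptz a b)
    · by_cases haa : a = a'
      · subst haa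
        cases b <;> cases b'
        · rfl
        · exact absurd h (hne _)
        · exact absurd h.symm (hne _)
        · rfl
      · exfalso
        have h1 := hpar (some (a, b))
        have h2 := hpar (some (a', b'))
        rw [h] at h1
        exact Set.disjoint_left.1 (hS a.1 a.2 a'.1 a'.2 fun h => haa (Subtype.ext h)) h1 h2
  obtain ⟨M, hMk, hM1, hM2⟩ : ∃ M, k + 1 ≤ M ∧
      (∀ ν ν', ν ≠ ν' → Disjoint (cyl (pt ν) M) (cyl (pt ν') M)) ∧
      ∀ ν, ∀ i ∈ Finset.Iic k, q i ∉ cyl (pt ν) M := by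
    have h1 : ∀ᶠ M in atTop, ∀ ν ν', ν ≠ ν' → Disjoint (cyl (pt ν) M) (cyl (pt ν') M) := by
      rw [eventually_all]
      intro ν
      rw [eventually_all]
      intro ν'
      by_cases hν : ν = ν'
      · exact Eventually.of_forall fun M h => absurd hν h
      · filter_upwards [eventually_disjoint fun h => hν (hinj h)] with M hM _ using hM
    have h2 : ∀ᶠ M in atTop, ∀ ν, ∀ i ∈ Finset.Iic k, q i ∉ cyl (pt ν) M := by
      rw [eventually_all]
      intro ν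
      rw [Finset.eventually_all]
      intro i hi
      have : q i ≠ pt ν := fun h => hptB ν ⟨i, Finset.mem_Iic.1 hi, h⟩
      filter_upwards [eventually_disjoint this] with M hM
      exact fun h => Set.disjoint_left.1 hM (mem_cyl_self _ _) h
    obtain ⟨M, ⟨h1, h2⟩, h3⟩ := ((h1.and h2).and (eventually_ge_atTop (k + 1))).exists
    exact ⟨M, h3, h1, h2⟩
  have h2 : ∀ ν, ∃ j, C j ⊆ C (par ν) ∧ C j ⊆ cyl (pt ν) M ∧ ∀ i ≤ k, j ∈ D i := by
    intro ν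
    obtain ⟨j, -, hj1, hj2⟩ := hsm (par ν) (pt ν) (hpar ν) M
    obtain ⟨j', hj', hj'D⟩ := dense_fin hD hDd k j
    exact ⟨j', hj'.trans hj1, hj'.trans hj2, hj'D⟩
  choose j hj1 hj2 hj3 using h2
  obtain ⟨e, he, hO'⟩ := hO k (Finset.univ.image j)
  have h3 : ∀ ν, ∃ j' ∈ O e, C j' ⊆ C (j ν) := fun ν =>
    hO' _ (Finset.mem_image_of_mem _ (Finset.mem_univ ν))
  choose j' hj'O hj' using h3
  have hdis : ∀ ν ν', ν ≠ ν' → Disjoint (C (j' ν)) (C (j' ν')) := fun ν ν' h =>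
    ((hM1 ν ν' h).mono_left ((hj' ν).trans (hj2 ν))).mono_right ((hj' ν').trans (hj2 ν'))
  have hmem : ∀ ν, (lab ν, j' ν) ∈ Finset.univ.image fun ν => (lab ν, j' ν) := fun ν =>
    Finset.mem_image_of_mem _ (Finset.mem_univ ν)
  refine ⟨e, he, Finset.univ.image (fun ν => (lab ν, j' ν)), ?_, ?_, ?_, ?_, ?_, ?_, ?_, ?_⟩
  · intro a ha b hb hab
    simp only [Finset.mem_image, Finset.mem_univ, true_and] at ha hb
    obtain ⟨ν, rfl⟩ := ha
    obtain ⟨ν', rfl⟩ := hb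
    exact hdis ν ν' fun h => hab (by rw [h])
  · intro a ha
    refine ⟨_, hmem (some (⟨a, ha⟩, false)), _, hmem (some (⟨a, ha⟩, true)), ?_, rfl, rfl,
      (hj' _).trans (hj1 _), (hj' _).trans (hj1 _)⟩
    intro h
    have h1 : j' (some (⟨a, ha⟩, false)) = j' (some (⟨a, ha⟩, true)) := congrArg Prod.snd h
    have h2 := hdis (some (⟨a, ha⟩, false)) (some (⟨a, ha⟩, true)) (by simp)
    rw [h1, disjoint_self] at h2
    have h3 := (hinf (j' (some (⟨a, ha⟩, true)))).nonempty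
    rw [h2] at h3
    exact Set.not_nonempty_empty h3
  · intro b hb
    simp only [Finset.mem_image, Finset.mem_univ, true_and] at hb
    obtain ⟨ν, rfl⟩ := hb
    rcases ν with _ | ⟨a, c⟩
    · exact Or.inl ⟨rfl, (hj' _).trans (hj1 _)⟩
    · exact Or.inr ⟨a.1, a.2, rfl, (hj' _).trans (hj1 _)⟩
  · exact ⟨_, hmem none, rfl⟩
  · intro b hb i hi
    simp only [Finset.mem_image, Finset.mem_univ, true_and] at hb
    obtain ⟨ν, rfl⟩ := hb
    exact hDd i _ (hj3 ν i hi) _ (hj' ν)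
  · intro b hb i hi
    simp only [Finset.mem_image, Finset.mem_univ, true_and] at hb
    obtain ⟨ν, rfl⟩ := hb
    exact fun h => hM2 ν i (Finset.mem_Iic.2 hi) (hj2 ν (hj' ν h))
  · intro b hb
    simp only [Finset.mem_image, Finset.mem_univ, true_and] at hb
    obtain ⟨ν, rfl⟩ := hb
    exact ⟨pt ν, ((hj' ν).trans (hj2 ν)).trans (cyl_anti _ hMk)⟩
  · intro b hb
    simp only [Finset.mem_image, Finset.mem_univ, true_and] at hb
    obtain ⟨ν, rfl⟩ := hb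
    exact hj'O ν

theorem fusion [Countable I] [Nonempty I] (C : I → Set K) (hcl : ∀ i, IsClosed (C i))
    (hinf : ∀ i, (C i).Infinite)
    (hsm : ∀ i, ∀ x ∈ C i, ∀ n, ∃ j, x ∈ C j ∧ C j ⊆ C i ∧ C j ⊆ cyl x n)
    (D : ℕ → Set I) (hD : ∀ k i, ∃ j ∈ D k, C j ⊆ C i)
    (hDd : ∀ k, ∀ j ∈ D k, ∀ i, C i ⊆ C j → i ∈ D k)
    (q : ℕ → K) (𝓔 : ℕ → Set E) (O : E → Set I)
    (hO : ∀ k (s : Finset I), ∃ e ∈ 𝓔 k, ∀ i ∈ s, ∃ j ∈ O e, C j ⊆ C i) :
    ∃ (Q : ℕ → Set K) (e : ℕ → E), (∀ k, e k ∈ 𝓔 k) ∧ (∀ m, IsClosed (Q m)) ∧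
      (∀ m, (Q m).Nonempty) ∧ (∀ m m', m ≠ m' → Disjoint (Q m) (Q m')) ∧
      (∀ m, ∀ x ∈ Q m, ∀ n, ∃ y ∈ Q m, y ≠ x ∧ y ∈ cyl x n) ∧
      (∀ i, ∃ m, Q m ⊆ C i) ∧
      (∀ k m, ∀ x ∈ Q m, ∃ n, ∃ j ∈ D k, Q m ∩ cyl x n ⊆ C j) ∧
      (∀ k m, q k ∉ Q m) ∧
      (∀ m k, m ≤ k → ∀ x ∈ Q m, ∃ j ∈ O (e k), x ∈ C j) := by
  classical
  obtain ⟨P, hP⟩ := exists_surjective_nat I
  obtain ⟨e0, -, -⟩ := hO 0 ∅
  have : Nonempty E := ⟨e0⟩
  have hstep := step hinf hsm hD hDd q hO P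
  choose! e he S' hS'v hS'r using hstep
  obtain ⟨St, hSt0, hSt⟩ : ∃ St : ℕ → Finset (ℕ × I), St 0 = ∅ ∧ ∀ k, St (k + 1) = S' k (St k) :=
    ⟨fun k => Nat.rec ∅ (fun k S => S' k S) k, rfl, fun k => rfl⟩
  have hv : ∀ k, Valid C (St k) := by
    intro k
    induction k with
    | zero => intro a ha; rw [hSt0] at ha; exact absurd ha (Finset.notMem_empty a)
    | succ k ih => rw [hSt]; exact hS'v k _ ih
  have hr : ∀ k, Rel C D q O P k (e k (St k)) (St k) (St (k + 1)) := fun k => by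
    rw [hSt]; exact hS'r k _ (hv k)
  have hlab : ∀ k, ∀ b ∈ St k, b.1 < k := by
    intro k
    induction k with
    | zero => intro a ha; rw [hSt0] at ha; exact absurd ha (Finset.notMem_empty a)
    | succ k ih =>
      intro b hb
      rcases (hr k).par b hb with ⟨h, -⟩ | ⟨a, ha, hab, -⟩
      · omega
      · have := ih a ha
        omega
  have hup : ∀ k, ∀ b ∈ St k, ∀ l, b.1 < l → l ≤ k → ∃ a ∈ St l, a.1 = b.1 ∧ C b.2 ⊆ C a.2 := by
    intro k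
    induction k with
    | zero => intro a ha; rw [hSt0] at ha; exact absurd ha (Finset.notMem_empty a)
    | succ k ih =>
      intro b hb l hl hlk
      rcases Nat.le_succ_iff.1 hlk with hlk | rfl
      · rcases (hr k).par b hb with ⟨h, -⟩ | ⟨a, ha, hab, hba⟩
        · omega
        · obtain ⟨a', ha', h1, h2⟩ := ih a ha l (by omega) hlk
          exact ⟨a', ha', h1.trans hab, hba.trans h2⟩
      · exact ⟨b, hb, rfl, subset_rfl⟩
  let Q : ℕ → Set K := fun m => {x | ∀ k, m < k → ∃ b ∈ St k, b.1 = m ∧ x ∈ C b.2}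
  have hne : ∀ k, ∀ b ∈ St k, ∃ y ∈ C b.2, y ∈ Q b.1 := by
    intro k b hb
    have h1 : ∀ k (a : ℕ × I), a ∈ St k → ∃ b ∈ St (k + 1), b.1 = a.1 ∧ C b.2 ⊆ C a.2 := by
      intro k a ha
      obtain ⟨b, hb, b', hb', h1, h2, h3, h4, h5⟩ := (hr k).split a ha
      exact ⟨b, hb, h2, h4⟩
    have : Nonempty (ℕ × I) := ⟨b⟩
    choose! nx hnx1 hnx2 hnx3 using h1
    let t : ℕ → ℕ × I := fun n => Nat.rec b (fun n a => nx (k + n) a) n
    have ht : ∀ n, t (n + 1) = nx (k + n) (t n) := fun n => rfl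
    have ht1 : ∀ n, t n ∈ St (k + n) := by
      intro n
      induction n with
      | zero => exact hb
      | succ n ih => rw [ht]; exact hnx1 _ _ ih
    have ht2 : ∀ n, (t n).1 = b.1 := by
      intro n
      induction n with
      | zero => rfl
      | succ n ih => rw [ht, hnx2 _ _ (ht1 n), ih]
    obtain ⟨y, hy⟩ := IsCompact.nonempty_iInter_of_sequence_nonempty_isCompact_isClosed
      (fun n => C (t n).2) (fun n => by
        show C (t (n + 1)).2 ⊆ C (t n).2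
        rw [ht]; exact hnx3 _ _ (ht1 n))
      (fun n => (hinf _).nonempty) ((hcl _).isCompact) (fun n => hcl _)
    rw [mem_iInter] at hy
    refine ⟨y, hy 0, fun l hl => ?_⟩
    rcases le_total l k with hlk | hlk
    · obtain ⟨a, ha, h1, h2⟩ := hup k b hb l hl hlk
      exact ⟨a, ha, h1, h2 (hy 0)⟩
    · obtain ⟨n, rfl⟩ := Nat.exists_eq_add_of_le hlk
      exact ⟨t n, ht1 n, ht2 n, hy n⟩
  refine ⟨Q, fun k => e k (St k), fun k => he k _ (hv k), ?_, ?_, ?_, ?_, ?_, ?_, ?_, ?_⟩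
  · intro m
    have : Q m = ⋂ k ∈ Ioi m, ⋃ b ∈ (St k).filter (fun b => b.1 = m), C b.2 := by
      ext x
      simp only [Q, mem_ofPred_eq, mem_iInter, mem_Ioi, mem_iUnion, Finset.mem_filter, exists_prop,
        and_assoc]
    rw [this]
    refine isClosed_iInter fun k => isClosed_iInter fun _ => ?_
    exact Set.Finite.isClosed_biUnion ((St k).filter (fun b => b.1 = m)).finite_toSet
      fun b _ => hcl b.2
  · intro m
    obtain ⟨b, hb, hbm⟩ := (hr m).root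
    obtain ⟨y, -, hy⟩ := hne (m + 1) b hb
    rw [hbm] at hy
    exact ⟨y, hy⟩
  · intro m m' hmm
    rw [Set.disjoint_left]
    intro x hx hx'
    obtain ⟨b, hb, hbm, hxb⟩ := hx (max m m' + 1) (by omega)
    obtain ⟨b', hb', hbm', hxb'⟩ := hx' (max m m' + 1) (by omega)
    refine Set.disjoint_left.1 (hv _ b hb b' hb' ?_) hxb hxb'
    rintro rfl
    exact hmm (hbm.symm.trans hbm')
  · intro m x hx n
    obtain ⟨b, hb, hbm, hxb⟩ := hx (max m n + 1) (by omega)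
    obtain ⟨z, hz⟩ := (hr (max m n)).small b hb
    have hbn : C b.2 ⊆ cyl x n := by
      rw [← cyl_eq (hz hxb)] at hz
      exact hz.trans (cyl_anti _ (by omega))
    obtain ⟨c, hc, c', hc', hcc, h1, h2, h3, h4⟩ := (hr (max m n + 1)).split b hb
    have h5 : ∃ d ∈ St (max m n + 1 + 1), d.1 = m ∧ C d.2 ⊆ C b.2 ∧ x ∉ C d.2 := by
      by_cases hxc : x ∈ C c.2
      · exact ⟨c', hc', h2.trans hbm, h4, fun h => Set.disjoint_left.1 (hv _ c hc c' hc' hcc) hxc h⟩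
      · exact ⟨c, hc, h1.trans hbm, h3, hxc⟩
    obtain ⟨d, hd, hdm, hdb, hxd⟩ := h5
    obtain ⟨y, hyd, hyQ⟩ := hne _ d hd
    rw [hdm] at hyQ
    exact ⟨y, hyQ, fun h => hxd (h ▸ hyd), hbn (hdb hyd)⟩
  · intro i
    obtain ⟨m, rfl⟩ := hP i
    refine ⟨m, fun x hx => ?_⟩
    obtain ⟨b, hb, hbm, hxb⟩ := hx (m + 1) (Nat.lt_succ_self m)
    rcases (hr m).par b hb with ⟨-, h⟩ | ⟨a, ha, hab, -⟩
    · exact h hxb
    · have := hlab m a ha
      omega
  · intro k m x hx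
    obtain ⟨b, hb, hbm, hxb⟩ := hx (max m k + 1) (by omega)
    have hcl' : IsClosed (⋃ b' ∈ (St (max m k + 1)).filter (fun b' => b' ≠ b), C b'.2) :=
      ((St (max m k + 1)).filter (fun b' => b' ≠ b)).finite_toSet.isClosed_biUnion fun b _ => hcl _
    have hx' : x ∈ (⋃ b' ∈ (St (max m k + 1)).filter (fun b' => b' ≠ b), C b'.2)ᶜ := by
      simp only [mem_compl_iff, mem_iUnion, Finset.mem_filter, not_exists]
      rintro b' ⟨hb', hne'⟩ hxb'
      exact Set.disjoint_left.1 (hv _ b' hb' b hb hne') hxb' hxb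
    obtain ⟨n, hn⟩ := exists_cyl hcl'.isOpen_compl hx'
    refine ⟨n, b.2, (hr (max m k)).dense b hb k (le_max_right _ _), ?_⟩
    rintro y ⟨hyQ, hyn⟩
    obtain ⟨b', hb', -, hyb'⟩ := hyQ (max m k + 1) (by omega)
    by_cases h : b' = b
    · rwa [h] at hyb'
    · exfalso
      refine hn hyn (mem_iUnion₂.2 ⟨b', ?_, hyb'⟩)
      exact Finset.mem_filter.2 ⟨hb', h⟩
  · intro k m hk
    obtain ⟨b, hb, hbm, hxb⟩ := hk (max m k + 1) (by omega)
    exact (hr (max m k)).avoid b hb k (le_max_right _ _) hxb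
  · intro m k hmk x hx
    obtain ⟨b, hb, hbm, hxb⟩ := hx (k + 1) (by omega)
    exact ⟨b.2, (hr k).task b hb, hxb⟩

end fusion

end Pool.Agent.R820.QC
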