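import Mathlib
import Pool.Agent.R820.QCFusion
import Pool.Agent.Helper639.ForceCH

/-!
# The levels of the space
-/

set_option autoImplicit false

namespace Pool.Agent.R820.QC

open Set Filter
open Pool.Agent.Helper639.ForceCH (Om countable_Iio exists_bound)

/-- An enumeration of the cylinders. -/
def bb (j : ℕ) : Set K :=
  cyl (fun i => ((Encodable.decode (α := List Bool) j).getD []).getD i false)
    ((Encodable.decode (α := List Bool) j).getD []).length

lemma isClopen_bb (j : ℕ) : IsClopen (bb j) := isClopen_cyl _ _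

lemma exists_bb (x : K) (n : ℕ) : ∃ j, bb j = cyl x n := by
  refine ⟨Encodable.encode (List.ofFn fun i : Fin n => x i), ?_⟩
  ext y
  simp only [bb, Encodable.encodek, Option.getD_some, List.length_ofFn, cyl, mem_ofPred_eq]
  refine forall_congr' fun i => forall_congr' fun hi => ?_
  simp [List.getD, hi]

/-- Perfectness. -/
def Perf (S : Set K) : Prop := ∀ x ∈ S, ∀ n, ∃ y ∈ S, y ≠ x ∧ y ∈ cyl x n

lemma perf_univ : Perf univ := by
  intro x _ n
  refine ⟨fun i => if i = n then !(x n) else x i, trivial, fun h => ?_, fun i hi => ?_⟩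
  · have := congrFun h n
    simp at this
  · simp [hi.ne]

lemma Perf.inter {S U : Set K} (hS : Perf S) (hU : IsOpen U) : Perf (S ∩ U) := by
  rintro x ⟨hx, hxU⟩ n
  obtain ⟨m, hm⟩ := exists_cyl hU hxU
  obtain ⟨y, hy, hyx, hyn⟩ := hS x hx (max n m)
  exact ⟨y, ⟨hy, hm (cyl_anti _ (le_max_right _ _) hyn)⟩, hyx, cyl_anti _ (le_max_left _ _) hyn⟩

lemma Perf.infinite {S : Set K} (hS : Perf S) (hne : S.Nonempty) : S.Infinite := by
  intro hf
  obtain ⟨x, hx⟩ := hne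
  have h1 : ∀ᶠ n in atTop, ∀ y ∈ S, y ≠ x → y ∉ cyl x n := by
    rw [hf.eventually_all]
    intro y _
    by_cases h : y = x
    · exact Eventually.of_forall fun n h' => absurd h h'
    · filter_upwards [eventually_disjoint h] with n hn _ hy
      exact Set.disjoint_left.1 hn (mem_cyl_self _ _) hy
  obtain ⟨n, hn⟩ := h1.exists
  obtain ⟨y, hy, hyx, hyn⟩ := hS x hx n
  exact hn y hy hyx hyn

/-- Indices of conditions. -/
abbrev CI : Type := Option (Om × ℕ) × ℕ
abbrev W : Type := ℕ × Finset (Om × ℕ) × Finset CI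
abbrev Z : Type := W × ((Om × ℕ) ⊕ CI)
abbrev Lev : Type := (ℕ → Set K) × (ℕ → K)

def base (D : Om → Lev) : Option (Om × ℕ) → Set K
  | none => univ
  | some a => (D a.1).1 a.2

/-- The condition with a given index. -/
def Cs (D : Om → Lev) (c : CI) : Set K := base D c.1 ∩ bb c.2

def ok (δ : Om) (c : CI) : Prop := ∀ a, c.1 = some a → a.1 < δ

def okW (δ : Om) (w : W) : Prop := (∀ p ∈ w.2.1, p.1 < δ) ∧ ∀ c ∈ w.2.2, ok δ c

def Good (δ : Om) (D : Om → Lev) (G : Z → Prop) : Prop :=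
  ∀ w, okW δ w → (∀ c ∈ w.2.2, (Cs D c).Nonempty) →
    (∀ p ∈ w.2.1, G (w, Sum.inl p)) ∧
      ∀ c ∈ w.2.2, ∃ c', ok δ c' ∧ (Cs D c').Nonempty ∧ Cs D c' ⊆ Cs D c ∧ G (w, Sum.inr c')

structure Spec (δ : Om) (D : Om → Lev) (G : Z → Prop) (L : Lev) : Prop where
  closed : ∀ m, IsClosed (L.1 m)
  nonempty : ∀ m, (L.1 m).Nonempty
  disj : ∀ m m', m ≠ m' → Disjoint (L.1 m) (L.1 m')
  perf : ∀ m, Perf (L.1 m)
  dense : ∀ c, ok δ c → (Cs D c).Nonempty → ∃ m, L.1 m ⊆ Cs D c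
  ref : ∀ β < δ, ∀ m, ∀ x ∈ L.1 m, ∃ n m', L.1 m ∩ cyl x n ⊆ (D β).1 m'
  ptmem : ∀ i, ∃ m, L.2 i ∈ L.1 m
  ptdense : ∀ m j, (L.1 m ∩ bb j).Nonempty → ∃ i, L.2 i ∈ L.1 m ∩ bb j
  avoid : ∀ β < δ, ∀ i m, (D β).2 i ∉ L.1 m
  guess : Good δ D G → ∃ w : ℕ → W, (∀ k, okW δ (w k)) ∧ (∀ k, (w k).1 = k) ∧
    (∀ β < δ, ∀ i, ∀ᶠ k in atTop, G (w k, Sum.inl (β, i))) ∧
    ∀ m, ∀ᶠ k in atTop, ∀ x ∈ L.1 m, ∃ c, ok δ c ∧ x ∈ Cs D c ∧ G (w k, Sum.inr c)

lemma Cs_congr {δ : Om} {D D' : Om → Lev} (h : ∀ β < δ, D β = D' β) {c : CI} (hc : ok δ c) :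
    Cs D c = Cs D' c := by
  rcases c with ⟨_ | a, j⟩
  · rfl
  · simp only [Cs, base]
    rw [h a.1 (hc a rfl)]

lemma Good_congr {δ : Om} {D D' : Om → Lev} (h : ∀ β < δ, D β = D' β) {G : Z → Prop}
    (hG : Good δ D G) : Good δ D' G := by
  intro w hw hne
  obtain ⟨h1, h2⟩ := hG w hw fun c hc => by rw [Cs_congr h (hw.2 c hc)]; exact hne c hc
  refine ⟨h1, fun c hc => ?_⟩
  obtain ⟨c', h3, h4, h5, h6⟩ := h2 c hc
  rw [Cs_congr h h3] at h4 h5
  rw [Cs_congr h (hw.2 c hc)] at h5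
  exact ⟨c', h3, h4, h5, h6⟩

lemma Spec_congr {δ : Om} {D D' : Om → Lev} (h : ∀ β < δ, D β = D' β) {G : Z → Prop} {L : Lev}
    (hS : Spec δ D G L) : Spec δ D' G L := by
  refine ⟨hS.closed, hS.nonempty, hS.disj, hS.perf, ?_, ?_, hS.ptmem, hS.ptdense, ?_, ?_⟩
  · intro c hc hne
    rw [← Cs_congr h hc] at hne ⊢
    exact hS.dense c hc hne
  · intro β hβ
    rw [← h β hβ]
    exact hS.ref β hβ
  · intro β hβ
    rw [← h β hβ]
    exact hS.avoid β hβ
  · intro hG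
    obtain ⟨w, h1, h2, h3, h4⟩ := hS.guess (Good_congr (fun β hβ => (h β hβ).symm) hG)
    refine ⟨w, h1, h2, h3, fun m => ?_⟩
    filter_upwards [h4 m] with k hk x hx
    obtain ⟨c, hc1, hc2, hc3⟩ := hk x hx
    rw [Cs_congr h hc1] at hc2
    exact ⟨c, hc1, hc2, hc3⟩

lemma countable_Iio' (δ : Om) : (Iio δ).Countable := Set.countable_coe_iff.1 (countable_Iio δ)

lemma countable_ok (δ : Om) : {c : CI | ok δ c}.Countable := by
  have h1 : (insert none (some '' ((Iio δ) ×ˢ (univ : Set ℕ))) : Set (Option (Om × ℕ))).Countable :=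
    (((countable_Iio' δ).prod countable_univ).image _).insert _
  refine (h1.prod (countable_univ (α := ℕ))).mono ?_
  rintro ⟨_ | a, j⟩ hc
  · exact ⟨Or.inl rfl, trivial⟩
  · exact ⟨Or.inr ⟨a, ⟨hc a rfl, trivial⟩, rfl⟩, trivial⟩

theorem exists_spec (δ : Om) (D : Om → Lev) (G : Om → Z → Prop)
    (hD : ∀ β < δ, Spec β D (G β) (D β)) : ∃ L, Spec δ D (G δ) L := by
  classical
  let I : Type := {c : CI // ok δ c ∧ (Cs D c).Nonempty}
  have hIc : Countable I := by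
    have : Set.Countable {c : CI | ok δ c ∧ (Cs D c).Nonempty} :=
      (countable_ok δ).mono fun c hc => hc.1
    exact this.to_subtype
  have hne0 : (Cs D ((none, 0) : CI)).Nonempty := ⟨_, trivial, mem_cyl_self _ _⟩
  have hIn : Nonempty I := ⟨⟨(none, 0), by intro a ha; simp at ha, hne0⟩⟩
  let C : I → Set K := fun i => Cs D i.1
  have hbase : ∀ o : Option (Om × ℕ), (∀ a, o = some a → a.1 < δ) →
      IsClosed (base D o) ∧ Perf (base D o) := by
    rintro (_ | a) ho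
    · exact ⟨isClosed_univ, perf_univ⟩
    · exact ⟨(hD _ (ho a rfl)).closed _, (hD _ (ho a rfl)).perf _⟩
  have hcl : ∀ i, IsClosed (C i) := fun i => (hbase i.1.1 i.2.1).1.inter (isClopen_bb _).isClosed
  have hinf : ∀ i, (C i).Infinite := fun i =>
    ((hbase i.1.1 i.2.1).2.inter (isClopen_bb _).isOpen).infinite i.2.2
  have hsm : ∀ i, ∀ x ∈ C i, ∀ n, ∃ j, x ∈ C j ∧ C j ⊆ C i ∧ C j ⊆ cyl x n := by
    rintro ⟨⟨o, j⟩, ho, hne⟩ x ⟨hx, hxj⟩ n
    obtain ⟨n', hn'⟩ := exists_cyl (isClopen_bb j).isOpen hxj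
    obtain ⟨j', hj'⟩ := exists_bb x (max n n')
    have hxj' : x ∈ bb j' := by rw [hj']; exact mem_cyl_self _ _
    refine ⟨⟨(o, j'), ho, ⟨x, hx, hxj'⟩⟩, ⟨hx, hxj'⟩, ?_, ?_⟩
    · rintro y ⟨hy, hyj⟩
      refine ⟨hy, hn' (cyl_anti _ (le_max_right n n') ?_)⟩
      rw [← hj']; exact hyj
    · rintro y ⟨hy, hyj⟩
      have hyj' : y ∈ bb j' := hyj
      rw [hj'] at hyj'
      exact cyl_anti _ (le_max_left n n') hyj'
  -- the dense families
  have hdense : ∀ β < δ, ∀ i : I, ∃ j : I, (∃ m, C j ⊆ (D β).1 m) ∧ C j ⊆ C i := by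
    rintro β hβ ⟨⟨o, j⟩, ho, hne⟩
    obtain ⟨j0, hj0⟩ := exists_bb (fun _ => false) 0
    have hj0' : bb j0 = univ := by
      rw [hj0]
      ext y
      simp [cyl]
    have hcase : ok β (o, j) → ∃ j' : I, (∃ m, C j' ⊆ (D β).1 m) ∧ C j' ⊆ Cs D (o, j) := by
      intro hok
      obtain ⟨m, hm⟩ := (hD β hβ).dense (o, j) hok hne
      have h1 : Cs D (some (β, m), j0) = (D β).1 m := by
        simp only [Cs, base, hj0', inter_univ]
      refine ⟨⟨(some (β, m), j0), ?_, ?_⟩, ⟨m, ?_⟩, ?_⟩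
      · intro a ha
        simp only [Option.some.injEq] at ha
        rw [← ha]; exact hβ
      · rw [h1]; exact (hD β hβ).nonempty m
      · exact h1.subset
      · exact h1.subset.trans hm
    rcases o with _ | ⟨α, m0⟩
    · exact hcase fun a ha => by simp at ha
    · have hα : α < δ := ho (α, m0) rfl
      rcases lt_trichotomy α β with h | rfl | h
      · refine hcase fun a ha => ?_
        simp only [Option.some.injEq] at ha
        rw [← ha]; exact h
      · exact ⟨⟨(some (α, m0), j), ho, hne⟩, ⟨m0, inter_subset_left⟩, subset_rfl⟩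
      · obtain ⟨x, hx, hxj⟩ := hne
        obtain ⟨n, m', hn⟩ := (hD α hα).ref β h m0 x hx
        obtain ⟨j1, h1, h2, h3⟩ := hsm ⟨(some (α, m0), j), ho, ⟨x, hx, hxj⟩⟩ x ⟨hx, hxj⟩ n
        refine ⟨j1, ⟨m', fun y hy => hn ⟨(h2 hy).1, h3 hy⟩⟩, h2⟩
  have hcI : Countable (Iio δ) := countable_Iio δ
  obtain ⟨f, hf⟩ := exists_surjective_nat (Option (Iio δ))
  obtain ⟨f', hf'⟩ := exists_surjective_nat (Option (Iio δ × ℕ))
  let DD : ℕ → Set I := fun k => match f k with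
    | none => univ
    | some β => {i | ∃ m, C i ⊆ (D β).1 m}
  have hDD : ∀ k i, ∃ j ∈ DD k, C j ⊆ C i := by
    intro k i
    simp only [DD]
    rcases f k with _ | β
    · exact ⟨i, trivial, subset_rfl⟩
    · obtain ⟨j, h1, h2⟩ := hdense β β.2 i
      exact ⟨j, h1, h2⟩
  have hDDd : ∀ k, ∀ j ∈ DD k, ∀ i, C i ⊆ C j → i ∈ DD k := by
    intro k j hj i hij
    simp only [DD] at hj ⊢
    rcases h : f k with _ | β
    · trivial
    · rw [h] at hj
      obtain ⟨m, hm⟩ := hj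
      exact ⟨m, hij.trans hm⟩
  let q : ℕ → K := fun k => match f' k with
    | none => fun _ => false
    | some p => (D p.1).2 p.2
  let 𝓔 : ℕ → Set W := fun k => {w | okW δ w ∧ w.1 = k ∧
    (Good δ D (G δ) → ∀ l ≤ k, ∀ p, f' l = some p → G δ (w, Sum.inl (p.1.1, p.2)))}
  let O : W → Set I := fun w => {i | Good δ D (G δ) → G δ (w, Sum.inr i.1)}
  have hO : ∀ k (s : Finset I), ∃ e ∈ 𝓔 k, ∀ i ∈ s, ∃ j ∈ O e, C j ⊆ C i := by
    intro k s
    let F : Finset (Om × ℕ) := (Finset.range (k + 1)).biUnion fun l => match f' l with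
      | none => ∅
      | some p => {(p.1.1, p.2)}
    have hF : ∀ p ∈ F, p.1 < δ := by
      intro p hp
      obtain ⟨l, -, hl⟩ := Finset.mem_biUnion.1 hp
      rcases h : f' l with _ | p'
      · rw [h] at hl; exact absurd hl (Finset.notMem_empty _)
      · rw [h] at hl
        rw [Finset.mem_singleton.1 hl]
        exact p'.1.2
    have hF' : ∀ l ≤ k, ∀ p, f' l = some p → (p.1.1, p.2) ∈ F := by
      intro l hl p hp
      refine Finset.mem_biUnion.2 ⟨l, Finset.mem_range.2 (by omega), ?_⟩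
      rw [hp]
      exact Finset.mem_singleton_self _
    let w : W := (k, F, s.image Subtype.val)
    have hw : okW δ w := by
      refine ⟨hF, fun c hc => ?_⟩
      obtain ⟨i, -, rfl⟩ := Finset.mem_image.1 hc
      exact i.2.1
    by_cases hG : Good δ D (G δ)
    · obtain ⟨h1, h2⟩ := hG w hw (by
        intro c hc
        obtain ⟨i, -, rfl⟩ := Finset.mem_image.1 hc
        exact i.2.2)
      refine ⟨w, ⟨hw, rfl, fun _ l hl p hp => h1 _ (hF' l hl p hp)⟩, fun i hi => ?_⟩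
      obtain ⟨c', h3, h4, h5, h6⟩ := h2 i.1 (Finset.mem_image_of_mem _ hi)
      exact ⟨⟨c', h3, h4⟩, fun _ => h6, h5⟩
    · exact ⟨w, ⟨hw, rfl, fun h => absurd h hG⟩, fun i _ => ⟨i, fun h => absurd h hG, subset_rfl⟩⟩
  obtain ⟨Q, e, he, h1, h2, h3, h4, h5, h6, h7, h8⟩ :=
    fusion C hcl hinf hsm DD hDD hDDd q 𝓔 O hO
  have hpt : ∀ m j, ∃ x ∈ Q m, (Q m ∩ bb j).Nonempty → x ∈ bb j := by
    intro m j
    by_cases h : (Q m ∩ bb j).Nonempty
    · obtain ⟨x, hx, hxj⟩ := h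
      exact ⟨x, hx, fun _ => hxj⟩
    · obtain ⟨x, hx⟩ := h2 m
      exact ⟨x, hx, fun h' => absurd h' h⟩
  choose pp hpp hpp' using hpt
  refine ⟨(Q, fun i => pp i.unpair.1 i.unpair.2), h1, h2, h3, h4, ?_, ?_, ?_, ?_, ?_, ?_⟩
  · intro c hc hne
    exact h5 ⟨c, hc, hne⟩
  · intro β hβ m x hx
    obtain ⟨k, hk⟩ := hf (some ⟨β, hβ⟩)
    obtain ⟨n, j, hj, hn⟩ := h6 k m x hx
    simp only [DD] at hj
    rw [hk] at hj
    obtain ⟨m', hm'⟩ := hj
    exact ⟨n, m', hn.trans hm'⟩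
  · intro i
    exact ⟨_, hpp _ _⟩
  · intro m j hne
    refine ⟨Nat.pair m j, ?_, ?_⟩
    · simp only [Nat.unpair_pair]
      exact hpp _ _
    · simp only [Nat.unpair_pair]
      exact hpp' _ _ hne
  · intro β hβ i m
    obtain ⟨k, hk⟩ := hf' (some (⟨β, hβ⟩, i))
    have := h7 k m
    simp only [q] at this
    rw [hk] at this
    exact this
  · intro hG
    refine ⟨e, fun k => (he k).1, fun k => (he k).2.1, ?_, ?_⟩
    · intro β hβ i
      obtain ⟨l, hl⟩ := hf' (some (⟨β, hβ⟩, i))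
      filter_upwards [eventually_ge_atTop l] with k hk
      exact (he k).2.2 hG l hk _ hl
    · intro m
      filter_upwards [eventually_ge_atTop m] with k hk x hx
      obtain ⟨j, hj, hxj⟩ := h8 m k hk x hx
      exact ⟨j.1, j.2.1, hxj, hj hG⟩

theorem exists_rec {I : Type*} [LinearOrder I] [WellFoundedLT I] {X : Type*} [Inhabited X]
    (Phi : I → (I → X) → X → Prop)
    (hloc : ∀ i (D D' : I → X) x, (∀ j, j < i → D j = D' j) → Phi i D x → Phi i D' x)
    (hex : ∀ i D, ∃ x, Phi i D x) : ∃ D : I → X, ∀ i, Phi i D (D i) := by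
  classical
  let step : (i : I) → ((j : I) → j < i → X) → X := fun i D =>
    Classical.choose (hex i (fun j => if h : j < i then D j h else default))
  let D : I → X := WellFounded.fix (wellFounded_lt (α := I)) step
  refine ⟨D, fun i => ?_⟩
  have h1 : D i = step i (fun j _ => D j) := WellFounded.fix_eq _ _ _
  have h2 : Phi i (fun j => if h : j < i then D j else default) (step i (fun j _ => D j)) :=
    Classical.choose_spec (hex i (fun j => if h : j < i then D j else default))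
  rw [← h1] at h2
  refine hloc i _ _ _ ?_ h2
  intro j hj
  simp [hj]

theorem exists_levels (G : Om → Z → Prop) : ∃ D : Om → Lev, ∀ δ, Spec δ D (G δ) (D δ) := by
  have h1 : ∃ D : Om → Lev, ∀ δ, (∀ β < δ, Spec β D (G β) (D β)) → Spec δ D (G δ) (D δ) := by
    refine exists_rec (fun δ D L => (∀ β < δ, Spec β D (G β) (D β)) → Spec δ D (G δ) L) ?_ ?_
    · intro δ D D' L h hL hD'
      refine Spec_congr h (hL fun β hβ => ?_)
      rw [h β hβ]
      exact Spec_congr (fun γ hγ => (h γ (hγ.trans hβ)).symm) (hD' β hβ)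
    · intro δ D
      by_cases h : ∀ β < δ, Spec β D (G β) (D β)
      · obtain ⟨L, hL⟩ := exists_spec δ D G h
        exact ⟨L, fun _ => hL⟩
      · exact ⟨default, fun h' => absurd h' h⟩
  obtain ⟨D, hD⟩ := h1
  refine ⟨D, fun δ => ?_⟩
  induction δ using WellFoundedLT.induction with
  | _ δ ih => exact hD δ ih

end Pool.Agent.R820.QC
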