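import Mathlib
import Pool.Agent.R820.QCLevel

/-!
# The space
-/

set_option autoImplicit false

namespace Pool.Agent.R820.QC

open Set Filter Topology
open Pool.Agent.Helper639.ForceCH (Om countable_Iio exists_bound)

/-- The set of all chosen points. -/
def XX (D : Om → Lev) : Type := {x : K // ∃ α i, x = (D α).2 i}

/-- `x` is a point of the level `α` in the `m`-th set. -/
def At (D : Om → Lev) (x : K) (α : Om) (m : ℕ) : Prop := (∃ i, x = (D α).2 i) ∧ x ∈ (D α).1 m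

instance instXX (D : Om → Lev) : TopologicalSpace (XX D) where
  IsOpen U := ∀ x ∈ U, ∀ α m, At D x.1 α m →
    ∃ n, ∀ y : XX D, y.1 ∈ (D α).1 m → y.1 ∈ cyl x.1 n → y ∈ U
  isOpen_univ := fun _ _ _ _ _ => ⟨0, fun _ _ _ => trivial⟩
  isOpen_inter := by
    rintro U V hU hV x ⟨hx, hx'⟩ α m h
    obtain ⟨n, hn⟩ := hU x hx α m h
    obtain ⟨n', hn'⟩ := hV x hx' α m h
    exact ⟨max n n', fun y hy hyn => ⟨hn y hy (cyl_anti _ (le_max_left _ _) hyn),
      hn' y hy (cyl_anti _ (le_max_right _ _) hyn)⟩⟩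
  isOpen_sUnion := by
    rintro S hS x ⟨U, hU, hx⟩ α m h
    obtain ⟨n, hn⟩ := hS U hU x hx α m h
    exact ⟨n, fun y hy hyn => ⟨U, hU, hn y hy hyn⟩⟩

lemma isOpen_def {D : Om → Lev} {U : Set (XX D)} : IsOpen U ↔ ∀ x ∈ U, ∀ α m, At D x.1 α m →
    ∃ n, ∀ y : XX D, y.1 ∈ (D α).1 m → y.1 ∈ cyl x.1 n → y ∈ U := Iff.rfl

section

variable {D : Om → Lev} {G : Om → Z → Prop} (hS : ∀ δ, Spec δ D (G δ) (D δ))
include hS

lemma exists_at (x : XX D) : ∃ α m, At D x.1 α m := by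
  obtain ⟨α, i, h⟩ := x.2
  obtain ⟨m, hm⟩ := (hS α).ptmem i
  exact ⟨α, m, ⟨i, h⟩, by rw [h]; exact hm⟩

lemma le_of_mem {x : K} {α β : Om} {m m' : ℕ} (h : At D x α m) (hx : x ∈ (D β).1 m') : β ≤ α := by
  by_contra hlt
  obtain ⟨⟨i, hi⟩, -⟩ := h
  rw [hi] at hx
  exact (hS β).avoid α (not_le.1 hlt) i m' hx

lemma eq_of_mem {x : K} {β : Om} {m m' : ℕ} (h : x ∈ (D β).1 m) (h' : x ∈ (D β).1 m') :
    m = m' := by
  by_contra hne
  exact Set.disjoint_left.1 ((hS β).disj m m' hne) h h'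

lemma sub_of_mem {x : K} {α β : Om} {m m' : ℕ} (h : At D x α m) (hx : x ∈ (D β).1 m') :
    ∃ n, (D α).1 m ∩ cyl x n ⊆ (D β).1 m' := by
  rcases (le_of_mem hS h hx).lt_or_eq with hlt | rfl
  · obtain ⟨n, m'', hn⟩ := (hS α).ref β hlt m x h.2
    have : m'' = m' := eq_of_mem hS (hn ⟨h.2, mem_cyl_self _ _⟩) hx
    rw [this] at hn
    exact ⟨n, hn⟩
  · rw [eq_of_mem hS h.2 hx]
    exact ⟨0, inter_subset_left⟩

lemma sub_of_memC {x : K} {α : Om} {m : ℕ} (h : At D x α m) {c : CI} (hx : x ∈ Cs D c) :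
    ∃ n, (D α).1 m ∩ cyl x n ⊆ Cs D c := by
  obtain ⟨n1, h1⟩ := exists_cyl (isClopen_bb c.2).isOpen hx.2
  obtain ⟨n2, h2⟩ : ∃ n, (D α).1 m ∩ cyl x n ⊆ base D c.1 := by
    rcases h' : c.1 with _ | a
    · exact ⟨0, subset_univ _⟩
    · have := hx.1
      rw [h'] at this
      exact sub_of_mem hS h this
  refine ⟨max n1 n2, ?_⟩
  rintro y ⟨hy, hyn⟩
  exact ⟨h2 ⟨hy, cyl_anti _ (le_max_right _ _) hyn⟩, h1 (cyl_anti _ (le_max_left _ _) hyn)⟩

lemma isClosed_base (o : Option (Om × ℕ)) : IsClosed (base D o) := by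
  rcases o with _ | a
  · exact isClosed_univ
  · exact (hS a.1).closed a.2

lemma isClopen_Cs (c : CI) : IsClopen {y : XX D | y.1 ∈ Cs D c} := by
  constructor
  · rw [← isOpen_compl_iff, isOpen_def]
    intro x hx α m _
    have hcl : IsClosed (Cs D c) := (isClosed_base hS c.1).inter (isClopen_bb _).isClosed
    obtain ⟨n, hn⟩ := exists_cyl hcl.isOpen_compl (show x.1 ∈ (Cs D c)ᶜ from hx)
    exact ⟨n, fun y _ hyn => hn hyn⟩
  · rw [isOpen_def]
    intro x hx α m h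
    obtain ⟨n, hn⟩ := sub_of_memC hS h hx
    exact ⟨n, fun y hy hyn => hn ⟨hy, hyn⟩⟩

lemma exists_sub {U : Set (XX D)} (hU : IsOpen U) {x : XX D} (hx : x ∈ U) {c : CI}
    (hc : x.1 ∈ Cs D c) : ∃ c', x.1 ∈ Cs D c' ∧ Cs D c' ⊆ Cs D c ∧
      ∀ y : XX D, y.1 ∈ Cs D c' → y ∈ U := by
  obtain ⟨α, m, h⟩ := exists_at hS x
  obtain ⟨n, hn⟩ := hU x hx α m h
  obtain ⟨n', hn'⟩ := sub_of_memC hS h hc
  obtain ⟨j, hj⟩ := exists_bb x.1 (max n n')
  refine ⟨(some (α, m), j), ⟨h.2, by rw [hj]; exact mem_cyl_self _ _⟩, ?_, ?_⟩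
  · rintro y ⟨hy, hyj⟩
    have hyj' : y ∈ bb j := hyj
    rw [hj] at hyj'
    exact hn' ⟨hy, cyl_anti _ (le_max_right _ _) hyj'⟩
  · rintro y ⟨hy, hyj⟩
    have hyj' : y.1 ∈ bb j := hyj
    rw [hj] at hyj'
    exact hn y hy (cyl_anti _ (le_max_left _ _) hyj')

omit hS in
lemma exists_triv : ∃ c : CI, Cs D c = univ ∧ ∀ δ, ok δ c := by
  obtain ⟨j, hj⟩ := exists_bb (fun _ => false) 0
  refine ⟨(none, j), ?_, fun δ a ha => by simp at ha⟩
  simp only [Cs, base, hj, univ_inter]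
  ext y
  simp [cyl]

lemma exists_point {c : CI} (hc : (Cs D c).Nonempty) : ∃ x : XX D, x.1 ∈ Cs D c := by
  obtain ⟨δ, hδ⟩ : ∃ δ, ok δ c := by
    rcases h : c.1 with _ | a
    · exact ⟨(exists_bound fun _ => Classical.choice ⟨(exists_bound (fun _ =>
        (Pool.Agent.Helper639.ForceCH.exists_emb.choose 0))).choose⟩).choose,
        fun a ha => by rw [h] at ha; simp at ha⟩
    · obtain ⟨δ, hδ⟩ := exists_bound fun _ => a.1
      refine ⟨δ, fun b hb => ?_⟩
      rw [h] at hb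
      simp only [Option.some.injEq] at hb
      rw [← hb]
      exact hδ 0
  obtain ⟨m, hm⟩ := (hS δ).dense c hδ hc
  obtain ⟨j, hj⟩ := exists_bb (fun _ => false) 0
  have hj' : bb j = univ := by
    rw [hj]
    ext y
    simp [cyl]
  obtain ⟨i, hi⟩ := (hS δ).ptdense m j (by rw [hj', inter_univ]; exact (hS δ).nonempty m)
  exact ⟨⟨(D δ).2 i, δ, i, rfl⟩, hm hi.1⟩

theorem exists_clopen {U : Set (XX D)} (hU : IsOpen U) {x : XX D} (hx : x ∈ U) :
    ∃ V, IsClopen V ∧ x ∈ V ∧ V ⊆ U := by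
  obtain ⟨c, hc, -⟩ := exists_triv (D := D)
  obtain ⟨c', h1, -, h3⟩ := exists_sub hS hU hx (c := c) (by rw [hc]; trivial)
  exact ⟨_, isClopen_Cs hS c', h1, h3⟩

omit hS in
lemma isOpen_cyl' (x : K) (n : ℕ) : IsOpen {y : XX D | y.1 ∈ cyl x n} := by
  rw [isOpen_def]
  intro y hy _ _ _
  refine ⟨n, fun z _ hz => ?_⟩
  rw [cyl_eq hy] at hz
  exact hz

omit hS in
theorem t1 : T1Space (XX D) := by
  refine ⟨fun x => ?_⟩
  rw [← isOpen_compl_iff, isOpen_iff_forall_mem_open]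
  intro y hy
  obtain ⟨n, hn⟩ := (eventually_disjoint (x := y.1) (y := x.1)
    fun h => hy (Subtype.ext h)).exists
  refine ⟨{z | z.1 ∈ cyl y.1 n}, ?_, isOpen_cyl' _ _, mem_cyl_self _ _⟩
  rintro z hz rfl
  exact Set.disjoint_left.1 hn hz (mem_cyl_self _ _)

theorem firstCountable : FirstCountableTopology (XX D) := by
  refine ⟨fun x => ?_⟩
  obtain ⟨α, m, h⟩ := exists_at hS x
  have hb : (𝓝 x).HasBasis (fun _ : ℕ => True)
      (fun n => {y : XX D | y.1 ∈ (D α).1 m ∧ y.1 ∈ cyl x.1 n}) := by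
    constructor
    intro U
    constructor
    · intro hU
      obtain ⟨V, hVU, hV, hxV⟩ := mem_nhds_iff.1 hU
      obtain ⟨n, hn⟩ := hV x hxV α m h
      exact ⟨n, trivial, fun y hy => hVU (hn y hy.1 hy.2)⟩
    · rintro ⟨n, -, hn⟩
      obtain ⟨j, hj⟩ := exists_bb x.1 n
      have h1 := (isClopen_Cs hS (some (α, m), j)).isOpen.mem_nhds (x := x)
        ⟨h.2, by rw [hj]; exact mem_cyl_self _ _⟩
      refine mem_of_superset h1 fun y hy => hn ⟨hy.1, ?_⟩
      have := hy.2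
      rw [hj] at this
      exact this
  exact (HasCountableBasis.mk hb (to_countable _)).isCountablyGenerated

theorem t35 : T35Space (XX D) := by
  classical
  have := t1 (D := D)
  have : CompletelyRegularSpace (XX D) := by
    refine ⟨fun z F hF hzF => ?_⟩
    obtain ⟨U, hU, hzU, hUF⟩ := exists_clopen hS hF.isOpen_compl (x := z) hzF
    refine ⟨fun w => if w ∈ U then 0 else 1, ?_, if_pos hzU, ?_⟩
    · exact continuous_const.if (by
        intro w hw
        have h1 : frontier U = ∅ := hU.frontier_eq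
        have h2 : w ∈ frontier U := hw
        rw [h1] at h2
        exact h2.elim) continuous_const
    · intro w hw
      exact if_neg fun hwU => hUF hwU hw
  exact { }

omit hS in
lemma continuous_val : Continuous (fun x : XX D => (x.1 : K)) := by
  rw [continuous_def]
  intro U hU
  rw [isOpen_iff_forall_mem_open]
  intro x hx
  obtain ⟨n, hn⟩ := exists_cyl hU hx
  exact ⟨{y | y.1 ∈ cyl x.1 n}, fun y hy => hn hy, isOpen_cyl' _ _, mem_cyl_self _ _⟩

omit hS in
theorem submetrizable : ∃ τ : TopologicalSpace (XX D), instXX D ≤ τ ∧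
    @TopologicalSpace.MetrizableSpace (XX D) τ := by
  refine ⟨TopologicalSpace.induced (fun x : XX D => (x.1 : K)) inferInstance, ?_, ?_⟩
  · exact continuous_iff_le_induced.1 continuous_val
  · have : TopologicalSpace.MetrizableSpace K :=
      TopologicalSpace.metrizableSpace_of_t3_secondCountable K
    let _ : TopologicalSpace (XX D) := TopologicalSpace.induced (fun x : XX D => (x.1 : K)) inferInstance
    exact (Topology.IsEmbedding.mk (f := fun x : XX D => (x.1 : K)) ⟨rfl⟩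
      Subtype.val_injective).metrizableSpace

omit hS in
/-- Bounding the levels below a limit. -/
lemma bound_below {δ : Om} (hδ : ∃ b, b < δ) {ι : Type} (s : Finset ι) (f : ι → Om)
    (hf : ∀ i ∈ s, f i < δ) : ∃ γ < δ, ∀ i ∈ s, f i ≤ γ := by
  classical
  obtain ⟨b, hb⟩ := hδ
  have hne : (insert b (s.image f)).Nonempty := Finset.insert_nonempty _ _
  refine ⟨(insert b (s.image f)).max' hne, ?_, ?_⟩
  · rw [Finset.max'_lt_iff]
    intro y hy
    rcases Finset.mem_insert.1 hy with h | h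
    · rw [h]; exact hb
    · obtain ⟨x, hx, rfl⟩ := Finset.mem_image.1 h
      exact hf x hx
  · intro x hx
    exact Finset.le_max' _ _ (Finset.mem_insert_of_mem (Finset.mem_image_of_mem _ hx))

theorem uncountable : Uncountable (XX D) := by
  have hOm : Uncountable Om := by
    refine ⟨fun h => ?_⟩
    have : Nonempty Om := ⟨Pool.Agent.Helper639.ForceCH.exists_emb.choose 0⟩
    obtain ⟨f, hf⟩ := exists_surjective_nat Om
    obtain ⟨a, ha⟩ := exists_bound f
    obtain ⟨n, hn⟩ := hf a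
    exact (ha n).ne hn
  have hinj : Function.Injective fun α : Om => (⟨(D α).2 0, α, 0, rfl⟩ : XX D) := by
    intro α β h
    have h' : (D α).2 0 = (D β).2 0 := congrArg Subtype.val h
    obtain ⟨m, hm⟩ := (hS α).ptmem 0
    obtain ⟨m', hm'⟩ := (hS β).ptmem 0
    rcases lt_trichotomy α β with hlt | rfl | hlt
    · rw [← h'] at hm'
      exact absurd hm' ((hS β).avoid α hlt 0 m')
    · rfl
    · rw [h'] at hm
      exact absurd hm ((hS α).avoid β hlt 0 m)
  exact hinj.uncountable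

end

end Pool.Agent.R820.QC
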