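import Mathlib
import Pool.Agent.R820.QCSpace

/-!
# Diamond and the Fréchet-Urysohn property
-/

set_option autoImplicit false

namespace Pool.Agent.R820.QC

open Set Filter Topology
open Pool.Agent.Helper639.ForceCH (Om countable_Iio exists_bound)

/-- `C` is a closed unbounded subset of `ω₁` (the sentence named by `IsClubName`) -/
def IsClub (C : Om → Prop) : Prop :=
  (∀ a : Om, ∃ b : Om, a < b ∧ C b) ∧
    ∀ a : Om, (∃ b, b < a) → (∀ b : Om, b < a → ∃ c : Om, (b < c ∧ c < a) ∧ C c) → C a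

/-- diamond: the sentence which `DiamondHolds P` says is forced, evaluated in the universe -/
def Diamond : Prop :=
  ∃ A : Om → Om → Prop, ∀ S : Om → Prop, ∀ C : Om → Prop,
    IsClub C → ∃ a : Om, C a ∧ ∀ b : Om, b < a → (S b ↔ A a b)

lemma exists_gt_image (f : Om → Om) (a : Om) : ∃ c : Om, ∀ b ≤ a, f b < c := by
  have h1 : (Iic a).Countable := by
    rw [← Iio_insert]
    exact (countable_Iio' a).insert a
  have h2 : (f '' Iic a).Countable := h1.image f
  have h3 : (f '' Iic a).Nonempty := ⟨f a, mem_image_of_mem _ (mem_Iic.2 le_rfl)⟩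
  obtain ⟨g, hg⟩ := h2.exists_eq_range h3
  obtain ⟨c, hc⟩ := exists_bound g
  refine ⟨c, fun b hb => ?_⟩
  have h4 : f b ∈ range g := by
    rw [← hg]
    exact mem_image_of_mem _ hb
  obtain ⟨k, hk⟩ := h4
  rw [← hk]
  exact hc k

lemma exists_gt (a : Om) : ∃ b : Om, a < b := by
  obtain ⟨b, hb⟩ := exists_bound fun _ => a
  exact ⟨b, hb 0⟩

lemma isClub_closure (f : Om → Om) : IsClub fun a => (∃ b, b < a) ∧ ∀ b < a, f b < a := by
  constructor
  · intro a
    choose g hg using exists_gt_image f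
    obtain ⟨g', hg'⟩ : ∃ g' : Om → Om, ∀ a, g a ≤ g' a ∧ a < g' a := by
      choose g2 hg2 using exists_gt
      exact ⟨fun a => max (g a) (g2 a), fun a => ⟨le_max_left _ _,
        lt_of_lt_of_le (hg2 a) (le_max_right _ _)⟩⟩
    let s : ℕ → Om := fun k => g'^[k] a
    have hs : ∀ k, s (k + 1) = g' (s k) := fun k => Function.iterate_succ_apply' g' k a
    refine ⟨Pool.Agent.Helper639.ForceCH.ub s, Pool.Agent.Helper639.ForceCH.lt_ub s 0,
      ⟨a, Pool.Agent.Helper639.ForceCH.lt_ub s 0⟩, fun b hb => ?_⟩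
    obtain ⟨k, hk⟩ := Pool.Agent.Helper639.ForceCH.ub_le s hb
    have h1 : f b < s (k + 1) := by
      rw [hs]
      exact lt_of_lt_of_le (hg _ b hk) (hg' _).1
    exact h1.trans (Pool.Agent.Helper639.ForceCH.lt_ub s (k + 1))
  · intro a hne h
    refine ⟨hne, fun b hb => ?_⟩
    obtain ⟨c, ⟨h1, h2⟩, -, h3⟩ := h b hb
    exact (h3 b h1).trans h2

/-- The data with all the levels below `δ`. -/
def okZ (δ : Om) : Z → Prop
  | (w, Sum.inl p) => okW δ w ∧ p.1 < δ
  | (w, Sum.inr c) => okW δ w ∧ ok δ c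

lemma countable_finset {α : Type} {s : Set α} (hs : s.Countable) :
    {F : Finset α | ∀ x ∈ F, x ∈ s}.Countable := by
  refine ((countable_ofPred_finite_subset hs).preimage_of_injOn
    (f := fun s : Finset α => (s : Set α)) Finset.coe_injective.injOn).mono ?_
  intro F hF
  exact ⟨F.finite_toSet, hF⟩

lemma countable_okW (δ : Om) : {w : W | okW δ w}.Countable := by
  have h1 : {p : Om × ℕ | p.1 < δ}.Countable :=
    ((countable_Iio' δ).prod (countable_univ (α := ℕ))).mono (by intro p hp; exact ⟨hp, trivial⟩)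
  refine ((countable_univ (α := ℕ)).prod
    ((countable_finset h1).prod (countable_finset (countable_ok δ)))).mono ?_
  intro w hw
  exact ⟨trivial, hw.1, hw.2⟩

lemma countable_okZ (δ : Om) : {z : Z | okZ δ z}.Countable := by
  have h1 : {p : Om × ℕ | p.1 < δ}.Countable :=
    ((countable_Iio' δ).prod (countable_univ (α := ℕ))).mono (by intro p hp; exact ⟨hp, trivial⟩)
  refine ((countable_okW δ).prod ((h1.image Sum.inl).union
    ((countable_ok δ).image Sum.inr))).mono ?_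
  rintro ⟨w, p | c⟩ h
  · exact ⟨h.1, Or.inl ⟨p, h.2, rfl⟩⟩
  · exact ⟨h.1, Or.inr ⟨c, h.2, rfl⟩⟩

lemma exists_bound_set {T : Set Om} (hT : T.Countable) : ∃ a, ∀ b ∈ T, b < a := by
  rcases T.eq_empty_or_nonempty with rfl | hne
  · exact ⟨Pool.Agent.Helper639.ForceCH.exists_emb.choose 0, by simp⟩
  · obtain ⟨f, rfl⟩ := hT.exists_eq_range hne
    obtain ⟨a, ha⟩ := exists_bound f
    exact ⟨a, by rintro _ ⟨n, rfl⟩; exact ha n⟩

lemma exists_injZ : ∃ e : Z → Om, Function.Injective e := by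
  have hOm : Cardinal.mk Om = Cardinal.aleph 1 := by simp
  have h0 : Cardinal.aleph0 ≤ Cardinal.mk Om := by rw [hOm]; exact Cardinal.aleph0_le_aleph 1
  have hinf : Infinite Om := Cardinal.infinite_iff.2 h0
  have h1 : Cardinal.mk Z = Cardinal.mk Om := by
    simp only [Z, W, CI, Cardinal.mk_prod, Cardinal.mk_sum, Cardinal.mk_option, Cardinal.lift_id,
      Cardinal.mk_finset_of_infinite, Cardinal.mk_nat, Cardinal.mul_aleph0_eq h0,
      Cardinal.add_one_eq h0, Cardinal.add_eq_self h0, Cardinal.mul_eq_self h0,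
      Cardinal.aleph0_mul_eq h0]
  obtain ⟨E⟩ := Cardinal.eq.1 h1
  exact ⟨E, E.injective⟩

lemma exists_below {δ : Om} (hδ : ∃ b, b < δ) {w : W} (hw : okW δ w) :
    ∃ γ < δ, ∀ δ', γ < δ' → okW δ' w := by
  classical
  obtain ⟨γ1, h1, h1'⟩ := bound_below hδ w.2.1 Prod.fst hw.1
  obtain ⟨γ2, h2, h2'⟩ := bound_below hδ w.2.2 (fun c => match c.1 with
    | none => hδ.choose
    | some a => a.1) (by
      intro c hc
      rcases h : c.1 with _ | a
      · exact hδ.choose_spec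
      · exact hw.2 c hc a h)
  refine ⟨max γ1 γ2, max_lt h1 h2, fun δ' hδ' => ⟨fun p hp => ?_, fun c hc a ha => ?_⟩⟩
  · exact (h1' p hp).trans_lt ((le_max_left _ _).trans_lt hδ')
  · have := h2' c hc
    simp only [ha] at this
    exact this.trans_lt ((le_max_right _ _).trans_lt hδ')

lemma exists_below' {δ : Om} (hδ : ∃ b, b < δ) {z : Z} (hz : okZ δ z) :
    ∃ γ < δ, ∀ δ', γ < δ' → okZ δ' z := by
  obtain ⟨w, p | c⟩ := z
  · obtain ⟨γ, h1, h2⟩ := exists_below hδ hz.1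
    refine ⟨max γ p.1, max_lt h1 hz.2, fun δ' hδ' => ⟨h2 _ ((le_max_left _ _).trans_lt hδ'),
      (le_max_right _ _).trans_lt hδ'⟩⟩
  · obtain ⟨γ, h1, h2⟩ := exists_below hδ hz.1
    obtain ⟨b, hb⟩ := hδ
    rcases h : c.1 with _ | a
    · exact ⟨γ, h1, fun δ' hδ' => ⟨h2 _ hδ', fun a ha => by rw [h] at ha; simp at ha⟩⟩
    · refine ⟨max γ a.1, max_lt h1 (hz.2 a h), fun δ' hδ' =>
        ⟨h2 _ ((le_max_left _ _).trans_lt hδ'), fun a' ha' => ?_⟩⟩
      rw [h] at ha'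
      simp only [Option.some.injEq] at ha'
      rw [← ha']
      exact (le_max_right _ _).trans_lt hδ'

/-- The guessing: for every relation `R` on the data and every choice `cc` of conditions there is
a closed level at which the guess is right. -/
theorem exists_guess {A : Om → Om → Prop} (hA : ∀ S : Om → Prop, ∀ C : Om → Prop,
    IsClub C → ∃ a : Om, C a ∧ ∀ b : Om, b < a → (S b ↔ A a b)) {e : Z → Om}
    (he : Function.Injective e) (R : Z → Prop) (cc : W → CI → CI) :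
    ∃ δ, (∀ z, okZ δ z → (R z ↔ A δ (e z))) ∧ ∀ w, okW δ w → ∀ c ∈ w.2.2, ok δ (cc w c) := by
  have h1 : ∀ β : Om, ∃ γ, β < γ ∧ (∀ z, okZ β z → e z < γ) ∧
      ∀ w, okW β w → ∀ c ∈ w.2.2, ok γ (cc w c) := by
    intro β
    have hc1 : (e '' {z | okZ β z}).Countable := (countable_okZ β).image e
    have hc2 : (⋃ w ∈ {w | okW β w}, ⋃ c ∈ w.2.2, {a : Om | ∃ n, (cc w c).1 = some (a, n)}).Countable := by
      refine (countable_okW β).biUnion fun w _ => ?_
      refine w.2.2.countable_toSet.biUnion fun c _ => ?_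
      refine Set.Subsingleton.countable ?_
      rintro a ⟨n, h⟩ a' ⟨n', h'⟩
      rw [h] at h'
      simp only [Option.some.injEq, Prod.mk.injEq] at h'
      exact h'.1
    obtain ⟨γ, hγ⟩ := exists_bound_set ((hc1.union hc2).insert β)
    refine ⟨γ, hγ β (Or.inl rfl), fun z hz => hγ _ (Or.inr (Or.inl ⟨z, hz, rfl⟩)), ?_⟩
    rintro w hw c hc ⟨a, n⟩ h
    refine hγ a (Or.inr (Or.inr ?_))
    exact mem_biUnion (x := w) hw (mem_biUnion (x := c) hc ⟨n, h⟩)
  choose g hg1 hg2 hg3 using h1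
  obtain ⟨δ, ⟨hδ, hcl⟩, hG⟩ := hA (fun a => ∃ z, e z = a ∧ R z) _ (isClub_closure g)
  have hlim : ∀ γ < δ, ∃ δ' < δ, γ < δ' := fun γ hγ => ⟨g γ, hcl γ hγ, hg1 γ⟩
  refine ⟨δ, fun z hz => ?_, fun w hw c hc => ?_⟩
  · obtain ⟨γ, hγ, h⟩ := exists_below' hδ hz
    obtain ⟨δ', hδ', hγδ'⟩ := hlim γ hγ
    have h2 : e z < δ := (hg2 δ' z (h δ' hγδ')).trans (hcl δ' hδ')
    rw [← hG _ h2]
    constructor
    · exact fun h => ⟨z, rfl, h⟩
    · rintro ⟨z', h3, h4⟩
      rwa [he h3] at h4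
  · obtain ⟨γ, hγ, h⟩ := exists_below hδ hw
    obtain ⟨δ', hδ', hγδ'⟩ := hlim γ hγ
    exact fun a ha => (hg3 δ' w (h δ' hγδ') c hc a ha).trans (hcl δ' hδ')

/-- Quasicontinuity. -/
def QCont {X : Type} [TopologicalSpace X] (f : X → ℝ) : Prop :=
  ∀ x, ∀ U : Set X, IsOpen U → x ∈ U → ∀ ε > 0, ∃ W ⊆ U, IsOpen W ∧ W.Nonempty ∧
    ∀ y ∈ W, |f y - f x| < ε

theorem frechetUrysohn {A : Om → Om → Prop} (hA : ∀ S : Om → Prop, ∀ C : Om → Prop,
    IsClub C → ∃ a : Om, C a ∧ ∀ b : Om, b < a → (S b ↔ A a b)) {e : Z → Om}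
    (he : Function.Injective e) {D : Om → Lev} (hS : ∀ δ, Spec δ D (fun z => A δ (e z)) (D δ)) :
    FrechetUrysohnSpace {f : XX D → ℝ // QCont f} := by
  classical
  constructor
  intro S f hf
  let pt : Om × ℕ → XX D := fun p => ⟨(D p.1).2 p.2, p.1, p.2, rfl⟩
  have hne : Nonempty (XX D) := ⟨pt (Pool.Agent.Helper639.ForceCH.exists_emb.choose 0, 0)⟩
  have claim : ∀ w : W, ∃ g ∈ S, (∀ p ∈ w.2.1, |g.1 (pt p) - f.1 (pt p)| < 1 / ((w.1 : ℝ) + 1)) ∧
      ∃ cc : CI → CI, ∀ c ∈ w.2.2, (Cs D c).Nonempty → (Cs D (cc c)).Nonempty ∧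
        Cs D (cc c) ⊆ Cs D c ∧
        ∀ y : XX D, y.1 ∈ Cs D (cc c) → |g.1 y - f.1 y| < 1 / ((w.1 : ℝ) + 1) := by
    intro w
    set ε : ℝ := 1 / ((w.1 : ℝ) + 1) with hε
    have hε0 : 0 < ε := by positivity
    have h1 : ∀ c : CI, ∃ (x y : XX D) (V : Set (XX D)), (Cs D c).Nonempty → IsOpen V ∧
        V ⊆ {y | y.1 ∈ Cs D c} ∧ y ∈ V ∧ ∀ v ∈ V, |f.1 v - f.1 x| < ε / 4 := by
      intro c
      by_cases hc : (Cs D c).Nonempty
      · obtain ⟨x, hx⟩ := exists_point hS hc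
        obtain ⟨V, hV1, hV2, ⟨y, hy⟩, hV3⟩ := f.2 x _ (isClopen_Cs hS c).isOpen hx (ε / 4)
          (by positivity)
        exact ⟨x, y, V, fun _ => ⟨hV2, hV1, hy, hV3⟩⟩
      · exact ⟨hne.some, hne.some, ∅, fun h => absurd h hc⟩
    choose xc yc Vc hVc using h1
    let T : Finset (XX D) := w.2.1.image pt ∪ w.2.2.image yc
    have hN : {g : {f : XX D → ℝ // QCont f} | ∀ y ∈ T, |g.1 y - f.1 y| < ε / 4} ∈ 𝓝 f := by
      have h1 : ∀ᶠ g : {f : XX D → ℝ // QCont f} in 𝓝 f, ∀ y ∈ T, |g.1 y - f.1 y| < ε / 4 := by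
        rw [Finset.eventually_all]
        intro y _
        have h2 : Continuous fun g : {f : XX D → ℝ // QCont f} => |g.1 y - f.1 y| :=
          ((continuous_apply y).comp continuous_subtype_val |>.sub continuous_const).abs
        have h3 := h2.continuousAt (x := f)
        refine h3.eventually_lt continuousAt_const ?_
        simpa using hε0
      exact h1
    obtain ⟨g, hg, hgS⟩ := mem_closure_iff_nhds.1 hf _ hN
    refine ⟨g, hgS, fun p hp => ?_, ?_⟩
    · have := hg (pt p) (Finset.mem_union_left _ (Finset.mem_image_of_mem _ hp))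
      linarith
    · have h2 : ∀ c : CI, ∃ c', c ∈ w.2.2 → (Cs D c).Nonempty → (Cs D c').Nonempty ∧
          Cs D c' ⊆ Cs D c ∧ ∀ y : XX D, y.1 ∈ Cs D c' → |g.1 y - f.1 y| < ε := by
        intro c
        by_cases hc : c ∈ w.2.2 ∧ (Cs D c).Nonempty
        · obtain ⟨hV1, hV2, hV3, hV4⟩ := hVc c hc.2
          obtain ⟨W', hW1, hW2, ⟨y', hy'⟩, hW3⟩ := g.2 (yc c) _ hV1 hV3 (ε / 4) (by positivity)
          obtain ⟨c', h3, h4, h5⟩ := exists_sub hS hW2 hy' (hV2 (hW1 hy'))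
          refine ⟨c', fun _ _ => ⟨⟨_, h3⟩, h4, fun y hy => ?_⟩⟩
          have h6 := h5 y hy
          have h7 := hW3 y h6
          have h8 := hg (yc c) (Finset.mem_union_right _ (Finset.mem_image_of_mem _ hc.1))
          have h9 := hV4 _ hV3
          have h10 := hV4 _ (hW1 h6)
          rw [abs_lt] at h7 h8 h9 h10 ⊢
          constructor <;> linarith
        · exact ⟨c, fun h h' => absurd ⟨h, h'⟩ hc⟩
      choose cc hcc using h2
      exact ⟨cc, hcc⟩
  choose gW hgS hgp ccW hcc using claim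
  let R : Z → Prop := fun z => match z with
    | (w, Sum.inl p) => |(gW w).1 (pt p) - f.1 (pt p)| < 1 / ((w.1 : ℝ) + 1)
    | (w, Sum.inr c) => ∀ y : XX D, y.1 ∈ Cs D c → |(gW w).1 y - f.1 y| < 1 / ((w.1 : ℝ) + 1)
  obtain ⟨δ, h1, h2⟩ := exists_guess hA he R ccW
  have hgood : Good δ D (fun z => A δ (e z)) := by
    intro w hw hne
    refine ⟨fun p hp => (h1 (w, Sum.inl p) ⟨hw, hw.1 p hp⟩).1 (hgp w p hp), fun c hc => ?_⟩
    obtain ⟨h3, h4, h5⟩ := hcc w c hc (hne c hc)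
    exact ⟨ccW w c, h2 w hw c hc, h3, h4, (h1 (w, Sum.inr _) ⟨hw, h2 w hw c hc⟩).1 h5⟩
  obtain ⟨ws, k1, k2, k3, k4⟩ := (hS δ).guess hgood
  refine ⟨fun k => gW (ws k), fun k => hgS _, ?_⟩
  rw [tendsto_subtype_rng, tendsto_pi_nhds]
  intro y
  have key : ∀ᶠ k in atTop, |(gW (ws k)).1 y - f.1 y| < 1 / ((k : ℝ) + 1) := by
    obtain ⟨α, m, ⟨i, hi⟩, hm⟩ := exists_at hS y
    rcases lt_or_ge α δ with hα | hα
    · filter_upwards [k3 α hα i] with k hk
      have h3 : R (ws k, Sum.inl (α, i)) := (h1 (ws k, Sum.inl (α, i)) ⟨k1 k, hα⟩).2 hk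
      have h4 : pt (α, i) = y := Subtype.ext hi.symm
      simp only [R, h4, k2 k] at h3
      exact h3
    · obtain ⟨m', hm'⟩ : ∃ m', y.1 ∈ (D δ).1 m' := by
        rcases hα.lt_or_eq with hα | rfl
        · obtain ⟨n, m', hn⟩ := (hS α).ref δ hα m y.1 hm
          exact ⟨m', hn ⟨hm, mem_cyl_self _ _⟩⟩
        · exact ⟨m, hm⟩
      filter_upwards [k4 m'] with k hk
      obtain ⟨c, hc1, hc2, hc3⟩ := hk y.1 hm'
      have h3 : R (ws k, Sum.inr c) := (h1 (ws k, Sum.inr c) ⟨k1 k, hc1⟩).2 hc3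
      have h4 := h3 y hc2
      rwa [k2 k] at h4
  rw [Metric.tendsto_atTop]
  intro ε hε
  obtain ⟨N, hN⟩ := exists_nat_one_div_lt hε
  obtain ⟨M, hM⟩ := eventually_atTop.1 key
  refine ⟨max N M, fun k hk => ?_⟩
  have h3 := hM k ((le_max_right _ _).trans hk)
  have h4 : (N : ℝ) ≤ k := by exact_mod_cast (le_max_left _ _).trans hk
  rw [Real.dist_eq]
  refine h3.trans_le (le_trans ?_ hN.le)
  apply one_div_le_one_div_of_le (by positivity)
  linarith

/-- A space is open Whyburn if for every open `A` and every `x` in the closure of `A` but not in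
`A` there is an open `B ⊆ A` whose closure minus `A` is `{x}`. -/
def OpenWhyburn (X : Type) [TopologicalSpace X] : Prop :=
  ∀ A : Set X, IsOpen A → ∀ x ∈ closure A \ A, ∃ B ⊆ A, IsOpen B ∧ closure B \ A = {x}

theorem openWhyburn {X : Type} [TopologicalSpace X] [T1Space X] [FirstCountableTopology X]
    (hb : ∀ (U : Set X) (x : X), IsOpen U → x ∈ U → ∃ V, IsClopen V ∧ x ∈ V ∧ V ⊆ U) :
    OpenWhyburn X := by
  rintro A hA x ⟨hx, hxA⟩
  obtain ⟨U, hU⟩ := (𝓝 x).exists_antitone_basis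
  have h1 : ∀ n, ∃ V, IsClopen V ∧ x ∈ V ∧ V ⊆ U n := by
    intro n
    obtain ⟨O, hO, hO', hxO⟩ := mem_nhds_iff.1 (hU.mem n)
    obtain ⟨V, hV, hxV, hVO⟩ := hb O x hO' hxO
    exact ⟨V, hV, hxV, hVO.trans hO⟩
  choose V hV hxV hVU using h1
  let N : ℕ → Set X := fun n => ⋂ l ∈ Finset.range (n + 1), V l
  have hN : ∀ n, IsClopen (N n) := fun n => isClopen_biInter_finset fun l _ => hV l
  have hNx : ∀ n, x ∈ N n := fun n => mem_iInter₂.2 fun l _ => hxV l
  have hNa : ∀ m n, m ≤ n → N n ⊆ N m := by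
    intro m n hmn y hy
    refine mem_iInter₂.2 fun l hl => mem_iInter₂.1 hy l ?_
    rw [Finset.mem_range] at hl ⊢
    omega
  have hNV : ∀ n, N n ⊆ V n := fun n y hy => mem_iInter₂.1 hy n (by simp)
  have h2 : ∀ n, ∃ y, y ∈ A ∩ N n := by
    intro n
    obtain ⟨y, hy⟩ := mem_closure_iff.1 hx (N n) (hN n).isOpen (hNx n)
    exact ⟨y, hy.2, hy.1⟩
  choose y hy using h2
  have h3 : ∀ n, ∃ O, IsClopen O ∧ y n ∈ O ∧ O ⊆ A ∩ N n := fun n =>
    hb _ _ (hA.inter (hN n).isOpen) (hy n)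
  choose O hO hyO hOA using h3
  refine ⟨⋃ n, O n, iUnion_subset fun n => (hOA n).trans inter_subset_left,
    isOpen_iUnion fun n => (hO n).isOpen, ?_⟩
  apply Set.Subset.antisymm
  · rintro z ⟨hz, hzA⟩
    rw [mem_singleton_iff]
    by_contra hzx
    obtain ⟨n, -, hn⟩ := hU.toHasBasis.mem_iff.1
      (isOpen_compl_singleton.mem_nhds (show x ∈ ({z}ᶜ : Set X) from fun h => hzx h.symm))
    have hzN : z ∉ N n := fun h => hn (hVU n (hNV n h)) rfl
    have hcl : IsClosed (N n ∪ ⋃ l ∈ Finset.range n, O l) :=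
      (hN n).isClosed.union ((Finset.range n).finite_toSet.isClosed_biUnion fun l _ => (hO l).isClosed)
    have hsub : ⋃ n, O n ⊆ N n ∪ ⋃ l ∈ Finset.range n, O l := by
      refine iUnion_subset fun l => ?_
      rcases lt_or_ge l n with h | h
      · exact fun w hw => Or.inr (mem_iUnion₂.2 ⟨l, Finset.mem_range.2 h, hw⟩)
      · exact fun w hw => Or.inl (hNa n l h (hOA l hw).2)
    rcases closure_minimal hsub hcl hz with h | h
    · exact hzN h
    · obtain ⟨l, -, hl⟩ := mem_iUnion₂.1 h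
      exact hzA (hOA l hl).1
  · rintro z rfl
    refine ⟨?_, hxA⟩
    rw [mem_closure_iff_nhds]
    intro T hT
    obtain ⟨n, -, hn⟩ := hU.toHasBasis.mem_iff.1 hT
    exact ⟨y n, hn (hVU n (hNV n (hy n).2)), mem_iUnion.2 ⟨n, hyO n⟩⟩

/-- The main construction. -/
theorem main (hd : Diamond) : ∃ (X : Type) (τ : TopologicalSpace X), T35Space X ∧
    FirstCountableTopology X ∧ (∃ τ' : TopologicalSpace X, τ ≤ τ' ∧
      @TopologicalSpace.MetrizableSpace X τ') ∧ Uncountable X ∧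
    (∀ (U : Set X) (x : X), IsOpen U → x ∈ U → ∃ V, IsClopen V ∧ x ∈ V ∧ V ⊆ U) ∧
    FrechetUrysohnSpace {f : X → ℝ // QCont f} := by
  obtain ⟨A, hA⟩ := hd
  obtain ⟨e, he⟩ := exists_injZ
  obtain ⟨D, hS⟩ := exists_levels fun δ z => A δ (e z)
  exact ⟨XX D, instXX D, t35 hS, firstCountable hS, submetrizable, uncountable hS,
    fun U x hU hx => exists_clopen hS hU hx, frechetUrysohn hA he hS⟩

end Pool.Agent.R820.QC
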