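import Mathlib

/-!
# Discontinuous functions on `X ^ ω` with continuous restrictions to compact sets

The common part of the arguments for the sequential fan and for the Arens space.
-/

namespace Pool.Agent.R820.FanPower

open Set Topology

variable {X : Type*} [TopologicalSpace X]

/-- the index of a point of the sequence `e j 0` -/
noncomputable def ret (e : ℕ → ℕ → X) (x : X) : ℕ :=
  open Classical in if h : ∃ j, x = e j 0 then h.choose else 0

/-- the set on which the function is `1` -/
def bad (e : ℕ → ℕ → X) : Set (ℕ → X) :=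
  {x | ∃ n k, 1 ≤ k ∧ x 0 = e n k ∧ (∀ i, 1 ≤ i → i ≤ n → ret e (x i) = 0) ∧
    ret e (x (n + 1)) = k}

/-- one piece of it -/
def piece (e : ℕ → ℕ → X) (n k : ℕ) : Set (ℕ → X) :=
  {x | x 0 = e n k ∧ (∀ i ∈ Finset.Icc 1 n, ret e (x i) = 0) ∧ ret e (x (n + 1)) = k}

theorem key (e : ℕ → ℕ → X) (o : X) (hinj : ∀ n k n' k', e n k = e n' k' → n = n' ∧ k = k')
    (ho : ∀ n k, o ≠ e n k) (h1 : ∀ n k, IsOpen {e n k})
    (h2 : ∀ k : ℕ → ℕ, IsOpen {x : X | ∀ n, x ≠ e n (k n)})
    (h3 : ∀ U : Set X, IsOpen U → o ∈ U → ∃ N, ∀ n ≥ N, ∃ k ≥ 1, e n k ∈ U) :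
    ∃ f : (ℕ → X) → ℝ, ¬ Continuous f ∧ ∀ K : Set (ℕ → X), IsCompact K → ContinuousOn f K := by
  classical
  have hret : ∀ j, ret e (e j 0) = j := by
    intro j
    have h : ∃ i, e j 0 = e i 0 := ⟨j, rfl⟩
    unfold ret
    rw [dif_pos h]
    exact (hinj _ _ _ _ h.choose_spec).1.symm
  have hret0 : ∀ x, (∀ n, x ≠ e n 0) → ret e x = 0 := by
    intro x hx
    unfold ret
    rw [dif_neg]
    rintro ⟨j, hj⟩
    exact hx j hj
  -- the retraction is continuous
  have hretc : Continuous (ret e) := by
    rw [continuous_discrete_rng]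
    intro j
    by_cases hj : j = 0
    · subst hj
      have : ret e ⁻¹' {0} = {x : X | ∀ n, x ≠ e n 0} ∪ {e 0 0} := by
        ext x
        simp only [mem_preimage, mem_singleton_iff, mem_union]
        constructor
        · intro h
          by_cases hx : ∃ n, x = e n 0
          · obtain ⟨n, rfl⟩ := hx
            rw [hret] at h
            subst h
            exact Or.inr rfl
          · push Not at hx
            exact Or.inl hx
        · rintro (h | h)
          · exact hret0 x h
          · rw [h, hret]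
      rw [this]
      exact (h2 fun _ => 0).union (h1 0 0)
    · have : ret e ⁻¹' {j} = {e j 0} := by
        ext x
        simp only [mem_preimage, mem_singleton_iff]
        constructor
        · intro h
          by_cases hx : ∃ n, x = e n 0
          · obtain ⟨n, rfl⟩ := hx
            rw [hret] at h
            rw [h]
          · push Not at hx
            rw [hret0 x hx] at h
            exact absurd h.symm hj
        · rintro rfl
          exact hret j
      rw [this]
      exact h1 j 0
  have hclosed : ∀ n k, IsClosed ({e n k} : Set X) := by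
    intro n k
    rw [← isOpen_compl_iff]
    have : ({e n k} : Set X)ᶜ = {x : X | ∀ m, x ≠ e m k} ∪ ⋃ m ∈ {m | m ≠ n}, {e m k} := by
      ext x
      simp only [mem_compl_iff, mem_singleton_iff, mem_union, mem_iUnion]
      constructor
      · intro hx
        by_cases hm : ∃ m, x = e m k
        · obtain ⟨m, rfl⟩ := hm
          refine Or.inr ⟨m, ?_, rfl⟩
          intro h
          exact hx (by rw [h])
        · push Not at hm
          exact Or.inl hm
      · rintro (h | ⟨m, hm, rfl⟩)
        · exact h n
        · intro h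
          exact hm (hinj _ _ _ _ h).1
    rw [this]
    exact (h2 fun _ => k).union (isOpen_biUnion fun m _ => h1 m k)
  have hpiece : ∀ n k, IsClopen (piece e n k) := by
    intro n k
    have : piece e n k = (fun x : ℕ → X => x 0) ⁻¹' {e n k} ∩
        ((⋂ i ∈ Finset.Icc 1 n, (fun x : ℕ → X => ret e (x i)) ⁻¹' {0}) ∩
          (fun x : ℕ → X => ret e (x (n + 1))) ⁻¹' {k}) := by
      ext x
      simp [piece]
    rw [this]
    refine IsClopen.inter ?_ (IsClopen.inter ?_ ?_)
    · exact IsClopen.preimage ⟨hclosed n k, h1 n k⟩ (continuous_apply 0)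
    · apply isClopen_biInter_finset
      intro i _
      exact (isClopen_discrete _).preimage (hretc.comp (continuous_apply i))
    · exact (isClopen_discrete _).preimage (hretc.comp (continuous_apply (n + 1)))
  refine ⟨(bad e).indicator 1, ?_, ?_⟩
  · -- discontinuity
    intro hc
    let xs : ℕ → X := fun i => if i = 0 then o else e 0 0
    have hxs : xs ∉ bad e := by
      rintro ⟨n, k, -, h, -⟩
      exact ho n k h
    have hopen : IsOpen ((bad e).indicator (1 : (ℕ → X) → ℝ) ⁻¹' Iio (1 / 2)) :=
      isOpen_Iio.preimage hc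
    have hmem : xs ∈ (bad e).indicator (1 : (ℕ → X) → ℝ) ⁻¹' Iio (1 / 2) := by
      show (bad e).indicator (1 : (ℕ → X) → ℝ) xs < 1 / 2
      rw [indicator_of_notMem hxs]
      norm_num
    rw [isOpen_pi_iff] at hopen
    obtain ⟨I, u, hu, hsub⟩ := hopen xs hmem
    -- a neighbourhood of `o`
    have hU : ∃ U : Set X, IsOpen U ∧ o ∈ U ∧ (0 ∈ I → U ⊆ u 0) := by
      by_cases h0 : 0 ∈ I
      · exact ⟨u 0, (hu 0 h0).1, (hu 0 h0).2, fun _ => Subset.rfl⟩
      · exact ⟨univ, isOpen_univ, mem_univ _, fun h => absurd h h0⟩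
    obtain ⟨U, hUo, hoU, hUu⟩ := hU
    obtain ⟨N, hN⟩ := h3 U hUo hoU
    let n := max N (I.sup id)
    obtain ⟨k, hk, hkU⟩ := hN n (le_max_left _ _)
    let x : ℕ → X := fun i => if i = 0 then e n k else if i = n + 1 then e k 0 else e 0 0
    have hx : x ∈ bad e := by
      refine ⟨n, k, hk, ?_, ?_, ?_⟩
      · simp [x]
      · intro i hi hin
        have h4 : x i = e 0 0 := by
          simp only [x]
          rw [if_neg (by omega), if_neg (by omega)]
        rw [h4, hret]
      · have h4 : x (n + 1) = e k 0 := by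
          simp only [x]
          rw [if_neg (by omega), if_pos trivial]
        rw [h4, hret]
    have hxu : x ∈ (I : Set ℕ).pi u := by
      intro i hi
      have hin : i ≤ n := (Finset.le_sup (f := id) hi).trans (le_max_right _ _)
      by_cases h0 : i = 0
      · subst h0
        have h4 : x 0 = e n k := by simp [x]
        rw [h4]
        exact hUu hi hkU
      · have h4 : x i = xs i := by
          simp only [x, xs]
          rw [if_neg h0, if_neg (by omega), if_neg h0]
        rw [h4]
        exact (hu i hi).2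
    have h5 := hsub hxu
    have h6 : (bad e).indicator (1 : (ℕ → X) → ℝ) x < 1 / 2 := h5
    rw [indicator_of_mem hx] at h6
    norm_num at h6
  · -- restrictions to compact sets
    intro K hK
    -- finitely many `n`
    have hA : {n | ∃ k, ∃ x ∈ K, x 0 = e n k}.Finite := by
      by_contra hinf
      have hch : ∀ n, ∃ k, (∃ k, ∃ x ∈ K, x 0 = e n k) → ∃ x ∈ K, x 0 = e n k := by
        intro n
        by_cases h : ∃ k, ∃ x ∈ K, x 0 = e n k
        · obtain ⟨k, hk⟩ := h
          exact ⟨k, fun _ => hk⟩
        · exact ⟨0, fun h' => absurd h' h⟩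
      choose k hk using hch
      have hK0 : IsCompact ((fun x : ℕ → X => x 0) '' K) := hK.image (continuous_apply 0)
      let V : Option ℕ → Set X := fun m => match m with
        | none => {x : X | ∀ n, x ≠ e n (k n)}
        | some n => {e n (k n)}
      have hV : ∀ m, IsOpen (V m) := by
        rintro (_ | n)
        · exact h2 k
        · exact h1 _ _
      have hcov : (fun x : ℕ → X => x 0) '' K ⊆ ⋃ m, V m := by
        intro x _
        rw [mem_iUnion]
        by_cases h : ∃ n, x = e n (k n)
        · obtain ⟨n, hn⟩ := h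
          exact ⟨some n, hn⟩
        · push Not at h
          exact ⟨none, h⟩
      obtain ⟨t, ht⟩ := hK0.elim_finite_subcover V hV hcov
      apply hinf
      refine (t.finite_toSet.preimage (Option.some_injective ℕ).injOn).subset ?_
      intro n hn
      obtain ⟨x, hx, hxn⟩ := hk n hn
      have h4 := ht ⟨x, hx, hxn⟩
      rw [mem_iUnion₂] at h4
      obtain ⟨m, hm, hmV⟩ := h4
      rcases m with _ | m
      · exact absurd rfl (hmV n)
      · have h5 : e n (k n) = e m (k m) := hmV
        have h6 := (hinj _ _ _ _ h5).1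
        subst h6
        exact hm
    -- for every `n` finitely many `k`
    have hB : ∀ n, {k | ∃ x ∈ K, ret e (x (n + 1)) = k}.Finite := by
      intro n
      have h4 : IsCompact ((fun x : ℕ → X => ret e (x (n + 1))) '' K) :=
        hK.image (hretc.comp (continuous_apply (n + 1)))
      exact h4.finite_of_discrete
    have hS : {p : ℕ × ℕ | (piece e p.1 p.2 ∩ K).Nonempty}.Finite := by
      refine ((hA.biUnion fun n _ => (hB n).image fun k => (n, k))).subset ?_
      rintro ⟨n, k⟩ ⟨x, hx, hxK⟩
      rw [mem_iUnion₂]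
      exact ⟨n, ⟨k, x, hxK, hx.1⟩, k, ⟨x, hxK, hx.2.2⟩, rfl⟩
    have hS' : {p : ℕ × ℕ | 1 ≤ p.2 ∧ (piece e p.1 p.2 ∩ K).Nonempty}.Finite :=
      hS.subset fun p hp => hp.2
    have hF : IsClopen (⋃ p ∈ {p : ℕ × ℕ | 1 ≤ p.2 ∧ (piece e p.1 p.2 ∩ K).Nonempty},
        piece e p.1 p.2) := hS'.isClopen_biUnion fun p _ => hpiece _ _
    have hcont : Continuous ((⋃ p ∈ {p : ℕ × ℕ | 1 ≤ p.2 ∧ (piece e p.1 p.2 ∩ K).Nonempty},
        piece e p.1 p.2).indicator (1 : (ℕ → X) → ℝ)) := by
      apply Continuous.indicator
      · intro a ha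
        rw [hF.frontier_eq] at ha
        exact absurd ha (notMem_empty a)
      · exact continuous_const
    refine hcont.continuousOn.congr ?_
    intro x hx
    by_cases hxb : x ∈ bad e
    · rw [indicator_of_mem hxb, indicator_of_mem]
      obtain ⟨n, k, hk, h4, h5, h6⟩ := hxb
      rw [mem_iUnion₂]
      have h7 : x ∈ piece e n k := ⟨h4, fun i hi => h5 i (Finset.mem_Icc.1 hi).1
        (Finset.mem_Icc.1 hi).2, h6⟩
      exact ⟨(n, k), ⟨hk, x, h7, hx⟩, h7⟩
    · rw [indicator_of_notMem hxb, indicator_of_notMem]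
      intro h
      rw [mem_iUnion₂] at h
      obtain ⟨⟨n, k⟩, ⟨hk, -⟩, h4, h5, h6⟩ := h
      exact hxb ⟨n, k, hk, h4, fun i hi hin => h5 i (Finset.mem_Icc.2 ⟨hi, hin⟩), h6⟩

end Pool.Agent.R820.FanPower
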