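import Pool.Agent.R820.Filling

/-!
# A paracompact subspace filling countable subproducts of a T1 product is the whole product
-/

namespace Pool.Agent.R820.Filling

open Set Topology Filter

universe u v

variable {I : Type u} {X : I → Type v} [∀ i, TopologicalSpace (X i)]

theorem eq_univ_of_paracompact [Nonempty I] [∀ i, T1Space (X i)] {D : Set (∀ i, X i)}
    (hD : FillsCountable D) (hpar : ParacompactSpace D) : D = univ := by
  classical
  rw [eq_univ_iff_forall]
  intro p
  by_contra hp
  have hN : {i | ¬ CompactSpace (X i)}.Countable := countable_noncompact hD hpar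
  set N : Set I := {i | ¬ CompactSpace (X i)} with hNdef
  -- the slice
  let Dy : Set D := {d | ∀ i ∈ N, d.1 i = p i}
  have hDy : IsClosed Dy := by
    have : Dy = ⋂ i ∈ N, (fun d : D => d.1 i) ⁻¹' {p i} := by
      ext d
      simp [Dy]
    rw [this]
    exact isClosed_biInter fun i _ =>
      isClosed_singleton.preimage ((continuous_apply i).comp continuous_subtype_val)
  let U : I → Set D := fun i => {d | d.1 i ≠ p i}
  have hU : ∀ i, IsOpen (U i) := fun i =>
    (isClosed_singleton (x := p i)).isOpen_compl.preimage
      ((continuous_apply i).comp continuous_subtype_val)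
  have hUc : Dy ⊆ ⋃ i, U i := by
    intro d _
    by_contra hno
    apply hp
    have : d.1 = p := by
      funext i
      by_contra hi
      exact hno (mem_iUnion.2 ⟨i, hi⟩)
    rw [← this]
    exact d.2
  obtain ⟨V, hVo, hVc, hVlf, hVU⟩ := precise_refinement_set hDy U hU hUc
  have hfin : {i | (V i ∩ Dy).Nonempty}.Finite := by
    by_contra hinf
    obtain ⟨a, ha⟩ : ∃ a : ℕ → I, Function.Injective a ∧ ∀ n, (V (a n) ∩ Dy).Nonempty := by
      refine ⟨fun n => (Set.Infinite.natEmbedding _ hinf n : {i | (V i ∩ Dy).Nonempty}), ?_, ?_⟩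
      · intro m n h
        exact (Set.Infinite.natEmbedding _ hinf).injective (Subtype.ext h)
      · intro n
        exact (Set.Infinite.natEmbedding _ hinf n).2
    choose x hxV hxD using ha.2
    have hbox : ∀ n, ∃ (S : Finset I) (u : ∀ i, Set (X i)), (∀ i ∈ S, (x n).1 i ∈ u i) ∧
        ∀ e : D, (∀ i ∈ S, e.1 i ∈ u i) → e ∈ V (a n) := by
      intro n
      obtain ⟨O, hO, hOV⟩ := isOpen_induced_iff.1 (hVo (a n))
      have hxO : (x n).1 ∈ O := by
        have : x n ∈ Subtype.val ⁻¹' O := by rw [hOV]; exact hxV n
        exact this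
      obtain ⟨S, u, hu, hSu⟩ := isOpen_pi_iff.1 hO _ hxO
      refine ⟨S, u, fun i hi => (hu i hi).2, ?_⟩
      intro e he
      rw [← hOV]
      exact hSu fun i hi => he i hi
    choose S u hxu hSV using hbox
    let J : Set I := N ∪ ⋃ n, (S n : Set I)
    have hJ : J.Countable := hN.union (countable_iUnion fun n => (S n).countable_toSet)
    let s : ∀ i, Set (X i) := fun i => if i ∈ N then {p i} else univ
    have hs : IsCompact (univ.pi s) := by
      apply isCompact_univ_pi
      intro i
      by_cases hi : i ∈ N
      · simp only [s, if_pos hi]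
        exact isCompact_singleton
      · simp only [s, if_neg hi]
        have : CompactSpace (X i) := by
          by_contra h
          exact hi h
        exact isCompact_univ
    have hxs : ∀ n, (x n).1 ∈ univ.pi s := by
      intro n i _
      by_cases hi : i ∈ N
      · simp only [s, if_pos hi]
        exact hxD n i hi
      · simp only [s, if_neg hi]
        trivial
    obtain ⟨q, -, hq⟩ := hs.exists_mapClusterPt (f := atTop) (u := fun n => (x n).1)
      (tendsto_principal.2 (Eventually.of_forall hxs))
    obtain ⟨d, hdD, hd⟩ := hD.exists hJ q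
    obtain ⟨t, ht, htfin⟩ := hVlf ⟨d, hdD⟩
    obtain ⟨O, hO, hOt⟩ := mem_nhds_subtype D ⟨d, hdD⟩ t |>.1 ht
    obtain ⟨O', hO'O, hO', hdO'⟩ := mem_nhds_iff.1 hO
    obtain ⟨S', u', hu', hS'⟩ := isOpen_pi_iff.1 hO' _ hdO'
    have hnq : {z : ∀ i, X i | ∀ i ∈ S', i ∈ J → z i ∈ u' i} ∈ 𝓝 q := by
      have : {z : ∀ i, X i | ∀ i ∈ S', i ∈ J → z i ∈ u' i} =
          ⋂ i ∈ S', ⋂ _ : i ∈ J, (fun z : ∀ i, X i => z i) ⁻¹' (u' i) := by
        ext z
        simp
      rw [this]
      refine (biInter_finset_mem S').2 fun i hi => ?_
      by_cases hiJ : i ∈ J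
      · have h1 : u' i ∈ 𝓝 (q i) := by
          refine (hu' i hi).1.mem_nhds ?_
          have := (hu' i hi).2
          rw [← hd i hiJ]
          exact this
        have h2 := (continuous_apply i).continuousAt.preimage_mem_nhds (x := q) h1
        exact mem_of_superset h2 (subset_iInter fun _ => Subset.rfl)
      · have : (⋂ _ : i ∈ J, (fun z : ∀ i, X i => z i) ⁻¹' (u' i)) = univ := by
          simp [hiJ]
        rw [this]
        exact univ_mem
    have hfreq : ∃ᶠ n in atTop, (x n).1 ∈ {z : ∀ i, X i | ∀ i ∈ S', i ∈ J → z i ∈ u' i} :=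
      hq.frequently hnq
    have hsub : ∀ n, (x n).1 ∈ {z : ∀ i, X i | ∀ i ∈ S', i ∈ J → z i ∈ u' i} →
        n ∈ a ⁻¹' {i | (V i ∩ t).Nonempty} := by
      intro n hn
      obtain ⟨e, heD, hew⟩ := hD.fin (S' ∪ S n) fun i => if i ∈ J then (x n).1 i else d i
      refine ⟨⟨e, heD⟩, ?_, ?_⟩
      · apply hSV n
        intro i hi
        have hiJ : i ∈ J := Or.inr (mem_iUnion.2 ⟨n, hi⟩)
        change e i ∈ u n i
        rw [hew i (Finset.mem_union_right _ hi), if_pos hiJ]
        exact hxu n i hi
      · apply hOt
        apply hO'O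
        apply hS'
        intro i hi
        change e i ∈ u' i
        rw [hew i (Finset.mem_union_left _ hi)]
        by_cases hiJ : i ∈ J
        · rw [if_pos hiJ]
          exact hn i hi hiJ
        · rw [if_neg hiJ]
          exact (hu' i hi).2
    have hfin2 : (a ⁻¹' {i | (V i ∩ t).Nonempty}).Finite := htfin.preimage ha.1.injOn
    rw [frequently_atTop] at hfreq
    obtain ⟨M, hM⟩ := hfin2.bddAbove
    obtain ⟨n, hn, hnx⟩ := hfreq (M + 1)
    have := hM (hsub n hnx)
    omega
  obtain ⟨d, hdD, hd⟩ := hD.exists (hN.union hfin.toFinset.countable_toSet) p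
  have hdy : (⟨d, hdD⟩ : D) ∈ Dy := fun i hi => hd i (Or.inl hi)
  obtain ⟨i, hi⟩ := mem_iUnion.1 (hVc hdy)
  have h1 : d i ≠ p i := hVU i hi
  exact h1 (hd i (Or.inr (by
    rw [Finset.mem_coe, Finite.mem_toFinset]
    exact ⟨_, hi, hdy⟩)))

/-- If a paracompact Hausdorff `D` fills countable subproducts of a T1 product then all factors
are paracompact Hausdorff. -/
theorem factors_paracompact (hT1 : T1Space (∀ i, X i)) {D : Set (∀ i, X i)}
    (hD : FillsCountable D) (hT2 : T2Space D) (hpar : ParacompactSpace D) (i : I) :
    T2Space (X i) ∧ ParacompactSpace (X i) := by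
  classical
  by_cases hne : Nonempty (X i)
  · have : Nonempty I := ⟨i⟩
    -- all factors are nonempty
    have hDne : D.Nonempty := by
      have h1 := hD {i} (singleton_nonempty _) (countable_singleton _)
      have h2 : (univ : Set (∀ j : ({i} : Set I), X j)).Nonempty := by
        obtain ⟨x⟩ := hne
        refine ⟨fun j => ?_, trivial⟩
        have hj : (j : I) = i := j.2
        rw [hj]
        exact x
      rw [← h1] at h2
      exact h2.of_image
    obtain ⟨c, _⟩ := hDne
    have hcont : ∀ j, Continuous (fun x : X j => Function.update c j x) := fun j =>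
      continuous_const.update j continuous_id
    have hinj : ∀ j, Function.Injective (fun x : X j => Function.update c j x) := by
      intro j x y h
      have := congrFun h j
      simpa using this
    have hXT1 : ∀ j, T1Space (X j) := fun j => t1Space_of_injective_of_continuous (hinj j) (hcont j)
    have hu : D = univ := eq_univ_of_paracompact hD hpar
    subst hu
    have hemb : IsClosedEmbedding (fun x : X i =>
        (⟨Function.update c i x, mem_univ _⟩ : (univ : Set (∀ i, X i)))) := by
      have hc1 : Continuous (fun x : X i =>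
          (⟨Function.update c i x, mem_univ _⟩ : (univ : Set (∀ i, X i)))) :=
        (hcont i).subtype_mk _
      have hleft : Function.LeftInverse (fun d : (univ : Set (∀ i, X i)) => d.1 i)
          (fun x : X i => (⟨Function.update c i x, mem_univ _⟩ : (univ : Set (∀ i, X i)))) := by
        intro x
        simp
      have hc2 : Continuous (fun d : (univ : Set (∀ i, X i)) => d.1 i) :=
        (continuous_apply i).comp continuous_subtype_val
      refine ⟨hleft.isEmbedding hc2 hc1, ?_⟩
      have hrange : range (fun x : X i =>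
          (⟨Function.update c i x, mem_univ _⟩ : (univ : Set (∀ i, X i)))) =
          {d | ∀ j, j ≠ i → d.1 j = c j} := by
        ext d
        constructor
        · rintro ⟨x, rfl⟩ j hj
          exact Function.update_of_ne hj _ _
        · intro hd
          refine ⟨d.1 i, Subtype.ext ?_⟩
          funext j
          by_cases hj : j = i
          · subst hj
            simp
          · change Function.update c i (d.1 i) j = d.1 j
            rw [Function.update_of_ne hj, hd j hj]
      rw [hrange]
      have : {d : (univ : Set (∀ i, X i)) | ∀ j, j ≠ i → d.1 j = c j} =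
          ⋂ j, ⋂ _ : j ≠ i, (fun d : (univ : Set (∀ i, X i)) => d.1 j) ⁻¹' {c j} := by
        ext d
        simp
      rw [this]
      exact isClosed_iInter fun j => isClosed_iInter fun _ =>
        isClosed_singleton.preimage ((continuous_apply j).comp continuous_subtype_val)
    exact ⟨hemb.isEmbedding.t2Space, hemb.paracompactSpace⟩
  · rw [not_nonempty_iff] at hne
    exact ⟨inferInstance, inferInstance⟩

end Pool.Agent.R820.Filling
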