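import Mathlib

/-!
# Subspaces of products filling countable subproducts, with locally finite refinements
-/

namespace Pool.Agent.R820.Filling

open Set Topology

universe u v

/-- Closing off a countable set under a map from finite sets to countable sets. -/
theorem exists_closed {T : Type*} (g : Finset T → Set T) (hg : ∀ s, (g s).Countable)
    (M0 : Set T) (h0 : M0.Countable) :
    ∃ M : Set T, M0 ⊆ M ∧ M.Countable ∧ ∀ s : Finset T, (s : Set T) ⊆ M → g s ⊆ M := by
  let step : Set T → Set T := fun M => M ∪ ⋃ s ∈ {s : Finset T | (s : Set T) ⊆ M}, g s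
  have hstep : ∀ A : Set T, A.Countable → (step A).Countable := by
    intro A hA
    have h1 : {s : Finset T | (s : Set T) ⊆ A}.Countable := by
      refine ((countable_ofPred_finite_subset hA).preimage_of_injOn
        (f := fun s : Finset T => (s : Set T)) Finset.coe_injective.injOn).mono ?_
      intro s hs
      exact ⟨s.finite_toSet, hs⟩
    exact hA.union (h1.biUnion fun s _ => hg s)
  let M : ℕ → Set T := fun n => step^[n] M0
  have hsucc : ∀ n, M (n + 1) = step (M n) := fun n => Function.iterate_succ_apply' step n M0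
  have hM : ∀ n, (M n).Countable := by
    intro n
    induction n with
    | zero => exact h0
    | succ n ih =>
      rw [hsucc]
      exact hstep _ ih
  have hmono : Monotone M := by
    apply monotone_nat_of_le_succ
    intro n
    rw [hsucc]
    exact subset_union_left
  refine ⟨⋃ n, M n, subset_iUnion M 0, countable_iUnion hM, ?_⟩
  intro s hs
  obtain ⟨n, hn⟩ : ∃ n, (s : Set T) ⊆ M n :=
    Directed.exists_mem_subset_of_finset_subset_biUnion hmono.directed_le hs
  refine Subset.trans ?_ (subset_iUnion M (n + 1))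
  rw [hsucc]
  refine Subset.trans ?_ subset_union_right
  exact subset_biUnion_of_mem (u := fun s => g s)
    (show s ∈ {s : Finset T | (s : Set T) ⊆ M n} from hn)

variable {I : Type u} {X : I → Type v}

/-- `D` fills countable subproducts: for every countable nonempty `J` the projection of `D` to the
subproduct over `J` is onto. -/
def FillsCountable (D : Set (∀ i, X i)) : Prop :=
  ∀ J : Set I, J.Nonempty → J.Countable → J.domRestrict '' D = univ

/-- `D` fills finite subproducts. -/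
def FillsFinite (D : Set (∀ i, X i)) : Prop :=
  ∀ J : Set I, J.Nonempty → J.Finite → J.domRestrict '' D = univ

lemma FillsCountable.exists [Nonempty I] {D : Set (∀ i, X i)} (h : FillsCountable D) {J : Set I}
    (hJ : J.Countable) (x : ∀ i, X i) : ∃ d ∈ D, ∀ i ∈ J, d i = x i := by
  obtain ⟨i0⟩ := ‹Nonempty I›
  have h1 := h (insert i0 J) (insert_nonempty _ _) (hJ.insert i0)
  obtain ⟨d, hd, hdx⟩ : (insert i0 J).domRestrict x ∈ (insert i0 J).domRestrict '' D := by
    rw [h1]
    trivial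
  exact ⟨d, hd, fun i hi => congrFun hdx ⟨i, mem_insert_of_mem _ hi⟩⟩

variable [∀ i, TopologicalSpace (X i)]

/-- The main lemma: a countable set closed under suitable maps catches the members of a locally
finite family which contain an approximable point. -/
theorem near {D : Set (∀ i, X i)}
    (hfill : ∀ (F : Finset I) (x : ∀ i, X i), ∃ d ∈ D, ∀ i ∈ F, d i = x i)
    {β : Type*} {V : β → Set D} (hV : ∀ b, IsOpen (V b)) (hlf : LocallyFinite V)
    (hne : D.Nonempty) :
    ∃ (S : Finset (Σ i, X i) → Finset I) (N : Finset (Σ i, X i) → Set β),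
      (∀ s, (N s).Finite) ∧
      ∀ M : Set (Σ i, X i),
        (∀ s : Finset (Σ i, X i), (s : Set (Σ i, X i)) ⊆ M → ∀ i ∈ S s,
          ∃ x, (⟨i, x⟩ : Σ i, X i) ∈ M) →
        ∀ (d : D) (b : β), d ∈ V b →
          (∀ i, (∃ x, (⟨i, x⟩ : Σ i, X i) ∈ M) → ∀ u : Set (X i), IsOpen u → d.1 i ∈ u →
            ∃ z ∈ u, (⟨i, z⟩ : Σ i, X i) ∈ M) →
          ∃ s : Finset (Σ i, X i), (s : Set (Σ i, X i)) ⊆ M ∧ b ∈ N s := by
  classical
  -- the points
  have h1 : ∀ s : Finset (Σ i, X i), ∃ d' : D,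
      (∃ d ∈ D, ∀ p ∈ s, d p.1 = p.2) → ∀ p ∈ s, d'.1 p.1 = p.2 := by
    intro s
    by_cases h : ∃ d ∈ D, ∀ p ∈ s, d p.1 = p.2
    · obtain ⟨d, hd, hds⟩ := h
      exact ⟨⟨d, hd⟩, fun _ => hds⟩
    · obtain ⟨d, hd⟩ := hne
      exact ⟨⟨d, hd⟩, fun h' => absurd h' h⟩
  choose d' hd' using h1
  -- the boxes
  have h2 : ∀ s : Finset (Σ i, X i), ∃ (t : Set D) (S : Finset I) (u : ∀ i, Set (X i)),
      {b | (V b ∩ t).Nonempty}.Finite ∧ (∀ i ∈ S, (d' s).1 i ∈ u i) ∧
      ∀ e : D, (∀ i ∈ S, e.1 i ∈ u i) → e ∈ t := by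
    intro s
    obtain ⟨t, ht, hfin⟩ := hlf (d' s)
    obtain ⟨O, hO, hOt⟩ := mem_nhds_subtype D (d' s) t |>.1 ht
    obtain ⟨O', hO'O, hO', hdO'⟩ := mem_nhds_iff.1 hO
    obtain ⟨S, u, hu, hSu⟩ := isOpen_pi_iff.1 hO' _ hdO'
    refine ⟨t, S, u, hfin, fun i hi => (hu i hi).2, ?_⟩
    intro e he
    exact hOt (hO'O (hSu fun i hi => he i hi))
  choose t S u hfin hdu htu using h2
  refine ⟨S, fun s => {b | (V b ∩ t s).Nonempty}, hfin, ?_⟩
  intro M hM d b hdb happ
  obtain ⟨O, hO, hOV⟩ := isOpen_induced_iff.1 (hV b)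
  have hdO : d.1 ∈ O := by
    have : d ∈ Subtype.val ⁻¹' O := by rw [hOV]; exact hdb
    exact this
  obtain ⟨S', u', hu', hS'⟩ := isOpen_pi_iff.1 hO _ hdO
  let J : Set I := {i | ∃ x, (⟨i, x⟩ : Σ i, X i) ∈ M}
  have h3 : ∀ i, ∃ z : X i, (i ∈ S' → i ∈ J → z ∈ u' i ∧ (⟨i, z⟩ : Σ i, X i) ∈ M) := by
    intro i
    by_cases hi : i ∈ S'
    · by_cases hJ : i ∈ J
      · obtain ⟨z, hz, hzM⟩ := happ i hJ (u' i) (hu' i hi).1 (hu' i hi).2
        exact ⟨z, fun _ _ => ⟨hz, hzM⟩⟩
      · exact ⟨d.1 i, fun _ h => absurd h hJ⟩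
    · exact ⟨d.1 i, fun h => absurd h hi⟩
  choose z hz using h3
  let F : Finset I := S'.filter (fun i => i ∈ J)
  let s : Finset (Σ i, X i) := F.image fun i => ⟨i, z i⟩
  have hFmem : ∀ i, i ∈ F ↔ i ∈ S' ∧ i ∈ J := fun i => Finset.mem_filter
  have hsM : (s : Set (Σ i, X i)) ⊆ M := by
    intro p hp
    obtain ⟨i, hi, rfl⟩ := Finset.mem_image.1 (Finset.mem_coe.1 hp)
    obtain ⟨hi1, hi2⟩ := (hFmem i).1 hi
    exact (hz i hi1 hi2).2
  have hd's : ∀ i ∈ F, (d' s).1 i = z i := by
    intro i hi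
    refine hd' s ?_ ⟨i, z i⟩ (Finset.mem_image_of_mem _ hi)
    obtain ⟨e, he, hez⟩ := hfill F z
    refine ⟨e, he, ?_⟩
    intro p hp
    obtain ⟨j, hj, rfl⟩ := Finset.mem_image.1 hp
    exact hez j hj
  refine ⟨s, hsM, ?_⟩
  -- a common point of the two boxes
  let w : ∀ i, X i := fun i => if i ∈ S s ∨ i ∈ F then (d' s).1 i else d.1 i
  obtain ⟨e, heD, hew⟩ := hfill (S s ∪ S') w
  have he1 : ∀ i ∈ S s, e i ∈ u s i := by
    intro i hi
    have hw : w i = (d' s).1 i := if_pos (Or.inl hi)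
    rw [hew i (Finset.mem_union_left _ hi), hw]
    exact hdu s i hi
  have he2 : ∀ i ∈ S', e i ∈ u' i := by
    intro i hi
    rw [hew i (Finset.mem_union_right _ hi)]
    by_cases hJ : i ∈ J
    · have hiF : i ∈ F := (hFmem i).2 ⟨hi, hJ⟩
      have hw : w i = (d' s).1 i := if_pos (Or.inr hiF)
      rw [hw, hd's i hiF]
      exact (hz i hi hJ).1
    · have hw : w i = d.1 i := by
        refine if_neg ?_
        rintro (h | h)
        · exact hJ (hM s hsM i h)
        · exact hJ ((hFmem i).1 h).2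
      rw [hw]
      exact (hu' i hi).2
  refine ⟨⟨e, heD⟩, ?_, htu s ⟨e, heD⟩ he1⟩
  rw [← hOV]
  exact hS' fun i hi => he2 i hi

/-- A space is not countably compact. -/
def NotCC (Y : Type*) [TopologicalSpace Y] : Prop :=
  ∃ U : ℕ → Set Y, (∀ n, IsOpen (U n)) ∧ Monotone U ∧ (⋃ n, U n) = univ ∧ ∀ n, U n ≠ univ

lemma exists_cluster {Y : Type*} [TopologicalSpace Y] (h : ¬ NotCC Y) (z : ℕ → Y) :
    ∃ y, ∀ W, IsOpen W → y ∈ W → ∀ n, ∃ m, n ≤ m ∧ z m ∈ W := by
  by_contra hne
  apply h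
  refine ⟨fun n => (closure (z '' Ici n))ᶜ, fun n => isClosed_closure.isOpen_compl, ?_, ?_, ?_⟩
  · intro m n hmn
    apply compl_subset_compl.2
    exact closure_mono (image_mono (Ici_subset_Ici.2 hmn))
  · rw [eq_univ_iff_forall]
    intro y
    push Not at hne
    obtain ⟨W, hW, hyW, n, hn⟩ := hne y
    refine mem_iUnion.2 ⟨n, ?_⟩
    intro hcl
    obtain ⟨_, hw, m, hm, rfl⟩ := mem_closure_iff.1 hcl W hW hyW
    exact hn m hm hw
  · intro n hn
    have : z n ∈ (closure (z '' Ici n))ᶜ := by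
      change z n ∈ (fun n => (closure (z '' Ici n))ᶜ) n
      rw [hn]
      trivial
    exact this (subset_closure ⟨n, mem_Ici.2 le_rfl, rfl⟩)

omit [∀ i, TopologicalSpace (X i)] in
lemma FillsCountable.fin [Nonempty I] {D : Set (∀ i, X i)} (h : FillsCountable D) (F : Finset I)
    (x : ∀ i, X i) : ∃ d ∈ D, ∀ i ∈ F, d i = x i := h.exists F.countable_toSet x

/-- In a paracompact (not necessarily Hausdorff) `D`, all but countably many factors are countably
compact. -/
theorem countable_notCC [Nonempty I] {D : Set (∀ i, X i)} (hD : FillsCountable D)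
    (hpar : ParacompactSpace D) (c : ∀ i, X i) : {i | NotCC (X i)}.Countable := by
  classical
  by_contra hunc
  -- the covers of the factors
  have h1 : ∀ i, ∃ (U : ℕ → Set (X i)) (a : ℕ → X i), (∀ n, IsOpen (U n)) ∧ Monotone U ∧
      (⋃ n, U n) = univ ∧ (NotCC (X i) → ∀ n, a n ∉ U n) := by
    intro i
    by_cases h : NotCC (X i)
    · obtain ⟨U, h1, h2, h3, h4⟩ := h
      have h5 : ∀ n, ∃ a, a ∉ U n := fun n => by
        by_contra h6
        push Not at h6
        exact h4 n (eq_univ_of_forall h6)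
      choose a ha using h5
      exact ⟨U, a, h1, h2, h3, fun _ => ha⟩
    · exact ⟨fun _ => univ, fun _ => c i, fun _ => isOpen_univ, fun _ _ _ => Subset.rfl,
        iUnion_const _, fun h' => absurd h' h⟩
  choose U a hUo hUm hUc ha using h1
  -- the open cover of `D`
  let α : Type _ := {A : Finset I // A.Nonempty ∧ ∀ i ∈ A, NotCC (X i)}
  let O : α → Set D := fun A => {x | ∀ i ∈ A.1, x.1 i ∈ U i A.1.card}
  have hO : ∀ A, IsOpen (O A) := by
    intro A
    have : O A = ⋂ i ∈ A.1, (fun x : D => x.1 i) ⁻¹' (U i A.1.card) := by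
      ext x
      simp [O]
    rw [this]
    exact isOpen_biInter_finset fun i _ =>
      (hUo i _).preimage ((continuous_apply i).comp continuous_subtype_val)
  have hOc : (⋃ A, O A) = univ := by
    rw [eq_univ_iff_forall]
    intro x
    have h2 : ∀ i, ∃ n, x.1 i ∈ U i n := fun i => by
      have : x.1 i ∈ ⋃ n, U i n := by rw [hUc i]; trivial
      exact mem_iUnion.1 this
    choose n hn using h2
    obtain ⟨m, hm⟩ : ∃ m, ({i | NotCC (X i)} ∩ n ⁻¹' {m}).Infinite := by
      by_contra hfin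
      push Not at hfin
      apply hunc
      have : {i | NotCC (X i)} ⊆ ⋃ m, ({i | NotCC (X i)} ∩ n ⁻¹' {m}) := by
        intro i hi
        exact mem_iUnion.2 ⟨n i, hi, rfl⟩
      refine (countable_iUnion fun m => ?_).mono this
      exact (hfin m).countable
    obtain ⟨A, hA, hcard⟩ := hm.exists_subset_card_eq (m + 1)
    have hAne : A.Nonempty := by
      rw [← Finset.card_pos, hcard]
      omega
    refine mem_iUnion.2 ⟨⟨A, hAne, fun i hi => (hA hi).1⟩, ?_⟩
    intro i hi
    have h3 : n i = m := (hA hi).2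
    change x.1 i ∈ U i A.card
    exact hUm i (show n i ≤ A.card by rw [h3, hcard]; omega) (hn i)
  obtain ⟨V, hVo, hVc, hVlf, hVO⟩ := precise_refinement O hO hOc
  have hne : D.Nonempty := by
    obtain ⟨d, hd, _⟩ := hD.fin ∅ c
    exact ⟨d, hd⟩
  obtain ⟨S, N, hN, hnear⟩ := near hD.fin hVo hVlf hne
  -- closing off
  let g : Finset (Σ i, X i) → Set (Σ i, X i) := fun s =>
    ((fun i => (⟨i, c i⟩ : Σ i, X i)) '' (S s : Set I)) ∪
    ((⋃ A ∈ N s, (fun i => (⟨i, c i⟩ : Σ i, X i)) '' (A.1 : Set I)) ∪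
    (⋃ p ∈ s, range fun n => (⟨p.1, a p.1 n⟩ : Σ i, X i)))
  have hg : ∀ s, (g s).Countable := by
    intro s
    refine ((S s).countable_toSet.image _).union (Countable.union ?_ ?_)
    · exact (hN s).countable.biUnion fun A _ => A.1.countable_toSet.image _
    · exact s.countable_toSet.biUnion fun p _ => countable_range _
  obtain ⟨i1⟩ := ‹Nonempty I›
  have : Nonempty I := ⟨i1⟩
  obtain ⟨M, -, hMc, hMcl⟩ := exists_closed g hg ∅ countable_empty
  let J : Set I := {i | ∃ x, (⟨i, x⟩ : Σ i, X i) ∈ M}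
  have hJ : J.Countable := by
    have : J ⊆ Sigma.fst '' M := by
      rintro i ⟨x, hx⟩
      exact ⟨_, hx, rfl⟩
    exact (hMc.image _).mono this
  have hJa : ∀ i ∈ J, ∀ n, (⟨i, a i n⟩ : Σ i, X i) ∈ M := by
    rintro i ⟨x, hx⟩ n
    refine hMcl {⟨i, x⟩} (by simpa using hx) (Or.inr (Or.inr ?_))
    exact mem_biUnion (x := (⟨i, x⟩ : Σ i, X i)) (by simp) ⟨n, rfl⟩
  obtain ⟨e, he⟩ := countable_iff_exists_injOn.1 hJ
  obtain ⟨d, hdD, hd⟩ := hD.exists hJ fun i => a i (e i + 1)
  obtain ⟨A, hA⟩ : ∃ A, (⟨d, hdD⟩ : D) ∈ V A := by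
    have : (⟨d, hdD⟩ : D) ∈ ⋃ A, V A := by rw [hVc]; trivial
    exact mem_iUnion.1 this
  obtain ⟨s, hsM, hs⟩ := hnear M (fun s hs i hi => ⟨c i, hMcl s hs (Or.inl ⟨i, hi, rfl⟩)⟩)
    ⟨d, hdD⟩ A hA (fun i hi u _ hdu => ⟨d i, hdu, by rw [hd i hi]; exact hJa i hi _⟩)
  have hAJ : ∀ i ∈ A.1, i ∈ J := by
    intro i hi
    refine ⟨c i, hMcl s hsM (Or.inr (Or.inl ?_))⟩
    exact mem_biUnion hs ⟨i, hi, rfl⟩
  have hlt : ∀ i ∈ A.1, e i + 1 < A.1.card := by
    intro i hi
    by_contra hle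
    push Not at hle
    have h4 : d i ∈ U i A.1.card := hVO A hA i hi
    have h5 := hUm i hle h4
    rw [hd i (hAJ i hi)] at h5
    exact ha i (A.2.2 i hi) _ h5
  have hcard : A.1.card ≤ (Finset.range (A.1.card - 1)).card := by
    apply Finset.card_le_card_of_injOn e
    · intro i hi
      have := hlt i hi
      rw [Finset.coe_range, mem_Iio]
      omega
    · exact he.mono fun i hi => hAJ i hi
  rw [Finset.card_range] at hcard
  have := A.2.1.card_pos
  omega

/-- A countably compact factor is compact. -/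
theorem compact_of_not_notCC [Nonempty I] {D : Set (∀ i, X i)} (hD : FillsCountable D)
    (hpar : ParacompactSpace D) (c : ∀ i, X i) (i0 : I) (h0 : ¬ NotCC (X i0)) :
    CompactSpace (X i0) := by
  classical
  by_contra hnc
  -- an open cover without finite subcovers
  obtain ⟨κ, U, hUo, hUc, hUf⟩ : ∃ (κ : Type v) (U : κ → Set (X i0)), (∀ k, IsOpen (U k)) ∧
      (⋃ k, U k) = univ ∧ ∀ t : Finset κ, ∃ x, ∀ k ∈ t, x ∉ U k := by
    by_contra hno
    push Not at hno
    apply hnc
    constructor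
    rw [isCompact_iff_finite_subcover]
    intro κ U hUo hUc
    obtain ⟨t, ht⟩ := hno κ U hUo (univ_subset_iff.1 hUc)
    refine ⟨t, fun x _ => ?_⟩
    obtain ⟨k, hk, hxk⟩ := ht x
    exact mem_biUnion hk hxk
  let O : κ → Set D := fun k => {x | x.1 i0 ∈ U k}
  have hO : ∀ k, IsOpen (O k) := fun k =>
    (hUo k).preimage ((continuous_apply i0).comp continuous_subtype_val)
  have hOc : (⋃ k, O k) = univ := by
    rw [eq_univ_iff_forall]
    intro x
    have : x.1 i0 ∈ ⋃ k, U k := by rw [hUc]; trivial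
    obtain ⟨k, hk⟩ := mem_iUnion.1 this
    exact mem_iUnion.2 ⟨k, hk⟩
  obtain ⟨V, hVo, hVc, hVlf, hVO⟩ := precise_refinement O hO hOc
  have hne : D.Nonempty := by
    obtain ⟨d, hd, _⟩ := hD.fin ∅ c
    exact ⟨d, hd⟩
  obtain ⟨S, N, hN, hnear⟩ := near hD.fin hVo hVlf hne
  -- points outside of finitely many members
  have hpt : ∀ s : Finset (Σ i, X i), ∃ x : X i0, ∀ s' ⊆ s, ∀ k ∈ N s', x ∉ U k := by
    intro s
    have hfin : (⋃ s' ∈ s.powerset, N s').Finite :=
      s.powerset.finite_toSet.biUnion fun s' _ => hN s'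
    obtain ⟨x, hx⟩ := hUf hfin.toFinset
    refine ⟨x, fun s' hs' k hk => hx k ?_⟩
    rw [Finite.mem_toFinset]
    exact mem_biUnion (Finset.mem_powerset.2 hs') hk
  choose pt hpt using hpt
  let g : Finset (Σ i, X i) → Set (Σ i, X i) := fun s =>
    ((fun i => (⟨i, c i⟩ : Σ i, X i)) '' (S s : Set I)) ∪
    ((⋃ p ∈ s, {(⟨p.1, c p.1⟩ : Σ i, X i)}) ∪ {⟨i0, pt s⟩})
  have hg : ∀ s, (g s).Countable := by
    intro s
    refine ((S s).countable_toSet.image _).union (Countable.union ?_ (countable_singleton _))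
    exact s.countable_toSet.biUnion fun p _ => countable_singleton _
  obtain ⟨M, hM0, hMc, hMcl⟩ := exists_closed g hg {⟨i0, c i0⟩} (countable_singleton _)
  let J : Set I := {i | ∃ x, (⟨i, x⟩ : Σ i, X i) ∈ M}
  have hJ : J.Countable := by
    have : J ⊆ Sigma.fst '' M := by
      rintro i ⟨x, hx⟩
      exact ⟨_, hx, rfl⟩
    exact (hMc.image _).mono this
  have hJc : ∀ i ∈ J, (⟨i, c i⟩ : Σ i, X i) ∈ M := by
    rintro i ⟨x, hx⟩
    refine hMcl {⟨i, x⟩} (by simpa using hx) (Or.inr (Or.inl ?_))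
    exact mem_biUnion (x := (⟨i, x⟩ : Σ i, X i)) (by simp) (by simp)
  -- enumerate the finite subsets of `M`
  have hFc : {s : Finset (Σ i, X i) | (s : Set (Σ i, X i)) ⊆ M}.Countable := by
    refine ((countable_ofPred_finite_subset hMc).preimage_of_injOn
      (f := fun s : Finset (Σ i, X i) => (s : Set (Σ i, X i))) Finset.coe_injective.injOn).mono ?_
    intro s hs
    exact ⟨s.finite_toSet, hs⟩
  obtain ⟨σ, hσ⟩ := hFc.exists_eq_range ⟨∅, by simp⟩
  have hσM : ∀ n, (σ n : Set (Σ i, X i)) ⊆ M := fun n => by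
    have : σ n ∈ {s : Finset (Σ i, X i) | (s : Set (Σ i, X i)) ⊆ M} := by
      rw [hσ]
      exact ⟨n, rfl⟩
    exact this
  let τ : ℕ → Finset (Σ i, X i) := fun n => (Finset.range (n + 1)).biUnion σ
  have hτM : ∀ n, (τ n : Set (Σ i, X i)) ⊆ M := by
    intro n p hp
    obtain ⟨m, _, hm⟩ := Finset.mem_biUnion.1 (Finset.mem_coe.1 hp)
    exact hσM m hm
  have hptM : ∀ n, (⟨i0, pt (τ n)⟩ : Σ i, X i) ∈ M := fun n =>
    hMcl (τ n) (hτM n) (Or.inr (Or.inr rfl))
  obtain ⟨y, hy⟩ := exists_cluster h0 fun n => pt (τ n)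
  obtain ⟨d, hdD, hd⟩ := hD.exists (hJ.insert i0) (Function.update c i0 y)
  have hdi0 : d i0 = y := by
    rw [hd i0 (mem_insert _ _), Function.update_self]
  obtain ⟨k, hk⟩ : ∃ k, (⟨d, hdD⟩ : D) ∈ V k := by
    have : (⟨d, hdD⟩ : D) ∈ ⋃ k, V k := by rw [hVc]; trivial
    exact mem_iUnion.1 this
  obtain ⟨s, hsM, hs⟩ := hnear M (fun s hs i hi => ⟨c i, hMcl s hs (Or.inl ⟨i, hi, rfl⟩)⟩)
    ⟨d, hdD⟩ k hk (by
      intro i hi u hu hdu
      by_cases hii : i = i0
      · subst hii
        change d i ∈ u at hdu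
        rw [hdi0] at hdu
        obtain ⟨m, _, hm⟩ := hy u hu hdu 0
        exact ⟨_, hm, hptM m⟩
      · refine ⟨d i, hdu, ?_⟩
        rw [hd i (mem_insert_of_mem _ hi), Function.update_of_ne hii]
        exact hJc i hi)
  obtain ⟨n, rfl⟩ : s ∈ range σ := by
    rw [← hσ]
    exact hsM
  have hyk : y ∈ U k := by
    have : d i0 ∈ U k := hVO k hk
    rwa [hdi0] at this
  obtain ⟨m, hm, hmk⟩ := hy (U k) (hUo k) hyk n
  exact hpt (τ m) (σ n) (Finset.subset_biUnion_of_mem σ (Finset.mem_range.2 (by omega))) k hs hmk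

/-- If a subspace `D` of a product fills countable subproducts and every open cover of `D` has a
locally finite open refinement, then all but countably many factors are compact. -/
theorem countable_noncompact {D : Set (∀ i, X i)} (hD : FillsCountable D)
    (hpar : ParacompactSpace D) : {i | ¬ CompactSpace (X i)}.Countable := by
  by_cases h : ∃ i, ¬ CompactSpace (X i)
  · obtain ⟨i0, hi0⟩ := h
    have : Nonempty I := ⟨i0⟩
    have hne0 : Nonempty (X i0) := by
      by_contra hemp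
      rw [not_nonempty_iff] at hemp
      exact hi0 inferInstance
    -- all factors are nonempty
    have hDne : D.Nonempty := by
      have h1 := hD {i0} (singleton_nonempty _) (countable_singleton _)
      have h2 : (univ : Set (∀ i : ({i0} : Set I), X i)).Nonempty := by
        obtain ⟨x⟩ := hne0
        refine ⟨fun i => ?_, trivial⟩
        have hi : (i : I) = i0 := i.2
        rw [hi]
        exact x
      rw [← h1] at h2
      exact h2.of_image
    obtain ⟨c, _⟩ := hDne
    refine (countable_notCC hD hpar c).mono ?_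
    intro i hi
    by_contra hcc
    exact hi (compact_of_not_notCC hD hpar c i hcc)
  · push Not at h
    have : {i | ¬ CompactSpace (X i)} = ∅ := by
      rw [eq_empty_iff_forall_notMem]
      intro i hi
      exact hi (h i)
    rw [this]
    exact countable_empty

end Pool.Agent.R820.Filling
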