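import Pool.Agent.R820.Plank
import Pool.Agent.R820.Filling

/-!
# Paracompact subspaces filling finite subproducts
-/

namespace Pool.Agent.R820.FillFin

open Set Topology Filter

/-- Codes of a point of `Y` and a finite list of codes. -/
inductive Code (Y : Type) : Type
  | leaf (x : Y) : Code Y
  | cons (a : Code Y) (c : Code Y) : Code Y

variable {Y : Type}

/-- the code of a point and a list of codes -/
def node (x : Y) : List (Code Y) → Code Y
  | [] => .leaf x
  | a :: l => .cons a (node x l)

/-- the point of a code -/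
def fstc : Code Y → Y
  | .leaf x => x
  | .cons _ c => fstc c

/-- the list of a code -/
def lst : Code Y → List (Code Y)
  | .leaf _ => []
  | .cons a c => a :: lst c

lemma fstc_node (x : Y) (l : List (Code Y)) : fstc (node x l) = x := by
  induction l with
  | nil => rfl
  | cons a l ih => exact ih

lemma lst_node (x : Y) (l : List (Code Y)) : lst (node x l) = l := by
  induction l with
  | nil => rfl
  | cons a l ih =>
    change a :: lst (node x l) = a :: l
    rw [ih]

lemma node_eq (c : Code Y) : node (fstc c) (lst c) = c := by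
  induction c with
  | leaf x => rfl
  | cons a c _ ih =>
    change Code.cons a (node (fstc c) (lst c)) = Code.cons a c
    rw [ih]

/-- the length of a code -/
def len (c : Code Y) : ℕ := (lst c).length

/-- the point of a code -/
def pt (c : Code Y) : Y × (ℕ → Code Y) := (fstc c, fun i => (lst c).getD i c)

instance : TopologicalSpace (Code Y) := ⊥

instance : DiscreteTopology (Code Y) := ⟨rfl⟩

/-- The subspace: the sequences which from some place on are constantly the code of the point and
of the preceding terms. -/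
def DF (Y : Type) : Set (Y × (ℕ → Code Y)) :=
  {z | ∃ n, ∀ m, n ≤ m → z.2 m = node z.1 ((List.range n).map z.2)}

lemma pt_snd_of_le {c : Code Y} {m : ℕ} (h : len c ≤ m) : (pt c).2 m = c := by
  change (lst c).getD m c = c
  rw [List.getD_eq_default _ _ h]

lemma pt_snd_len (c : Code Y) : (pt c).2 (len c) = c := pt_snd_of_le le_rfl

lemma pt_mem (c : Code Y) : pt c ∈ DF Y := by
  refine ⟨len c, fun m hm => ?_⟩
  rw [pt_snd_of_le hm]
  conv_lhs => rw [← node_eq c]
  change node (fstc c) (lst c) = node (fstc c) _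
  congr 1
  apply List.ext_getElem
  · simp [len]
  · intro i h1 h2
    simp only [List.getElem_map, List.getElem_range]
    change _ = (lst c).getD i c
    rw [List.getD_eq_getElem _ _ h1]

lemma exists_pt {z : Y × (ℕ → Code Y)} (hz : z ∈ DF Y) : ∃ c, pt c = z := by
  obtain ⟨n, hn⟩ := hz
  refine ⟨node z.1 ((List.range n).map z.2), ?_⟩
  refine Prod.ext_iff.2 ⟨fstc_node _ _, ?_⟩
  funext i
  change (lst (node z.1 ((List.range n).map z.2))).getD i _ = z.2 i
  rw [lst_node]
  by_cases hi : i < n
  · rw [List.getD_eq_getElem _ _ (by simpa using hi)]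
    simp
  · rw [List.getD_eq_default _ _ (by simpa using hi), ← hn i (not_lt.1 hi)]

theorem paracompact_DF [TopologicalSpace Y]
    (hbase : ∀ (x : Y), ∀ N ∈ 𝓝 x, ∃ U ⊆ N, x ∈ U ∧ IsClopen U) : ParacompactSpace (DF Y) := by
  classical
  refine ⟨fun α s hs hsc => ?_⟩
  -- the value at a given place
  let v : ℕ → DF Y → Code Y := fun n z => z.1.2 n
  have hv : ∀ n, Continuous (v n) := fun n =>
    (continuous_apply n).comp (continuous_snd.comp continuous_subtype_val)
  let p : Code Y → DF Y := fun c => ⟨pt c, pt_mem c⟩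
  have hpv : ∀ c, v (len c) (p c) = c := pt_snd_len
  have hV : ∀ c : Code Y, ∃ (V : Set (DF Y)) (a : α), IsClopen V ∧ p c ∈ V ∧ V ⊆ s a ∧
      ∀ z ∈ V, v (len c) z = c := by
    intro c
    have h1 : p c ∈ ⋃ a, s a := by rw [hsc]; trivial
    obtain ⟨a, ha⟩ := mem_iUnion.1 h1
    obtain ⟨N, hN, hNs⟩ := mem_nhds_subtype (DF Y) (p c) (s a) |>.1 ((hs a).mem_nhds ha)
    obtain ⟨N1, hN1, N2, hN2, hNN⟩ := mem_nhds_prod_iff.1 hN
    obtain ⟨U, hUN, hxU, hU⟩ := hbase _ N1 hN1
    obtain ⟨F, hF⟩ := SigmaSep.exists_cyl hN2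
    have hcl : ∀ n : ℕ, IsClopen {z : DF Y | v n z = v n (p c)} := fun n =>
      (isClopen_discrete {v n (p c)}).preimage (hv n)
    refine ⟨(Prod.fst ∘ Subtype.val) ⁻¹' U ∩ ((⋂ n ∈ F, {z : DF Y | v n z = v n (p c)}) ∩
      {z | v (len c) z = v (len c) (p c)}), a, ?_, ?_, ?_, ?_⟩
    · exact (hU.preimage (continuous_fst.comp continuous_subtype_val)).inter
        ((isClopen_biInter_finset fun n _ => hcl n).inter (hcl _))
    · exact ⟨hxU, mem_iInter₂.2 fun n _ => rfl, rfl⟩
    · rintro z ⟨h1, h2, _⟩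
      apply hNs
      apply hNN
      refine ⟨hUN h1, hF fun n hn => ?_⟩
      exact mem_iInter₂.1 h2 n hn
    · rintro z ⟨_, _, h3⟩
      rw [← hpv c]
      rw [hpv c]
      exact (show v (len c) z = v (len c) (p c) from h3).trans (hpv c)
  choose V a hVc hpV hVs hVv using hV
  let W : ℕ → Set (DF Y) := fun n => {z | len (v n z) = n ∧ z ∈ V (v n z)}
  have hW : ∀ n, IsClopen (W n) := by
    intro n
    have hloc : ∀ z : DF Y, {z' | v n z' = v n z} ∈ 𝓝 z := fun z =>
      ((isClopen_discrete {v n z}).preimage (hv n)).isOpen.mem_nhds rfl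
    constructor
    · rw [← isOpen_compl_iff, isOpen_iff_mem_nhds]
      intro z hz
      by_cases hl : len (v n z) = n
      · have hzV : z ∉ V (v n z) := fun h => hz ⟨hl, h⟩
        refine mem_of_superset (inter_mem (hloc z) ((hVc _).compl.isOpen.mem_nhds hzV)) ?_
        rintro z' ⟨h1, h2⟩ h3
        apply h2
        have := h3.2
        rwa [show v n z' = v n z from h1] at this
      · refine mem_of_superset (hloc z) ?_
        rintro z' h1 h3
        apply hl
        have := h3.1
        rwa [show v n z' = v n z from h1] at this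
    · rw [isOpen_iff_mem_nhds]
      intro z hz
      refine mem_of_superset (inter_mem (hloc z) ((hVc _).isOpen.mem_nhds hz.2)) ?_
      rintro z' ⟨h1, h2⟩
      refine ⟨?_, ?_⟩
      · rw [show v n z' = v n z from h1]
        exact hz.1
      · rw [show v n z' = v n z from h1]
        exact h2
  let T : Code Y → Set (DF Y) := fun c => V c ∩ ⋂ m ∈ Finset.range (len c), (W m)ᶜ
  have hT : ∀ c, IsClopen (T c) := fun c =>
    (hVc c).inter (isClopen_biInter_finset fun m _ => (hW m).compl)
  have hVW : ∀ c, ∀ z ∈ V c, z ∈ W (len c) := by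
    intro c z hz
    have h1 := hVv c z hz
    refine ⟨by rw [h1], by rw [h1]; exact hz⟩
  have hdisj : ∀ c c' z, z ∈ T c → z ∈ T c' → c = c' := by
    intro c c' z h1 h2
    rcases lt_trichotomy (len c) (len c') with h | h | h
    · exact absurd (hVW c z h1.1) (mem_iInter₂.1 h2.2 (len c) (Finset.mem_range.2 h))
    · have e1 := hVv c z h1.1
      have e2 := hVv c' z h2.1
      rw [← h] at e2
      rw [← e1, ← e2]
    · exact absurd (hVW c' z h2.1) (mem_iInter₂.1 h1.2 (len c') (Finset.mem_range.2 h))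
  have hcov : ∀ z : DF Y, ∃ c, z ∈ T c := by
    intro z
    obtain ⟨c0, hc0⟩ := exists_pt z.2
    have h1 : z ∈ W (len c0) := by
      apply hVW
      have : p c0 = z := Subtype.ext hc0
      rw [← this]
      exact hpV c0
    have hex : ∃ n, z ∈ W n := ⟨_, h1⟩
    have h2 := Nat.find_spec hex
    refine ⟨v (Nat.find hex) z, h2.2, mem_iInter₂.2 fun m hm => ?_⟩
    rw [h2.1, Finset.mem_range] at hm
    exact Nat.find_min hex hm
  refine ⟨Code Y, T, fun c => (hT c).isOpen, ?_, ?_, ?_⟩
  · rw [iUnion_eq_univ_iff]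
    exact hcov
  · intro z
    obtain ⟨c, hc⟩ := hcov z
    refine ⟨T c, (hT c).isOpen.mem_nhds hc, (finite_singleton c).subset ?_⟩
    rintro c' ⟨z', h1, h2⟩
    exact hdisj c' c z' h1 h2
  · intro c
    exact ⟨a c, inter_subset_left.trans (hVs c)⟩

/-! ### The plank is zero-dimensional -/

open Plank in
lemma plank_base {Λ C : Type} [Infinite Λ] (x : Pt Λ C) (N : Set (Pt Λ C)) (hN : N ∈ 𝓝 x) :
    ∃ U ⊆ N, x ∈ U ∧ IsClopen U := by
  classical
  rcases x with ⟨E, c⟩ | E | c
  · refine ⟨{Pt.q E c}, singleton_subset_iff.2 (mem_of_mem_nhds hN), rfl, isClosed_singleton, ?_⟩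
    rw [isOpen_iff_mem_nhds]
    intro x hx
    rw [mem_singleton_iff] at hx
    subst hx
    exact mem_nhds_q rfl
  · obtain ⟨W, hW⟩ := of_mem_nhds_t hN
    refine ⟨{x | x = Pt.t E ∨ ∃ c, c ∉ W ∧ x = Pt.q E c}, ?_, Or.inl rfl, ?_, ?_⟩
    · rintro x (rfl | ⟨c, hc, rfl⟩)
      · exact mem_of_mem_nhds hN
      · exact hW c hc
    · rw [← isOpen_compl_iff, Plank.isOpen_iff]
      constructor
      · intro E1 h
        refine ⟨∅, fun c _ => ?_⟩
        rintro (h' | ⟨c', _, h'⟩)
        · cases h'
        · simp only [Pt.q.injEq] at h'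
          apply h
          left
          rw [h'.1]
      · intro c1 _
        obtain ⟨i, hi⟩ := Infinite.exists_notMem_finset E
        refine ⟨{i}, fun E1 hE1 => ?_⟩
        rintro (h' | ⟨c', _, h'⟩)
        · cases h'
        · simp only [Pt.q.injEq] at h'
          apply hi
          rw [← h'.1]
          exact hE1 (Finset.mem_singleton_self i)
    · rw [isOpen_iff_mem_nhds]
      rintro x (rfl | ⟨c, hc, rfl⟩)
      · exact mem_nhds_t (Or.inl rfl) W fun c hc => Or.inr ⟨c, hc, rfl⟩
      · exact mem_nhds_q (Or.inr ⟨c, hc, rfl⟩)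
  · obtain ⟨E', hE'⟩ := of_mem_nhds_r hN
    refine ⟨{x | x = Pt.r c ∨ ∃ E, E' ⊆ E ∧ x = Pt.q E c}, ?_, Or.inl rfl, ?_, ?_⟩
    · rintro x (rfl | ⟨E, hE, rfl⟩)
      · exact mem_of_mem_nhds hN
      · exact hE' E hE
    · rw [← isOpen_compl_iff, Plank.isOpen_iff]
      constructor
      · intro E1 _
        refine ⟨{c}, fun c1 hc1 => ?_⟩
        rintro (h' | ⟨E, _, h'⟩)
        · cases h'
        · simp only [Pt.q.injEq] at h'
          apply hc1
          rw [h'.2]
          exact Finset.mem_singleton_self _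
      · intro c1 h
        refine ⟨∅, fun E1 _ => ?_⟩
        rintro (h' | ⟨E, _, h'⟩)
        · cases h'
        · simp only [Pt.q.injEq] at h'
          apply h
          left
          rw [h'.2]
    · rw [isOpen_iff_mem_nhds]
      rintro x (rfl | ⟨E, hE, rfl⟩)
      · exact mem_nhds_r (Or.inl rfl) E' fun E hE => Or.inr ⟨E, hE, rfl⟩
      · exact mem_nhds_q (Or.inr ⟨E, hE, rfl⟩)

lemma t2_of_base {Z : Type*} [TopologicalSpace Z] [T1Space Z]
    (h : ∀ (x : Z), ∀ N ∈ 𝓝 x, ∃ U ⊆ N, x ∈ U ∧ IsClopen U) : T2Space Z := by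
  refine ⟨fun x y hxy => ?_⟩
  obtain ⟨U, hU, hxU, hc⟩ := h x {y}ᶜ (isOpen_compl_singleton.mem_nhds hxy)
  exact ⟨U, Uᶜ, hc.isOpen, hc.compl.isOpen, hxU, fun h' => hU h' rfl, disjoint_compl_right⟩

/-! ### Products indexed by `Option Λ` -/

section transfer

variable (Y Λ C : Type)

/-- The factors. -/
def Fac : Option Λ → Type
  | none => Y
  | some _ => C

variable {Y Λ C}

instance [TopologicalSpace Y] [TopologicalSpace C] : ∀ o, TopologicalSpace (Fac Y Λ C o)
  | none => inferInstanceAs (TopologicalSpace Y)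
  | some _ => inferInstanceAs (TopologicalSpace C)

/-- A point of the product from its coordinates. -/
def mk (p : Y × (Λ → C)) : ∀ o, Fac Y Λ C o
  | none => p.1
  | some i => p.2 i

/-- The coordinates of a point of the product. -/
def unmk (x : ∀ o, Fac Y Λ C o) : Y × (Λ → C) := (x none, fun i => x (some i))

variable [TopologicalSpace Y] [TopologicalSpace C]

/-- The homeomorphism. -/
def homeo : (∀ o, Fac Y Λ C o) ≃ₜ Y × (Λ → C) where
  toFun := unmk
  invFun := mk
  left_inv x := by
    funext o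
    rcases o with _ | i <;> rfl
  right_inv _ := rfl
  continuous_toFun := by
    refine Continuous.prodMk ?_ ?_
    · exact continuous_apply (none : Option Λ)
    · exact continuous_pi fun i => continuous_apply (some i : Option Λ)
  continuous_invFun := by
    refine continuous_pi fun o => ?_
    rcases o with _ | i
    · exact continuous_fst
    · exact (continuous_apply i).comp continuous_snd

/-- The subset of the product over `Option Λ`. -/
def up (D : Set (Y × (Λ → C))) : Set (∀ o, Fac Y Λ C o) := homeo ⁻¹' D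

/-- The homeomorphism of the subspaces. -/
def homeoUp (D : Set (Y × (Λ → C))) : up D ≃ₜ D where
  toFun x := ⟨homeo x.1, x.2⟩
  invFun z := ⟨mk z.1, z.2⟩
  left_inv x := Subtype.ext (homeo.left_inv x.1)
  right_inv _ := rfl
  continuous_toFun := (homeo.continuous.comp continuous_subtype_val).subtype_mk _
  continuous_invFun := (homeo.symm.continuous.comp continuous_subtype_val).subtype_mk _

omit [TopologicalSpace Y] [TopologicalSpace C] in
lemma exists_extend [Nonempty Y] [Nonempty C] (J : Set (Option Λ))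
    (f : ∀ o : J, Fac Y Λ C o) : ∃ x : ∀ o, Fac Y Λ C o, J.domRestrict x = f := by
  classical
  have hne : ∀ o : Option Λ, Nonempty (Fac Y Λ C o) := by
    intro o
    rcases o with _ | i
    · exact inferInstanceAs (Nonempty Y)
    · exact inferInstanceAs (Nonempty C)
  refine ⟨fun o => if h : o ∈ J then f ⟨o, h⟩ else Classical.choice (hne o), ?_⟩
  funext o
  simp [Set.domRestrict, o.2]

lemma fills_countable [Nonempty Y] [Nonempty C] {D : Set (Y × (Λ → C))}
    (h : ∀ J : Set Λ, J.Countable → ∀ (x : Y) (k : Λ → C), ∃ k' : Λ → C, (x, k') ∈ D ∧ ∀ i ∈ J, k' i = k i) :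
    Filling.FillsCountable (up D) := by
  intro J _ hJ
  rw [eq_univ_iff_forall]
  intro f
  obtain ⟨x, rfl⟩ := exists_extend J f
  obtain ⟨k', hk', hkk'⟩ := h {i | (some i : Option Λ) ∈ J}
    (hJ.preimage_of_injOn (Option.some_injective Λ).injOn) (x none) (fun i => x (some i))
  refine ⟨mk (x none, k'), ?_, ?_⟩
  · exact hk'
  · funext o
    rcases o with ⟨_ | i, ho⟩
    · rfl
    · exact hkk' i ho

lemma fills_finite [Nonempty Y] [Nonempty C] {D : Set (Y × (Λ → C))}
    (h : ∀ J : Set Λ, J.Finite → ∀ (x : Y) (k : Λ → C), ∃ k' : Λ → C, (x, k') ∈ D ∧ ∀ i ∈ J, k' i = k i) :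
    Filling.FillsFinite (up D) := by
  intro J _ hJ
  rw [eq_univ_iff_forall]
  intro f
  obtain ⟨x, rfl⟩ := exists_extend J f
  obtain ⟨k', hk', hkk'⟩ := h {i | (some i : Option Λ) ∈ J}
    (hJ.preimage (Option.some_injective Λ).injOn) (x none) (fun i => x (some i))
  refine ⟨mk (x none, k'), ?_, ?_⟩
  · exact hk'
  · funext o
    rcases o with ⟨_ | i, ho⟩
    · rfl
    · exact hkk' i ho

lemma t1_prod [T1Space Y] [T1Space C] : T1Space (∀ o, Fac Y Λ C o) := by
  have : ∀ o : Option Λ, T1Space (Fac Y Λ C o) := by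
    intro o
    rcases o with _ | i
    · exact inferInstanceAs (T1Space Y)
    · exact inferInstanceAs (T1Space C)
  infer_instance

end transfer

end Pool.Agent.R820.FillFin
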