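import Mathlib

/-!
# Three compact metric spaces without simultaneously optimal correspondences
-/

namespace Pool.Agent.R820.GH3

open Set

/-- A correspondence between `X` and `Y`: a subset of `X × Y` with surjective projections. -/
def IsCorrespondence {X Y : Type*} (S : Set (X × Y)) : Prop :=
  (∀ x, ∃ y, (x, y) ∈ S) ∧ ∀ y, ∃ x, (x, y) ∈ S

/-- The distortion of `S ⊆ X × Y`. -/
noncomputable def dis {X Y : Type*} [MetricSpace X] [MetricSpace Y] (S : Set (X × Y)) : ℝ :=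
  sSup {r | ∃ p ∈ S, ∃ q ∈ S, r = |dist p.1 q.1 - dist p.2 q.2|}

/-- The Gromov-Hausdorff distance of (nonempty compact) metric spaces: half of the infimum of the
distortions of all correspondences. -/
noncomputable def dGH (X Y : Type*) [MetricSpace X] [MetricSpace Y] : ℝ :=
  1 / 2 * sInf {r | ∃ S : Set (X × Y), IsCorrespondence S ∧ r = dis S}

/-- Optimal correspondences. -/
def IsOptimal {X Y : Type*} [MetricSpace X] [MetricSpace Y] (S : Set (X × Y)) : Prop :=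
  IsCorrespondence S ∧ dis S = 2 * dGH X Y

/-- The image of `R ⊆ X 0 × X 1 × X 2` under the projection to the factors `i` and `j`. -/
def e {X : Fin 3 → Type*} (i j : Fin 3) (R : Set (∀ i, X i)) : Set (X i × X j) :=
  (fun x => (x i, x j)) '' R

section general

variable {X Y : Type*} [MetricSpace X] [MetricSpace Y]

lemma dis_nonneg (S : Set (X × Y)) : 0 ≤ dis S := by
  apply Real.sSup_nonneg
  rintro _ ⟨p, _, q, _, rfl⟩
  exact abs_nonneg _

lemma two_dGH_le {S : Set (X × Y)} (hS : IsCorrespondence S) : 2 * dGH X Y ≤ dis S := by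
  unfold dGH
  have : sInf {r | ∃ S : Set (X × Y), IsCorrespondence S ∧ r = dis S} ≤ dis S := by
    apply csInf_le
    · refine ⟨0, ?_⟩
      rintro _ ⟨T, _, rfl⟩
      exact dis_nonneg T
    · exact ⟨S, hS, rfl⟩
  linarith

lemma dis_le {S : Set (X × Y)} {c : ℝ} (hc : 0 ≤ c)
    (h : ∀ p ∈ S, ∀ q ∈ S, |dist p.1 q.1 - dist p.2 q.2| ≤ c) : dis S ≤ c := by
  apply Real.sSup_le _ hc
  rintro _ ⟨p, hp, q, hq, rfl⟩
  exact h p hp q hq

lemma le_dis [Finite X] [Finite Y] {S : Set (X × Y)} {p q : X × Y} (hp : p ∈ S) (hq : q ∈ S) :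
    |dist p.1 q.1 - dist p.2 q.2| ≤ dis S := by
  apply le_csSup
  · have : {r | ∃ p ∈ S, ∃ q ∈ S, r = |dist p.1 q.1 - dist p.2 q.2|} ⊆
        range fun p : (X × Y) × (X × Y) => |dist p.1.1 p.2.1 - dist p.1.2 p.2.2| := by
      rintro _ ⟨p, _, q, _, rfl⟩
      exact ⟨(p, q), rfl⟩
    exact (finite_range _).bddAbove.mono this
  · exact ⟨p, hp, q, hq, rfl⟩

end general

/-! ### The example -/

/-- the numbers of points of the three spaces -/
def sz : Fin 3 → ℕ := ![2, 2, 4]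

/-- the distances of the first space -/
def D0 : Fin 2 → Fin 2 → ℕ := fun a b => if a = b then 0 else 5

/-- the distances of the second space -/
def D1 : Fin 2 → Fin 2 → ℕ := fun a b => if a = b then 0 else 2

/-- the distances of the third space -/
def D2 : Fin 4 → Fin 4 → ℕ :=
  ![![0, 2, 3, 3], ![2, 0, 1, 3], ![3, 1, 0, 2], ![3, 3, 2, 0]]

/-- the distances of the three spaces -/
def D : (i : Fin 3) → Fin (sz i) → Fin (sz i) → ℕ
  | 0 => D0
  | 1 => D1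
  | 2 => D2

/-- the three spaces -/
def Sp (i : Fin 3) : Type := Fin (sz i)

instance (i : Fin 3) : Finite (Sp i) := inferInstanceAs (Finite (Fin (sz i)))

instance (i : Fin 3) : Nonempty (Sp i) := by
  unfold Sp
  fin_cases i
  · exact ⟨(0 : Fin 2)⟩
  · exact ⟨(0 : Fin 2)⟩
  · exact ⟨(0 : Fin 4)⟩

lemma D_self : ∀ (i : Fin 3) (a : Fin (sz i)), D i a a = 0 := by decide

lemma D_comm : ∀ (i : Fin 3) (a b : Fin (sz i)), D i a b = D i b a := by decide

lemma D_tri : ∀ (i : Fin 3) (a b c : Fin (sz i)), D i a c ≤ D i a b + D i b c := by decide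

lemma D_eq : ∀ (i : Fin 3) (a b : Fin (sz i)), D i a b = 0 → a = b := by decide

noncomputable instance (i : Fin 3) : MetricSpace (Sp i) where
  dist a b := (D i a b : ℝ)
  dist_self a := by exact_mod_cast D_self i a
  dist_comm a b := by exact_mod_cast D_comm i a b
  dist_triangle a b c := by exact_mod_cast D_tri i a b c
  eq_of_dist_eq_zero := by
    intro a b h
    exact D_eq i a b (by exact_mod_cast h)

lemma dist_def (i : Fin 3) (a b : Sp i) : dist a b = (D i a b : ℝ) := rfl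

instance (i : Fin 3) : CompactSpace (Sp i) := Finite.compactSpace

/-- the distortion condition in terms of natural numbers -/
lemma natdist {i j : Fin 3} {S : Set (Sp i × Sp j)} {c : ℕ} (h : dis S ≤ c) {p q : Sp i × Sp j}
    (hp : p ∈ S) (hq : q ∈ S) : D i p.1 q.1 ≤ D j p.2 q.2 + c ∧ D j p.2 q.2 ≤ D i p.1 q.1 + c := by
  have h1 := (le_dis hp hq).trans h
  rw [dist_def, dist_def, abs_le] at h1
  constructor
  · have : (D i p.1 q.1 : ℝ) ≤ D j p.2 q.2 + c := by linarith [h1.2]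
    exact_mod_cast this
  · have : (D j p.2 q.2 : ℝ) ≤ D i p.1 q.1 + c := by linarith [h1.1]
    exact_mod_cast this

/-- upper bound for the distortion of an optimal correspondence, from a function -/
lemma bound {i j : Fin 3} {S : Set (Sp i × Sp j)} (hS : IsOptimal S) (T : Fin (sz i) → Fin (sz j) → Prop)
    (c : ℕ) (hT1 : ∀ a, ∃ b, T a b) (hT2 : ∀ b, ∃ a, T a b)
    (hT : ∀ a b a' b', T a b → T a' b' → D i a a' ≤ D j b b' + c ∧ D j b b' ≤ D i a a' + c) :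
    dis S ≤ c := by
  rw [hS.2]
  have hcor : IsCorrespondence {p : Sp i × Sp j | T p.1 p.2} := ⟨hT1, hT2⟩
  refine (two_dGH_le hcor).trans ?_
  apply dis_le (Nat.cast_nonneg c)
  rintro p hp q hq
  obtain ⟨h1, h2⟩ := hT _ _ _ _ hp hq
  rw [dist_def, dist_def, abs_le]
  have h1' : (D i p.1 q.1 : ℝ) ≤ D j p.2 q.2 + c := by exact_mod_cast h1
  have h2' : (D j p.2 q.2 : ℝ) ≤ D i p.1 q.1 + c := by exact_mod_cast h2
  constructor <;> linarith

/-- the combinatorial heart: the points of the third space cannot be distributed -/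
lemma comb : ∀ (p0 p1 p2 p3 : Fin 2) (r0 r1 r2 r3 : Fin 2),
    ¬ ((D0 p1 p2 ≤ D2 1 2 + 3) ∧
      (D2 0 2 ≤ D1 r0 r2 + 2) ∧ (D2 1 3 ≤ D1 r1 r3 + 2) ∧ (D2 0 3 ≤ D1 r0 r3 + 2) ∧
      (D0 p0 p1 ≤ D1 r0 r1 + 3) ∧ (D0 p2 p3 ≤ D1 r2 r3 + 3) ∧
      ¬ (p1 = p0 ∧ p2 = p0 ∧ p3 = p0)) := by decide

lemma two_points : ∀ p q : Fin 2, p ≠ q → D0 p q = 5 := by decide

lemma key (R : Set (∀ i, Sp i)) (h01 : IsOptimal (e 0 1 R)) (h02 : IsOptimal (e 0 2 R))
    (h12 : IsOptimal (e 1 2 R)) : False := by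
  have b01 : dis (e 0 1 R) ≤ (3 : ℕ) := by
    refine bound h01 (fun (a : Fin 2) (b : Fin 2) => a = b) 3 ?_ ?_ ?_
    · change ∀ a : Fin 2, ∃ b : Fin 2, a = b
      decide
    · change ∀ b : Fin 2, ∃ a : Fin 2, a = b
      decide
    · change ∀ a b a' b' : Fin 2, a = b → a' = b' →
        D0 a a' ≤ D1 b b' + 3 ∧ D1 b b' ≤ D0 a a' + 3
      decide
  have b02 : dis (e 0 2 R) ≤ (3 : ℕ) := by
    refine bound h02 (fun (a : Fin 2) (b : Fin 4) => (a = 0 ↔ b = 0)) 3 ?_ ?_ ?_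
    · change ∀ a : Fin 2, ∃ b : Fin 4, (a = 0 ↔ b = 0)
      decide
    · change ∀ b : Fin 4, ∃ a : Fin 2, (a = 0 ↔ b = 0)
      decide
    · change ∀ (a : Fin 2) (b : Fin 4) (a' : Fin 2) (b' : Fin 4), (a = 0 ↔ b = 0) →
        (a' = 0 ↔ b' = 0) → D0 a a' ≤ D2 b b' + 3 ∧ D2 b b' ≤ D0 a a' + 3
      decide
  have b12 : dis (e 1 2 R) ≤ (2 : ℕ) := by
    refine bound h12 (fun (a : Fin 2) (b : Fin 4) => (a = 0 ↔ (b = 0 ∨ b = 1))) 2 ?_ ?_ ?_
    · change ∀ a : Fin 2, ∃ b : Fin 4, (a = 0 ↔ (b = 0 ∨ b = 1))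
      decide
    · change ∀ b : Fin 4, ∃ a : Fin 2, (a = 0 ↔ (b = 0 ∨ b = 1))
      decide
    · change ∀ (a : Fin 2) (b : Fin 4) (a' : Fin 2) (b' : Fin 4), (a = 0 ↔ (b = 0 ∨ b = 1)) →
        (a' = 0 ↔ (b' = 0 ∨ b' = 1)) → D1 a a' ≤ D2 b b' + 2 ∧ D2 b b' ≤ D1 a a' + 2
      decide
  -- members of `R` with given third coordinates
  have hk : ∀ k : Fin 4, ∃ x ∈ R, x 2 = k := by
    intro k
    obtain ⟨a, x, hx, hxa⟩ := h02.1.2 k
    exact ⟨x, hx, congrArg Prod.snd hxa⟩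
  -- coordinates as elements of the finite types
  let P : (∀ i, Sp i) → Fin 2 := fun x => x 0
  let Q : (∀ i, Sp i) → Fin 2 := fun x => x 1
  let T : (∀ i, Sp i) → Fin 4 := fun x => x 2
  have n01 : ∀ x ∈ R, ∀ y ∈ R, D0 (P x) (P y) ≤ D1 (Q x) (Q y) + 3 := fun x hx y hy =>
    (natdist (p := (x 0, x 1)) (q := (y 0, y 1)) b01 ⟨x, hx, rfl⟩ ⟨y, hy, rfl⟩).1
  have n02 : ∀ x ∈ R, ∀ y ∈ R, D0 (P x) (P y) ≤ D2 (T x) (T y) + 3 := fun x hx y hy =>
    (natdist (p := (x 0, x 2)) (q := (y 0, y 2)) b02 ⟨x, hx, rfl⟩ ⟨y, hy, rfl⟩).1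
  have n12 : ∀ x ∈ R, ∀ y ∈ R, D2 (T x) (T y) ≤ D1 (Q x) (Q y) + 2 := fun x hx y hy =>
    (natdist (p := (x 1, x 2)) (q := (y 1, y 2)) b12 ⟨x, hx, rfl⟩ ⟨y, hy, rfl⟩).2
  obtain ⟨x0, hx0, h0⟩ := hk 0
  obtain ⟨x1, hx1, h1⟩ := hk 1
  obtain ⟨x2, hx2, h2⟩ := hk 2
  obtain ⟨x3, hx3, h3⟩ := hk 3
  have h0' : T x0 = 0 := h0
  have h1' : T x1 = 1 := h1
  have h2' : T x2 = 2 := h2
  have h3' : T x3 = 3 := h3
  have hc := comb (P x0) (P x1) (P x2) (P x3) (Q x0) (Q x1) (Q x2) (Q x3)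
  apply hc
  refine ⟨?_, ?_, ?_, ?_, ?_, ?_, ?_⟩
  · have := n02 x1 hx1 x2 hx2
    rwa [h1', h2'] at this
  · have := n12 x0 hx0 x2 hx2
    rwa [h0', h2'] at this
  · have := n12 x1 hx1 x3 hx3
    rwa [h1', h3'] at this
  · have := n12 x0 hx0 x3 hx3
    rwa [h0', h3'] at this
  · exact n01 x0 hx0 x1 hx1
  · exact n01 x2 hx2 x3 hx3
  · rintro ⟨e1, e2, e3⟩
    -- the other point of the first space
    obtain ⟨q, hq⟩ : ∃ q : Fin 2, q ≠ P x0 := by
      have : ∀ p : Fin 2, ∃ q : Fin 2, q ≠ p := by decide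
      exact this (P x0)
    obtain ⟨a, x, hx, hxa⟩ := h02.1.1 q
    have hxq : P x = q := congrArg Prod.fst hxa
    -- `x` has the third coordinate of one of the four members
    have hy : ∃ y ∈ R, T y = T x ∧ P y = P x0 := by
      have h4 : ∀ k : Fin 4, k = 0 ∨ k = 1 ∨ k = 2 ∨ k = 3 := by decide
      rcases h4 (T x) with h | h | h | h
      · exact ⟨x0, hx0, h0'.trans h.symm, rfl⟩
      · exact ⟨x1, hx1, h1'.trans h.symm, e1⟩
      · exact ⟨x2, hx2, h2'.trans h.symm, e2⟩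
      · exact ⟨x3, hx3, h3'.trans h.symm, e3⟩
    obtain ⟨y, hyR, hy2, hy0⟩ := hy
    have h5 := n02 x hx y hyR
    have h6 : D2 (T x) (T x) = 0 := D_self 2 (T x)
    rw [hy2, hy0, hxq, h6, two_points _ _ hq] at h5
    omega

/-- Statement (C): for all compact metric spaces `X 0, X 1, X 2` there is `R ⊆ X 0 × X 1 × X 2`
such that all its projections `e i j R` are optimal correspondences. -/
def StatementC : Prop :=
  ∀ (X : Fin 3 → Type) [∀ i, MetricSpace (X i)] [∀ i, CompactSpace (X i)] [∀ i, Nonempty (X i)],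
    ∃ R : Set (∀ i, X i), ∀ i j : Fin 3, IsOptimal (e i j R)

/-- Statement (H): all compact metric spaces `X 0, X 1, X 2` have isometric copies in one compact
metric space `Z` whose pairwise Hausdorff distances are the Gromov-Hausdorff distances. -/
def StatementH : Prop :=
  ∀ (X : Fin 3 → Type) [∀ i, MetricSpace (X i)] [∀ i, CompactSpace (X i)] [∀ i, Nonempty (X i)],
    ∃ (Z : Type) (_ : MetricSpace Z) (_ : CompactSpace Z) (φ : ∀ i, X i → Z),
      (∀ i, Isometry (φ i)) ∧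
      ∀ i j : Fin 3, Metric.hausdorffDist (range (φ i)) (range (φ j)) = dGH (X i) (X j)

end Pool.Agent.R820.GH3
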