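import Pool.Agent.R820.GH3

/-!
# Three compact metric spaces with simultaneously optimal correspondences, but without a common
ambient space realising the three Gromov-Hausdorff distances
-/

namespace Pool.Agent.R820.GH3.Two

open Set

/-- the numbers of points of the three spaces -/
def sz : Fin 3 → ℕ := ![2, 3, 3]

/-- the distances of the first space -/
def D0 : Fin 2 → Fin 2 → ℕ := fun a b => if a = b then 0 else 4

/-- the distances of the second space -/
def D1 : Fin 3 → Fin 3 → ℕ := ![![0, 4, 2], ![4, 0, 2], ![2, 2, 0]]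

/-- the distances of the third space -/
def D2 : Fin 3 → Fin 3 → ℕ := ![![0, 6, 1], ![6, 0, 5], ![1, 5, 0]]

/-- the distances of the three spaces -/
def D : (i : Fin 3) → Fin (sz i) → Fin (sz i) → ℕ
  | 0 => D0
  | 1 => D1
  | 2 => D2

/-- the three spaces -/
def Sp (i : Fin 3) : Type := Fin (sz i)

instance (i : Fin 3) : Finite (Sp i) := inferInstanceAs (Finite (Fin (sz i)))

instance (i : Fin 3) : Nonempty (Sp i) := by
  unfold Sp
  fin_cases i
  · exact ⟨(0 : Fin 2)⟩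
  · exact ⟨(0 : Fin 3)⟩
  · exact ⟨(0 : Fin 3)⟩

lemma D_self : ∀ (i : Fin 3) (a : Fin (sz i)), D i a a = 0 := by decide

lemma D_comm : ∀ (i : Fin 3) (a b : Fin (sz i)), D i a b = D i b a := by decide

lemma D_tri : ∀ (i : Fin 3) (a b c : Fin (sz i)), D i a c ≤ D i a b + D i b c := by decide

lemma D_eq : ∀ (i : Fin 3) (a b : Fin (sz i)), D i a b = 0 → a = b := by decide

noncomputable instance (i : Fin 3) : MetricSpace (Sp i) where
  dist a b := (D i a b : ℝ)
  dist_self a := by exact_mod_cast D_self i a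
  dist_comm a b := by exact_mod_cast D_comm i a b
  dist_triangle a b c := by exact_mod_cast D_tri i a b c
  eq_of_dist_eq_zero := by
    intro a b h
    exact D_eq i a b (by exact_mod_cast h)

lemma dist_def (i : Fin 3) (a b : Sp i) : dist a b = (D i a b : ℝ) := rfl

instance (i : Fin 3) : CompactSpace (Sp i) := Finite.compactSpace

lemma natdist {i j : Fin 3} {S : Set (Sp i × Sp j)} {c : ℕ} (h : dis S ≤ c) {p q : Sp i × Sp j}
    (hp : p ∈ S) (hq : q ∈ S) : D i p.1 q.1 ≤ D j p.2 q.2 + c ∧ D j p.2 q.2 ≤ D i p.1 q.1 + c := by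
  have h1 := (le_dis hp hq).trans h
  rw [dist_def, dist_def, abs_le] at h1
  constructor
  · have : (D i p.1 q.1 : ℝ) ≤ D j p.2 q.2 + c := by linarith [h1.2]
    exact_mod_cast this
  · have : (D j p.2 q.2 : ℝ) ≤ D i p.1 q.1 + c := by linarith [h1.1]
    exact_mod_cast this

/-- distortions are attained, hence natural numbers -/
lemma exists_natdist {i j : Fin 3} {S : Set (Sp i × Sp j)} (hS : IsCorrespondence S) :
    ∃ c : ℕ, dis S = c := by
  have hfin : {r | ∃ p ∈ S, ∃ q ∈ S, r = |dist p.1 q.1 - dist p.2 q.2|}.Finite := by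
    have : {r | ∃ p ∈ S, ∃ q ∈ S, r = |dist p.1 q.1 - dist p.2 q.2|} ⊆
        range fun p : (Sp i × Sp j) × (Sp i × Sp j) =>
          |dist p.1.1 p.2.1 - dist p.1.2 p.2.2| := by
      rintro _ ⟨p, _, q, _, rfl⟩
      exact ⟨(p, q), rfl⟩
    exact (finite_range _).subset this
  have hne : {r | ∃ p ∈ S, ∃ q ∈ S, r = |dist p.1 q.1 - dist p.2 q.2|}.Nonempty := by
    obtain ⟨x⟩ := (inferInstance : Nonempty (Sp i))
    obtain ⟨y, hy⟩ := hS.1 x
    exact ⟨_, ⟨(x, y), hy, (x, y), hy, rfl⟩⟩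
  obtain ⟨p, hp, q, hq, h⟩ := hne.csSup_mem hfin
  refine ⟨((D i p.1 q.1 : ℤ) - D j p.2 q.2).natAbs, ?_⟩
  unfold dis
  rw [h, dist_def, dist_def, Nat.cast_natAbs]
  push_cast
  rfl

/-- lower bound for the Gromov-Hausdorff distance -/
lemma le_two_dGH {i j : Fin 3} {c : ℕ}
    (h : ∀ S : Set (Sp i × Sp j), IsCorrespondence S → ¬ dis S ≤ c) :
    ((c + 1 : ℕ) : ℝ) ≤ 2 * dGH (Sp i) (Sp j) := by
  unfold dGH
  have : ((c + 1 : ℕ) : ℝ) ≤
      sInf {r | ∃ S : Set (Sp i × Sp j), IsCorrespondence S ∧ r = dis S} := by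
    apply le_csInf
    · refine ⟨_, univ, ⟨fun x => ?_, fun y => ?_⟩, rfl⟩
      · obtain ⟨y⟩ := (inferInstance : Nonempty (Sp j))
        exact ⟨y, mem_univ _⟩
      · obtain ⟨x⟩ := (inferInstance : Nonempty (Sp i))
        exact ⟨x, mem_univ _⟩
    · rintro _ ⟨S, hS, rfl⟩
      obtain ⟨m, hm⟩ := exists_natdist hS
      rw [hm]
      have := h S hS
      rw [hm] at this
      have h2 : ¬ m ≤ c := fun h3 => this (by exact_mod_cast h3)
      exact_mod_cast (by omega : c + 1 ≤ m)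
  linarith

section general

variable {X Y : Type*} [MetricSpace X] [MetricSpace Y]

lemma dis_swap (S : Set (X × Y)) : dis (Prod.swap ⁻¹' S) = dis S := by
  unfold dis
  congr 1
  ext r
  constructor
  · rintro ⟨p, hp, q, hq, rfl⟩
    exact ⟨p.swap, hp, q.swap, hq, abs_sub_comm _ _⟩
  · rintro ⟨p, hp, q, hq, rfl⟩
    exact ⟨p.swap, by simpa using hp, q.swap, by simpa using hq, abs_sub_comm _ _⟩

omit [MetricSpace X] [MetricSpace Y] in
lemma isCorrespondence_swap {S : Set (X × Y)} (h : IsCorrespondence S) :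
    IsCorrespondence (Prod.swap ⁻¹' S) := ⟨fun y => h.2 y, fun x => h.1 x⟩

lemma dGH_comm : dGH X Y = dGH Y X := by
  unfold dGH
  congr 2
  ext r
  constructor
  · rintro ⟨S, hS, rfl⟩
    exact ⟨_, isCorrespondence_swap hS, (dis_swap S).symm⟩
  · rintro ⟨S, hS, rfl⟩
    exact ⟨_, isCorrespondence_swap hS, (dis_swap S).symm⟩

end general

/-- the first coordinates of the three members of `R` -/
def t0 : Fin 3 → Fin 2 := ![0, 1, 0]

/-- the members of `R` -/
def t : Fin 3 → ∀ i, Sp i := fun k i => match i with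
  | 0 => t0 k
  | 1 => k
  | 2 => k

/-- the triple relation -/
def R : Set (∀ i, Sp i) := range t

/-- twice the Gromov-Hausdorff distances -/
def C : Fin 3 → Fin 3 → ℕ := ![![0, 2, 2], ![2, 0, 3], ![2, 3, 0]]

lemma t_surj (i : Fin 3) : ∀ x : Sp i, ∃ k, t k i = x := by
  fin_cases i
  · change ∀ x : Fin 2, ∃ k, t0 k = x
    decide
  · exact fun x => ⟨x, rfl⟩
  · exact fun x => ⟨x, rfl⟩

lemma t_dis : ∀ i j k l : Fin 3, D i (t k i) (t l i) ≤ D j (t k j) (t l j) + C i j ∧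
    D j (t k j) (t l j) ≤ D i (t k i) (t l i) + C i j := by decide

lemma isCorrespondence_e (i j : Fin 3) : IsCorrespondence (e i j R) := by
  constructor
  · intro x
    obtain ⟨k, hk⟩ := t_surj i x
    exact ⟨t k j, t k, ⟨k, rfl⟩, by change (t k i, t k j) = _; rw [hk]⟩
  · intro y
    obtain ⟨k, hk⟩ := t_surj j y
    exact ⟨t k i, t k, ⟨k, rfl⟩, by change (t k i, t k j) = _; rw [hk]⟩

lemma dis_e_le (i j : Fin 3) : dis (e i j R) ≤ C i j := by
  apply dis_le (Nat.cast_nonneg _)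
  rintro _ ⟨_, ⟨k, rfl⟩, rfl⟩ _ ⟨_, ⟨l, rfl⟩, rfl⟩
  obtain ⟨h1, h2⟩ := t_dis i j k l
  rw [dist_def, dist_def, abs_le]
  have h1' : (D i (t k i) (t l i) : ℝ) ≤ D j (t k j) (t l j) + C i j := by exact_mod_cast h1
  have h2' : (D j (t k j) (t l j) : ℝ) ≤ D i (t k i) (t l i) + C i j := by exact_mod_cast h2
  constructor <;> linarith

lemma lb01 : ((2 : ℕ) : ℝ) ≤ 2 * dGH (Sp 0) (Sp 1) := by
  apply le_two_dGH (c := 1)
  intro S hS hd
  have hk : ∀ k : Fin 3, ∃ a : Fin 2, ((a : Sp 0), (k : Sp 1)) ∈ S := fun k => hS.2 k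
  obtain ⟨a0, h0⟩ := hk 0
  obtain ⟨a1, h1⟩ := hk 1
  obtain ⟨a2, h2⟩ := hk 2
  have c1 := (natdist hd h0 h1).2
  have c2 := (natdist hd h0 h2).2
  have c3 := (natdist hd h1 h2).2
  have key : ∀ a0 a1 a2 : Fin 2, D1 0 1 ≤ D0 a0 a1 + 1 → D1 0 2 ≤ D0 a0 a2 + 1 →
      D1 1 2 ≤ D0 a1 a2 + 1 → False := by decide
  exact key a0 a1 a2 c1 c2 c3

lemma lb02 : ((2 : ℕ) : ℝ) ≤ 2 * dGH (Sp 0) (Sp 2) := by
  apply le_two_dGH (c := 1)
  intro S hS hd
  have hk : ∀ k : Fin 3, ∃ a : Fin 2, ((a : Sp 0), (k : Sp 2)) ∈ S := fun k => hS.2 k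
  obtain ⟨a0, h0⟩ := hk 0
  obtain ⟨a1, h1⟩ := hk 1
  have c1 := (natdist hd h0 h1).2
  have key : ∀ a0 a1 : Fin 2, D2 0 1 ≤ D0 a0 a1 + 1 → False := by decide
  exact key a0 a1 c1

lemma lb12 : ((3 : ℕ) : ℝ) ≤ 2 * dGH (Sp 1) (Sp 2) := by
  apply le_two_dGH (c := 2)
  intro S hS hd
  have hk : ∀ k : Fin 3, ∃ a : Fin 3, ((a : Sp 1), (k : Sp 2)) ∈ S := fun k => hS.2 k
  have hl : ∀ k : Fin 3, ∃ a : Fin 3, ((k : Sp 1), (a : Sp 2)) ∈ S := fun k => hS.1 k
  obtain ⟨a0, h0⟩ := hk 0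
  obtain ⟨a1, h1⟩ := hk 1
  obtain ⟨a2, h2⟩ := hk 2
  obtain ⟨b, hb⟩ := hl 2
  have c1 := (natdist hd h0 h1).2
  have c2 := (natdist hd h0 h2).2
  have c3 := (natdist hd h1 h2).2
  have c4 := (natdist hd h0 hb).2
  have c5 := (natdist hd h1 hb).2
  have c6 := (natdist hd h2 hb).1
  have c7 := (natdist hd h1 hb).1
  have key : ∀ a0 a1 a2 b : Fin 3, D2 0 1 ≤ D1 a0 a1 + 2 → D2 0 2 ≤ D1 a0 a2 + 2 →
      D2 1 2 ≤ D1 a1 a2 + 2 → D2 0 b ≤ D1 a0 2 + 2 → D2 1 b ≤ D1 a1 2 + 2 →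
      D1 a2 2 ≤ D2 2 b + 2 → D1 a1 2 ≤ D2 1 b + 2 → False := by decide
  exact key a0 a1 a2 b c1 c2 c3 c4 c5 c6 c7

lemma lower : ∀ i j : Fin 3, (C i j : ℝ) ≤ 2 * dGH (Sp i) (Sp j) := by
  have h0 : ∀ i : Fin 3, ((0 : ℕ) : ℝ) ≤ 2 * dGH (Sp i) (Sp i) := by
    intro i
    have : 0 ≤ dGH (Sp i) (Sp i) := by
      unfold dGH
      refine mul_nonneg (by norm_num) (Real.sInf_nonneg ?_)
      rintro _ ⟨S, _, rfl⟩
      exact dis_nonneg S
    push_cast
    linarith
  intro i j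
  fin_cases i <;> fin_cases j
  · exact h0 0
  · exact lb01
  · exact lb02
  · have := lb01
    rw [dGH_comm] at this
    exact this
  · exact h0 1
  · exact lb12
  · have := lb02
    rw [dGH_comm] at this
    exact this
  · have := lb12
    rw [dGH_comm] at this
    exact this
  · exact h0 2

lemma isOptimal_e (i j : Fin 3) : IsOptimal (e i j R) :=
  ⟨isCorrespondence_e i j, le_antisymm ((dis_e_le i j).trans (lower i j))
    (two_dGH_le (isCorrespondence_e i j))⟩

lemma dGH_le (i j : Fin 3) : dGH (Sp i) (Sp j) ≤ (C i j : ℝ) / 2 := by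
  have h1 := two_dGH_le (isCorrespondence_e i j)
  have h2 := dis_e_le i j
  linarith

/-! ### No common ambient space -/

lemma labelled {Z : Type*} [MetricSpace Z] (P Q B0 B1 B2 C0 C1 C2 : Z) (hPQ : dist P Q = 4)
    (hB02 : dist B0 B2 = 2) (hB12 : dist B1 B2 = 2)
    (hC01 : dist C0 C1 = 6) (hC12 : dist C1 C2 = 5)
    (h1 : dist C0 P ≤ 1) (h2 : dist C1 Q ≤ 1) (h3 : dist B0 P ≤ 1) (h4 : dist B1 Q ≤ 1)
    (h5 : dist B2 P ≤ 1 ∨ dist B2 Q ≤ 1)
    (h6 : dist C1 B0 ≤ 3 / 2 ∨ dist C1 B1 ≤ 3 / 2 ∨ dist C1 B2 ≤ 3 / 2)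
    (h7 : dist C0 B0 ≤ 3 / 2 ∨ dist C0 B1 ≤ 3 / 2 ∨ dist C0 B2 ≤ 3 / 2)
    (h8 : dist B2 C0 ≤ 3 / 2 ∨ dist B2 C1 ≤ 3 / 2 ∨ dist B2 C2 ≤ 3 / 2) : False := by
  have e1 : dist C0 C1 ≤ dist C0 P + dist P C1 := dist_triangle _ _ _
  have e2 : dist C0 C1 ≤ dist C0 Q + dist C1 Q := by
    have := dist_triangle C0 Q C1
    rwa [dist_comm Q C1] at this
  rcases h5 with h5 | h5
  · rcases h6 with h6 | h6 | h6
    · have f1 := dist_triangle P B0 C1
      rw [dist_comm P B0, dist_comm B0 C1] at f1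
      linarith
    · have f1 := dist_triangle P B2 C1
      have f2 := dist_triangle B2 B1 C1
      rw [dist_comm P B2] at f1
      rw [dist_comm B2 B1, dist_comm B1 C1] at f2
      linarith
    · have f1 := dist_triangle P B2 C1
      rw [dist_comm P B2, dist_comm B2 C1] at f1
      linarith
  · rcases h7 with h7 | h7 | h7
    · rcases h8 with h8 | h8 | h8
      · have f1 := dist_triangle C0 B2 Q
        rw [dist_comm C0 B2] at f1
        linarith
      · have f1 := dist_triangle C0 B0 C1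
        have f2 := dist_triangle B0 B2 C1
        linarith
      · have f1 := dist_triangle C1 Q C2
        have f2 := dist_triangle Q B2 C2
        rw [dist_comm Q B2] at f2
        linarith
    · have f1 := dist_triangle C0 B1 Q
      linarith
    · have f1 := dist_triangle C0 B2 Q
      linarith

lemma near {Z : Type*} [MetricSpace Z] (φ : ∀ i, Sp i → Z)
    (h : ∀ i j, Metric.hausdorffDist (range (φ i)) (range (φ j)) = dGH (Sp i) (Sp j))
    (i j : Fin 3) (x : Sp i) : ∃ y : Sp j, dist (φ i x) (φ j y) ≤ (C i j : ℝ) / 2 := by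
  have hfin : Metric.hausdorffEDist (range (φ i)) (range (φ j)) ≠ ⊤ :=
    Metric.hausdorffEDist_ne_top_of_nonempty_of_bounded (range_nonempty _) (range_nonempty _)
      (finite_range _).isBounded (finite_range _).isBounded
  obtain ⟨_, ⟨y, rfl⟩, hy⟩ := (finite_range (φ j)).isCompact.exists_infDist_eq_dist
    (range_nonempty _) (φ i x)
  refine ⟨y, ?_⟩
  rw [← hy]
  refine (Metric.infDist_le_hausdorffDist_of_mem (mem_range_self x) hfin).trans ?_
  rw [h]
  exact dGH_le i j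

lemma no_ambient {Z : Type*} [MetricSpace Z] (φ : ∀ i, Sp i → Z) (hφ : ∀ i, Isometry (φ i))
    (h : ∀ i j, Metric.hausdorffDist (range (φ i)) (range (φ j)) = dGH (Sp i) (Sp j)) :
    False := by
  -- the points
  let A : Fin 2 → Z := fun k => φ 0 k
  let B : Fin 3 → Z := fun k => φ 1 k
  let G : Fin 3 → Z := fun k => φ 2 k
  have dA : ∀ k l, dist (A k) (A l) = D0 k l := fun k l => (hφ 0).dist_eq k l
  have dB : ∀ k l, dist (B k) (B l) = D1 k l := fun k l => (hφ 1).dist_eq k l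
  have dG : ∀ k l, dist (G k) (G l) = D2 k l := fun k l => (hφ 2).dist_eq k l
  have nBA : ∀ k, dist (B k) (A 0) ≤ 1 ∨ dist (B k) (A 1) ≤ 1 := by
    intro k
    obtain ⟨y, hy⟩ := near φ h 1 0 k
    have hC : (C 1 0 : ℝ) / 2 = 1 := by rw [show C 1 0 = 2 by decide]; norm_num
    rw [hC] at hy
    have : ∀ y : Fin 2, y = 0 ∨ y = 1 := by decide
    rcases this y with e | e
    · left
      subst e
      exact hy
    · right
      subst e
      exact hy
  have nGA : ∀ k, dist (G k) (A 0) ≤ 1 ∨ dist (G k) (A 1) ≤ 1 := by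
    intro k
    obtain ⟨y, hy⟩ := near φ h 2 0 k
    have hC : (C 2 0 : ℝ) / 2 = 1 := by rw [show C 2 0 = 2 by decide]; norm_num
    rw [hC] at hy
    have : ∀ y : Fin 2, y = 0 ∨ y = 1 := by decide
    rcases this y with e | e
    · left
      subst e
      exact hy
    · right
      subst e
      exact hy
  have nBG : ∀ k, dist (B k) (G 0) ≤ 3 / 2 ∨ dist (B k) (G 1) ≤ 3 / 2 ∨
      dist (B k) (G 2) ≤ 3 / 2 := by
    intro k
    obtain ⟨y, hy⟩ := near φ h 1 2 k
    have hC : (C 1 2 : ℝ) / 2 = 3 / 2 := by rw [show C 1 2 = 3 by decide]; norm_num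
    rw [hC] at hy
    have : ∀ y : Fin 3, y = 0 ∨ y = 1 ∨ y = 2 := by decide
    rcases this y with e | e | e
    · left
      subst e
      exact hy
    · right; left
      subst e
      exact hy
    · right; right
      subst e
      exact hy
  have nGB : ∀ k, dist (G k) (B 0) ≤ 3 / 2 ∨ dist (G k) (B 1) ≤ 3 / 2 ∨
      dist (G k) (B 2) ≤ 3 / 2 := by
    intro k
    obtain ⟨y, hy⟩ := near φ h 2 1 k
    have hC : (C 2 1 : ℝ) / 2 = 3 / 2 := by rw [show C 2 1 = 3 by decide]; norm_num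
    rw [hC] at hy
    have : ∀ y : Fin 3, y = 0 ∨ y = 1 ∨ y = 2 := by decide
    rcases this y with e | e | e
    · left
      subst e
      exact hy
    · right; left
      subst e
      exact hy
    · right; right
      subst e
      exact hy
  have a01 : dist (A 0) (A 1) = 4 := by rw [dA, show D0 0 1 = 4 by decide]; norm_num
  have a10 : dist (A 1) (A 0) = 4 := by rw [dA, show D0 1 0 = 4 by decide]; norm_num
  have b01 : dist (B 0) (B 1) = 4 := by rw [dB, show D1 0 1 = 4 by decide]; norm_num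
  have b02 : dist (B 0) (B 2) = 2 := by rw [dB, show D1 0 2 = 2 by decide]; norm_num
  have b12 : dist (B 1) (B 2) = 2 := by rw [dB, show D1 1 2 = 2 by decide]; norm_num
  have g01 : dist (G 0) (G 1) = 6 := by rw [dG, show D2 0 1 = 6 by decide]; norm_num
  have g12 : dist (G 1) (G 2) = 5 := by rw [dG, show D2 1 2 = 5 by decide]; norm_num
  -- the two ends are near different points
  have sepG : ∀ a : Z, dist (G 0) a ≤ 1 → dist (G 1) a ≤ 1 → False := by
    intro a h1 h2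
    have := dist_triangle (G 0) a (G 1)
    rw [dist_comm a] at this
    linarith
  have sepB : ∀ a : Z, dist (B 0) a ≤ 1 → dist (B 1) a ≤ 1 → False := by
    intro a h1 h2
    have := dist_triangle (B 0) a (B 1)
    rw [dist_comm a] at this
    linarith
  have main : ∀ P Q : Z, dist P Q = 4 → (∀ k, dist (B k) P ≤ 1 ∨ dist (B k) Q ≤ 1) →
      dist (G 0) P ≤ 1 → dist (G 1) Q ≤ 1 → False := by
    intro P Q hPQ hB h1 h2
    rcases hB 0 with h3 | h3
    · rcases hB 1 with h4 | h4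
      · exact sepB P h3 h4
      · exact labelled P Q (B 0) (B 1) (B 2) (G 0) (G 1) (G 2) hPQ b02 b12 g01 g12 h1 h2 h3 h4
          (hB 2) (nGB 1) (nGB 0) (nBG 2)
    · rcases hB 1 with h4 | h4
      · refine labelled P Q (B 1) (B 0) (B 2) (G 0) (G 1) (G 2) hPQ b12 b02 g01 g12 h1 h2 h4 h3
          (hB 2) ?_ ?_ (nBG 2)
        · have := nGB 1
          tauto
        · have := nGB 0
          tauto
      · exact sepB Q h3 h4
  rcases nGA 0 with h0 | h0
  · rcases nGA 1 with h1 | h1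
    · exact sepG _ h0 h1
    · exact main (A 0) (A 1) a01 nBA h0 h1
  · rcases nGA 1 with h1 | h1
    · exact main (A 1) (A 0) a10 (fun k => (nBA k).symm) h0 h1
    · exact sepG _ h0 h1

end Pool.Agent.R820.GH3.Two
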