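import Mathlib
import Pool.Agent.R820.Filling

/-!
# A gamma set with uncountably many isolated points
-/

set_option autoImplicit false

namespace Pool.Agent.R820.GSet

open Set Filter
open Pool.Agent.R820.Filling (exists_closed)

/-- `x` and `y` agree below `m`. -/
def agree (m : ℕ) (x y : Set ℕ) : Prop := ∀ i < m, i ∈ x ↔ i ∈ y

lemma agree.symm {m : ℕ} {x y : Set ℕ} (h : agree m x y) : agree m y x := fun i hi => (h i hi).symm

lemma agree.trans {m : ℕ} {x y z : Set ℕ} (h : agree m x y) (h' : agree m y z) : agree m x z :=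
  fun i hi => (h i hi).trans (h' i hi)

lemma agree.mono {m n : ℕ} {x y : Set ℕ} (h : agree n x y) (hm : m ≤ n) : agree m x y :=
  fun i hi => h i (hi.trans_le hm)

lemma agree_refl (m : ℕ) (x : Set ℕ) : agree m x x := fun _ _ => Iff.rfl

lemma exists_not_agree {x y : Set ℕ} (h : x ≠ y) : ∃ m, ¬ agree m x y := by
  by_contra hh
  push Not at hh
  apply h
  ext i
  exact hh (i + 1) i (Nat.lt_succ_self i)

/-- Codes of open sets. -/
abbrev Code := Set (Finset ℕ × ℕ)

/-- The open set coded by `c`. -/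
def G (c : Code) : Set (Set ℕ) := {x | ∃ p ∈ c, agree p.2 x ↑p.1}

lemma G_open (c : Code) (x : Set ℕ) (h : x ∈ G c) : ∃ m, ∀ z, agree m z x → z ∈ G c := by
  obtain ⟨p, hp, hx⟩ := h
  exact ⟨p.2, fun z hz => ⟨p, hp, hz.trans hx⟩⟩

lemma GM (a : Set ℕ) (ha : a.Infinite) (c : ℕ → Code) (D : ℕ → Set ℕ)
    (hD : ∀ k (e : Finset (Finset ℕ)), ∃ n ∈ D k, ∀ s ∈ e, (↑s : Set ℕ) ∈ G (c n)) :
    ∃ b ⊆ a, b.Infinite ∧ ∃ ν : ℕ → ℕ, (∀ k, ν k ∈ D k) ∧
      ∀ z : Set ℕ, (z \ b).Finite → ∀ᶠ k in atTop, z ∈ G (c (ν k)) := by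
  classical
  have h1 : ∀ (j K : ℕ), ∃ n ∈ D j, ∃ m, ∀ s : Finset ℕ, s ⊆ Finset.range (K + 1) →
      ∀ z : Set ℕ, agree m z ↑s → z ∈ G (c n) := by
    intro j K
    obtain ⟨n, hn, hs⟩ := hD j (Finset.range (K + 1)).powerset
    have h2 : ∀ s : Finset ℕ, ∃ m, s ∈ (Finset.range (K + 1)).powerset →
        ∀ z : Set ℕ, agree m z ↑s → z ∈ G (c n) := by
      intro s
      by_cases h : s ∈ (Finset.range (K + 1)).powerset
      · obtain ⟨m, hm⟩ := G_open (c n) s (hs s h)
        exact ⟨m, fun _ => hm⟩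
      · exact ⟨0, fun h' => absurd h' h⟩
    choose m hm using h2
    refine ⟨n, hn, (Finset.range (K + 1)).powerset.sup m, fun s hs z hz => ?_⟩
    exact hm s (Finset.mem_powerset.2 hs) z
      (hz.mono (Finset.le_sup (f := m) (Finset.mem_powerset.2 hs)))
  choose n hn m hm using h1
  have h3 : ∀ N, ∃ i ∈ a, N < i := fun N => ha.exists_gt N
  choose nx hnxa hnx using h3
  let K : ℕ → ℕ := fun j => Nat.rec (nx 0) (fun j Kj => nx (max Kj (m j Kj))) j
  have hK : ∀ j, K (j + 1) = nx (max (K j) (m j (K j))) := fun j => rfl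
  have hKa : ∀ j, K j ∈ a := by
    intro j
    cases j with
    | zero => exact hnxa 0
    | succ j => rw [hK]; exact hnxa _
  have hlt : ∀ j, max (K j) (m j (K j)) < K (j + 1) := fun j => by rw [hK]; exact hnx _
  have hmono : StrictMono K := strictMono_nat_of_lt_succ fun j => (le_max_left _ _).trans_lt (hlt j)
  refine ⟨range K, ?_, infinite_range_of_injective hmono.injective, fun j => n j (K j),
    fun j => hn _ _, ?_⟩
  · rintro _ ⟨j, rfl⟩; exact hKa j
  · intro z hz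
    obtain ⟨N, hN⟩ := hz.bddAbove
    filter_upwards [eventually_gt_atTop N] with j hj
    have hjK : N < K j := hj.trans_le (hmono.id_le j)
    refine hm j (K j) ((Finset.range (K j + 1)).filter (· ∈ z)) (Finset.filter_subset _ _) z ?_
    intro i hi
    simp only [Finset.coe_filter, Finset.mem_range, mem_ofPred_eq]
    refine ⟨fun hiz => ⟨?_, hiz⟩, fun h => h.2⟩
    by_contra hiK
    push Not at hiK
    have hib : i ∈ range K := by
      by_contra hib
      have := hN ⟨hiz, hib⟩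
      omega
    obtain ⟨l, rfl⟩ := hib
    have h1 : j < l := hmono.lt_iff_lt.1 (by omega)
    have h2 : K (j + 1) ≤ K l := hmono.monotone h1
    have h3 := hlt j
    have h4 := le_max_right (K j) (m j (K j))
    omega

lemma pseudo (P : Set (Set ℕ)) (hc : P.Countable)
    (hfin : ∀ F : Set (Set ℕ), F ⊆ P → F.Finite → (⋂₀ F).Infinite) :
    ∃ a : Set ℕ, a.Infinite ∧ ∀ p ∈ P, (a \ p).Finite := by
  rcases P.eq_empty_or_nonempty with rfl | hne
  · exact ⟨univ, infinite_univ, by simp⟩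
  obtain ⟨p, rfl⟩ := hc.exists_eq_range hne
  have h1 : ∀ j N, ∃ i, N < i ∧ ∀ l ≤ j, i ∈ p l := by
    intro j N
    obtain ⟨i, hi, hiN⟩ := (hfin (p '' Iic j) (image_subset_range _ _)
      ((finite_Iic j).image _)).exists_gt N
    exact ⟨i, hiN, fun l hl => hi _ ⟨l, hl, rfl⟩⟩
  choose nx hnx hnxp using h1
  let K : ℕ → ℕ := fun j => Nat.rec (nx 0 0) (fun j Kj => nx (j + 1) Kj) j
  have hK : ∀ j, K (j + 1) = nx (j + 1) (K j) := fun j => rfl
  have hKp : ∀ j, ∀ l ≤ j, K j ∈ p l := by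
    intro j
    cases j with
    | zero => exact hnxp 0 0
    | succ j => rw [hK]; exact hnxp _ _
  have hmono : StrictMono K := strictMono_nat_of_lt_succ fun j => by rw [hK]; exact hnx _ _
  refine ⟨range K, infinite_range_of_injective hmono.injective, ?_⟩
  rintro _ ⟨l, rfl⟩
  refine ((finite_Iio l).image K).subset ?_
  rintro _ ⟨⟨j, rfl⟩, hj⟩
  refine ⟨j, ?_, rfl⟩
  by_contra h
  exact hj (hKp j l (not_lt.1 h))

lemma thin (a : Set ℕ) (ha : a.Infinite) : ∃ a' ⊆ a, a'.Infinite ∧ (a \ a').Infinite := by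
  let f := ha.natEmbedding
  refine ⟨range fun n => (f (2 * n)).1, ?_, ?_, ?_⟩
  · rintro _ ⟨n, rfl⟩; exact (f _).2
  · apply infinite_range_of_injective
    intro m n h
    have := f.injective (Subtype.ext h)
    omega
  · have h : (range fun n => (f (2 * n + 1)).1).Infinite := by
      apply infinite_range_of_injective
      intro m n h
      have := f.injective (Subtype.ext h)
      omega
    refine h.mono ?_
    rintro _ ⟨n, rfl⟩
    refine ⟨(f _).2, ?_⟩
    rintro ⟨m, hm⟩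
    have := f.injective (Subtype.ext hm)
    omega

/-- A task: a sequence of codes and of sequences of points. -/
abbrev Task := ℕ → Code × (ℕ → Set ℕ)

def weak (T : Task) (x : Set ℕ) : Prop :=
  (∀ e : Finset (Finset ℕ), ∃ n, ∀ s ∈ e, (↑s : Set ℕ) ∈ G (T n).1) →
    ∃ ν : ℕ → ℕ, ∀ z, (z \ x).Finite → ∀ᶠ k in atTop, z ∈ G (T (ν k)).1

def strong (T : Task) (P : Set (Set ℕ)) (x : Set ℕ) : Prop :=
  (∀ F : Set (Set ℕ), F ⊆ P → F.Finite → ∀ e : Finset (Finset ℕ),
    ∃ n, F ⊆ G (T n).1 ∪ range (T n).2 ∧ ∀ s ∈ e, (↑s : Set ℕ) ∈ G (T n).1) →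
    ∃ ν : ℕ → ℕ, (∀ z, (z \ x).Finite → ∀ᶠ k in atTop, z ∈ G (T (ν k)).1) ∧
      ∀ y ∈ P, ∀ᶠ k in atTop, y ∈ G (T (ν k)).1 ∪ range (T (ν k)).2

def Spec (T : Task) (P : Set (Set ℕ)) (x : Set ℕ) : Prop :=
  x.Infinite ∧ (∀ p ∈ P, (x \ p).Finite) ∧ x ∉ P ∧ weak T x ∧ strong T P x

lemma step (T : Task) (P : Set (Set ℕ)) (hc : P.Countable)
    (hfin : ∀ F : Set (Set ℕ), F ⊆ P → F.Finite → (⋂₀ F).Infinite) : ∃ x, Spec T P x := by
  obtain ⟨a, ha, haP⟩ := pseudo P hc hfin
  obtain ⟨a', ha'a, ha', haa'⟩ := thin a ha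
  have key : ∀ b ⊆ a', b.Infinite → b.Infinite ∧ (∀ p ∈ P, (b \ p).Finite) ∧ b ∉ P := by
    intro b hb hbi
    refine ⟨hbi, fun p hp => (haP p hp).subset (sdiff_subset_sdiff_left (hb.trans ha'a)), ?_⟩
    intro hbP
    refine haa' ((haP b hbP).subset (sdiff_subset_sdiff_right hb))
  by_cases hs : ∀ F : Set (Set ℕ), F ⊆ P → F.Finite → ∀ e : Finset (Finset ℕ),
    ∃ n, F ⊆ G (T n).1 ∪ range (T n).2 ∧ ∀ s ∈ e, (↑s : Set ℕ) ∈ G (T n).1
  · -- the strong case
    obtain ⟨D, hD, hDP⟩ : ∃ D : ℕ → Set ℕ, (∀ k (e : Finset (Finset ℕ)), ∃ n ∈ D k,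
        ∀ s ∈ e, (↑s : Set ℕ) ∈ G (T n).1) ∧ ∀ ν : ℕ → ℕ, (∀ k, ν k ∈ D k) →
        ∀ y ∈ P, ∀ᶠ k in atTop, y ∈ G (T (ν k)).1 ∪ range (T (ν k)).2 := by
      rcases P.eq_empty_or_nonempty with rfl | hne
      · refine ⟨fun _ => univ, fun k e => ?_, by simp⟩
        obtain ⟨n, -, hn⟩ := hs ∅ (empty_subset _) finite_empty e
        exact ⟨n, mem_univ _, hn⟩
      · obtain ⟨p, rfl⟩ := hc.exists_eq_range hne
        refine ⟨fun k => {n | ∀ l ≤ k, p l ∈ G (T n).1 ∪ range (T n).2}, fun k e => ?_, ?_⟩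
        · obtain ⟨n, hn, hn'⟩ := hs (p '' Iic k) (image_subset_range _ _)
            ((finite_Iic k).image _) e
          exact ⟨n, fun l hl => hn ⟨l, hl, rfl⟩, hn'⟩
        · rintro ν hν _ ⟨l, rfl⟩
          filter_upwards [eventually_ge_atTop l] with k hk
          exact hν k l hk
    obtain ⟨b, hba, hb, ν, hν, hz⟩ := GM a' ha' (fun n => (T n).1) D hD
    obtain ⟨h1, h2, h3⟩ := key b hba hb
    exact ⟨b, h1, h2, h3, fun _ => ⟨ν, hz⟩, fun _ => ⟨ν, hz, hDP ν hν⟩⟩
  · by_cases hw : ∀ e : Finset (Finset ℕ), ∃ n, ∀ s ∈ e, (↑s : Set ℕ) ∈ G (T n).1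
    · obtain ⟨b, hba, hb, ν, -, hz⟩ := GM a' ha' (fun n => (T n).1) (fun _ => univ)
        (fun k e => by obtain ⟨n, hn⟩ := hw e; exact ⟨n, mem_univ _, hn⟩)
      obtain ⟨h1, h2, h3⟩ := key b hba hb
      exact ⟨b, h1, h2, h3, fun _ => ⟨ν, hz⟩, fun h => absurd h hs⟩
    · obtain ⟨h1, h2, h3⟩ := key a' subset_rfl ha'
      exact ⟨a', h1, h2, h3, fun h => absurd h hw, fun h => absurd h hs⟩

section rec

variable {Om : Type} [LinearOrder Om] [WellFoundedLT Om]

/-- The recursively chosen sequence. -/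
noncomputable def xx (T : Om → Task) : Om → Set ℕ :=
  (wellFounded_lt (α := Om)).fix fun α ih =>
    Classical.epsilon (Spec (T α) {y | ∃ β, ∃ h : β < α, y = ih β h})

lemma xx_eq (T : Om → Task) (α : Om) :
    xx T α = Classical.epsilon (Spec (T α) (xx T '' Iio α)) := by
  rw [xx, WellFounded.fix_eq]
  congr 2
  ext y
  constructor
  · rintro ⟨β, h, rfl⟩; exact ⟨β, h, rfl⟩
  · rintro ⟨β, h, rfl⟩; exact ⟨β, h, rfl⟩

lemma spec (T : Om → Task) (hc : ∀ α : Om, (Iio α).Countable) (α : Om) :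
    Spec (T α) (xx T '' Iio α) (xx T α) := by
  induction α using WellFoundedLT.induction with
  | _ α ih =>
    rw [xx_eq]
    refine Classical.epsilon_spec (step _ _ ((hc α).image _) ?_)
    intro F hF hFf
    rcases F.eq_empty_or_nonempty with rfl | hne
    · rw [sInter_empty]; exact infinite_univ
    have : Nonempty Om := ⟨α⟩
    have hF' : ∀ y ∈ F, ∃ β, β < α ∧ xx T β = y := fun y hy => hF hy
    choose! g hg using hF'
    obtain ⟨y0, hy0, hmax⟩ := exists_max_image F g hFf hne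
    have h1 : ∀ y ∈ F, (y0 \ y).Finite := by
      intro y hy
      rcases (hmax y hy).lt_or_eq with h | h
      · have h2 := (ih (g y0) (hg y0 hy0).1).2.1 (xx T (g y)) ⟨g y, h, rfl⟩
        rwa [(hg y0 hy0).2, (hg y hy).2] at h2
      · have : y = y0 := by rw [← (hg y hy).2, h, (hg y0 hy0).2]
        rw [this, Set.sdiff_self]
        exact finite_empty
    have h2 : (⋃ y ∈ F, (y0 \ y)).Finite := hFf.biUnion h1
    have h3 : y0.Infinite := by
      have := (ih (g y0) (hg y0 hy0).1).1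
      rwa [(hg y0 hy0).2] at this
    refine (h3.sdiff h2).mono ?_
    rintro i ⟨hi, hi'⟩ y hy
    by_contra hiy
    exact hi' (mem_biUnion hy ⟨hi, hiy⟩)

end rec

section space

variable {Om : Type} (x : Om → Set ℕ)

/-- The finite sets together with the sets `x α`. -/
def XX : Type := {y : Set ℕ // y.Finite ∨ ∃ α, y = x α}

/-- Neighbourhoods of the finite sets are the usual ones, the other points are isolated. -/
instance : TopologicalSpace (XX x) where
  IsOpen U := ∀ y ∈ U, y.1.Finite → ∃ m, ∀ z : XX x, agree m z.1 y.1 → z ∈ U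
  isOpen_univ := fun y _ _ => ⟨0, fun _ _ => trivial⟩
  isOpen_inter := by
    rintro U V hU hV y ⟨hy, hy'⟩ hf
    obtain ⟨m, hm⟩ := hU y hy hf
    obtain ⟨n, hn⟩ := hV y hy' hf
    exact ⟨max m n, fun z hz => ⟨hm z (hz.mono (le_max_left _ _)), hn z (hz.mono (le_max_right _ _))⟩⟩
  isOpen_sUnion := by
    rintro S hS y ⟨U, hU, hy⟩ hf
    obtain ⟨m, hm⟩ := hS U hU y hy hf
    exact ⟨m, fun z hz => ⟨U, hU, hm z hz⟩⟩

variable {x}

lemma isOpen_def {U : Set (XX x)} :
    IsOpen U ↔ ∀ y ∈ U, y.1.Finite → ∃ m, ∀ z : XX x, agree m z.1 y.1 → z ∈ U := Iff.rfl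

lemma isClopen_agree (m : ℕ) (y : Set ℕ) : IsClopen {z : XX x | agree m z.1 y} := by
  constructor
  · rw [← isOpen_compl_iff, isOpen_def]
    intro w hw _
    exact ⟨m, fun z hz hz' => hw (hz.symm.trans hz')⟩
  · rw [isOpen_def]
    intro w hw _
    exact ⟨m, fun z hz => hz.trans hw⟩

lemma isOpen_compl_singleton' (z : XX x) : IsOpen ({z}ᶜ : Set (XX x)) := by
  rw [isOpen_def]
  intro y hy _
  obtain ⟨m, hm⟩ := exists_not_agree (x := z.1) (y := y.1) (fun h => hy (Subtype.ext h).symm)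
  exact ⟨m, fun w hw hwz => hm (by rw [mem_singleton_iff] at hwz; rwa [hwz] at hw)⟩

instance : T1Space (XX x) := ⟨fun z => isOpen_compl_iff.1 (isOpen_compl_singleton' z)⟩

lemma isOpen_singleton' (z : XX x) (hz : ¬ z.1.Finite) : IsOpen ({z} : Set (XX x)) := by
  rw [isOpen_def]
  rintro y rfl hf
  exact absurd hf hz

lemma continuous_ind {U : Set (XX x)} (hU : IsClopen U) (a b : ℝ) :
    Continuous (fun z => (haveI := Classical.dec (z ∈ U); if z ∈ U then a else b)) := by
  classical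
  have := continuous_const.if (p := fun z => z ∈ U) (f := fun _ : XX x => a) (g := fun _ => b) (by
    intro w hw
    have h1 : frontier U = ∅ := hU.frontier_eq
    have h2 : w ∈ frontier U := hw
    rw [h1] at h2
    exact h2.elim) continuous_const
  convert this

end space

section gamma

variable {Om : Type} [LinearOrder Om] [WellFoundedLT Om] (x : Om → Set ℕ)

/-- The finite sets as points of the space. -/
def fin (s : Finset ℕ) : XX x := ⟨↑s, Or.inl s.finite_toSet⟩

/-- The other points of the space. -/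
def pt (α : Om) : XX x := ⟨x α, Or.inr ⟨α, rfl⟩⟩

variable {x}

omit [WellFoundedLT Om] in
theorem gamma (T : Om → Task) (hT : Function.Surjective T)
    (hspec : ∀ α, Spec (T α) (x '' Iio α) (x α)) (hc : ∀ α : Om, (Iio α).Countable)
    {ι : Type} (U : ι → Set (XX x)) (hU : ∀ i, IsOpen (U i))
    (hcov : ∀ F : Set (XX x), F.Finite → ∃ i, F ⊆ U i) :
    ∃ ν : ℕ → ι, ∀ z, ∀ᶠ k in atTop, z ∈ U (ν k) := by
  classical
  -- codes
  let c : ι → Code := fun i => {p | ∀ z : XX x, agree p.2 z.1 ↑p.1 → z ∈ U i}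
  have hc1 : ∀ i (z : XX x), z.1 ∈ G (c i) → z ∈ U i := by
    rintro i z ⟨p, hp, hz⟩
    exact hp z hz
  have hc2 : ∀ i (s : Finset ℕ), fin x s ∈ U i → (↑s : Set ℕ) ∈ G (c i) := by
    intro i s hs
    obtain ⟨m, hm⟩ := isOpen_def.1 (hU i) _ hs s.finite_toSet
    exact ⟨(s, m), hm, agree_refl _ _⟩
  -- the chosen members of the cover
  have hu : ∀ (H : Finset Om) (e : Finset (Finset ℕ)), ∃ i, (∀ β ∈ H, pt x β ∈ U i) ∧
      (∀ s ∈ e, fin x s ∈ U i) ∧ fin x ∅ ∈ U i := by
    intro H e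
    obtain ⟨i, hi⟩ := hcov ((pt x '' ↑H) ∪ (fin x '' ↑e) ∪ {fin x ∅})
      (((H.finite_toSet.image _).union (e.finite_toSet.image _)).union (finite_singleton _))
    exact ⟨i, fun β hβ => hi (Or.inl (Or.inl ⟨β, hβ, rfl⟩)),
      fun s hs => hi (Or.inl (Or.inr ⟨s, hs, rfl⟩)), hi (Or.inr rfl)⟩
  choose u hu1 hu2 hu3 using hu
  obtain ⟨en, hen⟩ := exists_surjective_nat (Finset (Finset ℕ))
  -- the tasks for finite sets
  have hi : ∀ H : Finset Om, ∃ α, T α = fun n => (c (u H (en n)), fun _ => ∅) := fun H => hT _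
  choose i hi using hi
  have hν : ∀ H : Finset Om, ∃ ν : ℕ → ℕ, ∀ z, (z \ x (i H)).Finite →
      ∀ᶠ k in atTop, z ∈ G (c (u H (en (ν k)))) := by
    intro H
    have h1 := (hspec (i H)).2.2.2.1
    rw [hi H] at h1
    refine h1 ?_
    intro e
    obtain ⟨n, hn⟩ := hen e
    exact ⟨n, fun s hs => hc2 _ _ (hu2 _ _ s (by rwa [hn]))⟩
  choose ν hν using hν
  -- closing off
  obtain ⟨M, -, hMc, hM⟩ := exists_closed (fun H : Finset Om => Iic (i H))
    (fun H => by
      rw [← Iio_insert]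
      exact (hc _).insert _) ∅ countable_empty
  have hMlt : ∀ β ∉ M, ∀ H : Finset Om, (↑H : Set Om) ⊆ M → i H < β := by
    intro β hβ H hH
    by_contra h
    exact hβ (hM H hH (not_lt.1 h))
  have hHc : {H : Finset Om | (↑H : Set Om) ⊆ M}.Countable := by
    refine ((countable_ofPred_finite_subset hMc).preimage_of_injOn
      (f := fun s : Finset Om => (s : Set Om)) Finset.coe_injective.injOn).mono ?_
    intro s hs
    exact ⟨s.finite_toSet, hs⟩
  obtain ⟨h, hh⟩ := hHc.exists_eq_range ⟨∅, by simp⟩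
  have hhM : ∀ n, (↑(h n) : Set Om) ⊆ M := fun n => by
    have : h n ∈ {H : Finset Om | (↑H : Set Om) ⊆ M} := by
      rw [hh]; exact ⟨n, rfl⟩
    exact this
  let w : ℕ → ι := fun n => u (h n.unpair.1) (en n.unpair.2)
  have hs : ∀ n, ∃ s : ℕ → Set ℕ,
      {y | ∃ z : XX x, z.1 = y ∧ z ∈ U (w n) ∧ (z.1.Finite ∨ ∃ β ∈ M, z.1 = x β)} = range s := by
    intro n
    refine Countable.exists_eq_range ?_ ⟨_, fin x ∅, rfl, hu3 _ _, Or.inl (by simp [fin])⟩
    refine ((countable_ofPred_finite_subset (countable_univ (α := ℕ))).union (hMc.image x)).mono ?_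
    rintro y ⟨z, rfl, -, hz | ⟨β, hβ, hz⟩⟩
    · exact Or.inl ⟨hz, subset_univ _⟩
    · exact Or.inr ⟨β, hβ, hz.symm⟩
  choose s hs using hs
  obtain ⟨γ, hγ⟩ := hT (fun n => (c (w n), s n))
  have h1 := (hspec γ).2.2.2.2
  rw [hγ] at h1
  obtain ⟨ν', hν1, hν2⟩ := h1 (by
    intro F hF hFf e
    have : Nonempty Om := ⟨γ⟩
    have hF' : ∀ y ∈ F, ∃ β, β < γ ∧ x β = y := fun y hy => hF hy
    choose! g hg using hF'
    let H : Finset Om := (hFf.toFinset.filter (fun y => g y ∈ M)).image g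
    have hHM : (↑H : Set Om) ⊆ M := by
      intro β hβ
      simp only [H, Finset.coe_image, Finset.coe_filter] at hβ
      obtain ⟨y, hy, rfl⟩ := hβ
      exact hy.2
    obtain ⟨n1, hn1⟩ : ∃ n, h n = H := by
      have : H ∈ range h := by rw [← hh]; exact hHM
      exact this
    have h2 : ∀ y ∈ F, g y ∉ M → ∀ᶠ k in atTop, y ∈ G (c (u H (en (ν H k)))) := by
      intro y hy hyM
      apply hν
      have h3 := (hspec (g y)).2.1 (x (i H)) ⟨i H, hMlt _ hyM H hHM, rfl⟩
      rwa [(hg y hy).2] at h3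
    have h3 : ∀ᶠ k in atTop, ∀ y ∈ F, g y ∉ M → y ∈ G (c (u H (en (ν H k)))) := by
      rw [hFf.eventually_all]
      intro y hy
      by_cases hyM : g y ∈ M
      · exact Eventually.of_forall fun k h => absurd hyM h
      · filter_upwards [h2 y hy hyM] with k hk _ using hk
    have h4 : ∀ᶠ k in atTop, ∀ t ∈ e, (↑t : Set ℕ) ∈ G (c (u H (en (ν H k)))) := by
      rw [eventually_all_finset]
      intro t _
      exact hν H _ (t.finite_toSet.subset sdiff_subset)
    obtain ⟨k, hk1, hk2⟩ := (h3.and h4).exists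
    have hw : w (Nat.pair n1 (ν H k)) = u H (en (ν H k)) := by
      simp only [w, Nat.unpair_pair, hn1]
    refine ⟨Nat.pair n1 (ν H k), ?_, ?_⟩
    · intro y hy
      by_cases hyM : g y ∈ M
      · right
        rw [← hs]
        refine ⟨pt x (g y), (hg y hy).2, ?_, Or.inr ⟨g y, hyM, rfl⟩⟩
        rw [hw]
        apply hu1
        simp only [H, Finset.mem_image, Finset.mem_filter, Finite.mem_toFinset]
        exact ⟨y, ⟨hy, hyM⟩, rfl⟩
      · left
        have h5 := hk1 y hy hyM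
        rw [← hw] at h5
        exact h5
    · intro t ht
      have h5 := hk2 t ht
      rw [← hw] at h5
      exact h5)
  refine ⟨fun k => w (ν' k), fun z => ?_⟩
  have hG : (z.1 \ x γ).Finite → ∀ᶠ k in atTop, z ∈ U (w (ν' k)) := by
    intro hz
    filter_upwards [hν1 z.1 hz] with k hk
    exact hc1 _ _ hk
  rcases z.2 with hz | ⟨β, hz⟩
  · exact hG (hz.subset sdiff_subset)
  · rcases lt_trichotomy β γ with hβ | rfl | hβ
    · filter_upwards [hν2 z.1 ⟨β, hβ, hz.symm⟩] with k hk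
      rcases hk with hk | hk
      · exact hc1 _ _ hk
      · have hk' : z.1 ∈ range (s (ν' k)) := hk
        rw [← hs] at hk'
        obtain ⟨z', hz', hz'U, -⟩ := hk'
        rwa [Subtype.ext hz'] at hz'U
    · apply hG
      rw [hz, Set.sdiff_self]
      exact finite_empty
    · apply hG
      rw [hz]
      exact (hspec β).2.1 _ ⟨γ, hβ, rfl⟩

end gamma

section cp

variable {Om : Type} {x : Om → Set ℕ}

/-- `C_p(Z)`. -/
abbrev Cp (Z : Type) [TopologicalSpace Z] : Type := {f : Z → ℝ // Continuous f}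

lemma mem_nhds_Cp {Z : Type} [TopologicalSpace Z] {f : Cp Z} {N : Set (Cp Z)} (hN : N ∈ nhds f) :
    ∃ I : Set Z, I.Finite ∧ ∃ ε > 0, ∀ g : Cp Z, (∀ z ∈ I, |g.1 z - f.1 z| < ε) → g ∈ N := by
  rw [nhds_subtype_eq_comap, Filter.mem_comap] at hN
  obtain ⟨V, hV, hVN⟩ := hN
  rw [nhds_pi, Filter.mem_pi] at hV
  obtain ⟨I, hI, t, ht, htV⟩ := hV
  have h1 : ∀ z, ∃ ε > 0, ∀ r : ℝ, |r - f.1 z| < ε → r ∈ t z := by
    intro z
    obtain ⟨ε, hε, h⟩ := Metric.mem_nhds_iff.1 (ht z)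
    exact ⟨ε, hε, fun r hr => h (by rwa [Metric.mem_ball, Real.dist_eq])⟩
  choose ε hε h using h1
  obtain ⟨δ, hδ, hδ'⟩ : ∃ δ > 0, ∀ z ∈ I, δ ≤ ε z := by
    rcases I.eq_empty_or_nonempty with rfl | hne
    · exact ⟨1, one_pos, by simp⟩
    · obtain ⟨z, hz, hm⟩ := exists_min_image I ε hI hne
      exact ⟨ε z, hε z, hm⟩
  refine ⟨I, hI, δ, hδ, fun g hg => hVN (htV ?_)⟩
  intro z hz
  exact h z _ ((hg z hz).trans_le (hδ' z hz))

/-- The trace of a point below `m`. -/
noncomputable def tr (m : ℕ) (y : Set ℕ) : Finset ℕ := by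
  classical exact (Finset.range m).filter (· ∈ y)

lemma tr_eq {m : ℕ} {y z : Set ℕ} (h : agree m y z) : tr m y = tr m z := by
  classical
  ext i
  simp only [tr, Finset.mem_filter, Finset.mem_range]
  exact and_congr_right fun hi => h i hi

lemma agree_of_tr {m : ℕ} {y z : Set ℕ} (h : tr m y = tr m z) : agree m y z := by
  classical
  intro i hi
  have := Finset.ext_iff.1 h i
  simpa only [tr, Finset.mem_filter, Finset.mem_range, hi, true_and] using this

lemma continuous_tr (m : ℕ) (q : Finset ℕ → ℝ) : Continuous fun z : XX x => q (tr m z.1) := by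
  rw [continuous_def]
  intro V _
  rw [isOpen_def]
  intro y hy _
  refine ⟨m, fun z hz => ?_⟩
  rw [mem_preimage, tr_eq hz]
  exact hy

instance separable_Cp : TopologicalSpace.SeparableSpace (Cp (XX x)) := by
  classical
  let f : ℕ × (Finset ℕ →₀ ℚ) → Cp (XX x) := fun p => ⟨_, continuous_tr p.1 fun s => (p.2 s : ℝ)⟩
  refine ⟨⟨range f, countable_range f, ?_⟩⟩
  rw [dense_iff_inter_open]
  rintro O hO ⟨g, hg⟩
  obtain ⟨I, hI, ε, hε, h⟩ := mem_nhds_Cp (hO.mem_nhds hg)
  have h1 : ∀ p : XX x × XX x, ∃ m, p.1 ≠ p.2 → ¬ agree m p.1.1 p.2.1 := by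
    intro p
    by_cases hp : p.1 = p.2
    · exact ⟨0, fun h => absurd hp h⟩
    · obtain ⟨m, hm⟩ := exists_not_agree (x := p.1.1) (y := p.2.1) fun h => hp (Subtype.ext h)
      exact ⟨m, fun _ => hm⟩
  choose mm hmm using h1
  let I' := hI.toFinset
  let m := (I' ×ˢ I').sup mm
  have h2 : ∀ y ∈ I', ∀ z ∈ I', tr m y.1 = tr m z.1 → y = z := by
    intro y hy z hz hyz
    by_contra hne
    refine hmm (y, z) hne ((agree_of_tr hyz).mono ?_)
    exact Finset.le_sup (f := mm) (Finset.mk_mem_product hy hz)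
  have h3 : ∀ z : XX x, ∃ q : ℚ, |(q : ℝ) - g.1 z| < ε := by
    intro z
    obtain ⟨q, hq⟩ := Rat.denseRange_cast.exists_dist_lt (g.1 z) hε
    exact ⟨q, by rwa [dist_comm, Real.dist_eq] at hq⟩
  choose q hq using h3
  let Q : Finset ℕ →₀ ℚ := ∑ z ∈ I', Finsupp.single (tr m z.1) (q z)
  have hQ : ∀ z ∈ I', Q (tr m z.1) = q z := by
    intro z hz
    simp only [Q, Finsupp.finsetSum_apply]
    rw [Finset.sum_eq_single z]
    · simp
    · intro y hy hyz
      rw [Finsupp.single_apply, if_neg]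
      exact fun h => hyz (h2 y hy z hz h)
    · exact fun h => absurd hz h
  refine ⟨f (m, Q), ?_, ⟨_, rfl⟩⟩
  apply h
  intro z hz
  have hz' : z ∈ I' := hI.mem_toFinset.2 hz
  show |((Q (tr m z.1) : ℚ) : ℝ) - g.1 z| < ε
  rw [hQ z hz']
  exact hq z

theorem fu_of_gamma (hγ : ∀ {ι : Type} (U : ι → Set (XX x)), (∀ i, IsOpen (U i)) →
    (∀ F : Set (XX x), F.Finite → ∃ i, F ⊆ U i) →
    ∃ ν : ℕ → ι, ∀ z, ∀ᶠ k in atTop, z ∈ U (ν k)) : FrechetUrysohnSpace (Cp (XX x)) := by
  classical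
  constructor
  intro A f hf
  let z : ℕ → XX x := fun n => ⟨{n}, Or.inl (finite_singleton n)⟩
  have hz : Function.Injective z := by
    intro m n h
    exact singleton_injective (congrArg Subtype.val h)
  let U : ℕ × A → Set (XX x) := fun p => {y | |p.2.1.1 y - f.1 y| < 1 / ((p.1 : ℝ) + 1)} \ {z p.1}
  have hU : ∀ p, IsOpen (U p) := by
    intro p
    refine IsOpen.sdiff ?_ isClosed_singleton
    exact isOpen_lt ((p.2.1.2.sub f.2).abs) continuous_const
  have hcov : ∀ F : Set (XX x), F.Finite → ∃ p, F ⊆ U p := by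
    intro F hF
    obtain ⟨n, hn⟩ : ∃ n, z n ∉ F := by
      by_contra h
      push Not at h
      exact infinite_range_of_injective hz (hF.subset (by rintro _ ⟨n, rfl⟩; exact h n))
    have hε : (0 : ℝ) < 1 / ((n : ℝ) + 1) := by positivity
    have hN : {g : Cp (XX x) | ∀ y ∈ F, |g.1 y - f.1 y| < 1 / ((n : ℝ) + 1)} ∈ nhds f := by
      have h1 : ∀ᶠ g : Cp (XX x) in nhds f, ∀ y ∈ F, |g.1 y - f.1 y| < 1 / ((n : ℝ) + 1) := by
        rw [hF.eventually_all]
        intro y _
        have h2 : Continuous fun g : Cp (XX x) => |g.1 y - f.1 y| :=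
          ((continuous_apply y).comp continuous_subtype_val |>.sub continuous_const).abs
        have h3 := h2.continuousAt (x := f)
        refine h3.eventually_lt continuousAt_const ?_
        simpa using hε
      exact h1
    obtain ⟨g, hg, hgA⟩ := mem_closure_iff_nhds.1 hf _ hN
    refine ⟨(n, ⟨g, hgA⟩), fun y hy => ⟨hg y hy, ?_⟩⟩
    rintro rfl
    exact hn hy
  obtain ⟨ν, hν⟩ := hγ U hU hcov
  have hn : ∀ N, ∀ᶠ k in atTop, N ≤ (ν k).1 := by
    intro N
    have h1 : ∀ᶠ k in atTop, ∀ j ∈ Finset.range N, z j ∈ U (ν k) := by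
      rw [eventually_all_finset]
      intro j _
      exact hν _
    filter_upwards [h1] with k hk
    by_contra h
    exact (hk (ν k).1 (Finset.mem_range.2 (not_le.1 h))).2 rfl
  refine ⟨fun k => (ν k).2.1, fun k => (ν k).2.2, ?_⟩
  rw [tendsto_subtype_rng, tendsto_pi_nhds]
  intro y
  rw [Metric.tendsto_atTop]
  intro ε hε
  obtain ⟨N, hN⟩ := exists_nat_one_div_lt hε
  obtain ⟨K, hK⟩ := eventually_atTop.1 ((hn N).and (hν y))
  refine ⟨K, fun k hk => ?_⟩
  obtain ⟨h1, h2⟩ := hK k hk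
  rw [Real.dist_eq]
  refine (show |(ν k).2.1.1 y - f.1 y| < 1 / (((ν k).1 : ℝ) + 1) from h2.1).trans_le (le_trans ?_ hN.le)
  apply one_div_le_one_div_of_le (by positivity)
  have : (N : ℝ) ≤ (ν k).1 := by exact_mod_cast h1
  linarith

theorem isClopen_pt (hx : ∀ α, (x α).Infinite) (α : Om) :
    IsClopen ({⟨x α, Or.inr ⟨α, rfl⟩⟩} : Set (XX x)) :=
  ⟨isClosed_singleton, isOpen_singleton' _ (hx α)⟩

theorem t35 : T35Space (XX x) := by
  classical
  have : CompletelyRegularSpace (XX x) := by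
    refine ⟨fun z K hK hzK => ?_⟩
    obtain ⟨U, hU, hzU, hUK⟩ : ∃ U : Set (XX x), IsClopen U ∧ z ∈ U ∧ U ⊆ Kᶜ := by
      by_cases hz : z.1.Finite
      · obtain ⟨m, hm⟩ := isOpen_def.1 hK.isOpen_compl z hzK hz
        exact ⟨_, isClopen_agree m z.1, agree_refl _ _, fun w hw => hm w hw⟩
      · exact ⟨{z}, ⟨isClosed_singleton, isOpen_singleton' z hz⟩, rfl, by
          rw [singleton_subset_iff]; exact hzK⟩
    refine ⟨fun w => if w ∈ U then 0 else 1, ?_, if_pos hzU, ?_⟩
    · exact continuous_const.if (by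
        intro w hw
        have h1 : frontier U = ∅ := hU.frontier_eq
        have h2 : w ∈ frontier U := hw
        rw [h1] at h2
        exact h2.elim) continuous_const
    · intro w hw
      exact if_neg fun hwU => hUK hwU hw
  exact { }

theorem not_hs [Uncountable Om] (hx : ∀ α, (x α).Infinite) (hinj : Function.Injective x) :
    ¬ ∀ S : Set (Cp (XX x)), TopologicalSpace.SeparableSpace S := by
  classical
  intro hS
  let p : Om → XX x := fun α => ⟨x α, Or.inr ⟨α, rfl⟩⟩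
  have hp : Function.Injective p := fun α β h => hinj (congrArg Subtype.val h)
  let f : Om → Cp (XX x) := fun α => ⟨_, continuous_ind (isClopen_pt hx α) 1 0⟩
  have hf1 : ∀ α, (f α).1 (p α) = 1 := by
    intro α
    simp only [f]
    exact if_pos rfl
  have hf0 : ∀ α β, α ≠ β → (f α).1 (p β) = 0 := by
    intro α β h
    have : p β ≠ p α := fun h' => h (hp h').symm
    simp only [f]
    exact if_neg this
  have hfi : Function.Injective f := by
    intro α β h
    by_contra hne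
    have h1 := hf1 α
    rw [h, hf0 β α (fun h => hne h.symm)] at h1
    exact zero_ne_one h1
  obtain ⟨D, hDc, hD⟩ := (hS (range f)).exists_countable_dense
  have hmem : ∀ α, (⟨f α, ⟨α, rfl⟩⟩ : range f) ∈ D := by
    intro α
    have hO : IsOpen {g : range f | (1 / 2 : ℝ) < g.1.1 (p α)} := by
      apply isOpen_lt continuous_const
      exact (continuous_apply _).comp (continuous_subtype_val.comp continuous_subtype_val)
    obtain ⟨g, hg, hgD⟩ := hD.inter_open_nonempty _ hO ⟨⟨f α, ⟨α, rfl⟩⟩, by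
      show (1 / 2 : ℝ) < (f α).1 (p α)
      rw [hf1]; norm_num⟩
    obtain ⟨g, β, rfl⟩ := g
    by_cases h : β = α
    · subst h; exact hgD
    · exfalso
      have h1 : (1 / 2 : ℝ) < (f β).1 (p α) := hg
      rw [hf0 β α h] at h1
      norm_num at h1
  have : Countable D := hDc.to_subtype
  have h1 : Countable Om := by
    apply Function.Injective.countable (f := fun α => (⟨_, hmem α⟩ : D))
    intro α β h
    apply hfi
    have h2 := congrArg Subtype.val h
    exact congrArg Subtype.val h2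
  exact not_countable h1

end cp

open Cardinal in
/-- Under CH there is a Tychonoff space as required. -/
theorem main (hCH : Cardinal.aleph.{0} 1 = Cardinal.continuum) :
    ∃ (X : Type) (_ : TopologicalSpace X), T35Space X ∧
      TopologicalSpace.SeparableSpace (Cp X) ∧ FrechetUrysohnSpace (Cp X) ∧
      ¬ ∀ S : Set (Cp X), TopologicalSpace.SeparableSpace S := by
  let Om : Type := (ℵ₁ : Cardinal.{0}).ord.ToType
  have hcard : #Om = 𝔠 := by
    rw [← hCH]
    exact Cardinal.mk_ord_toType _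
  have hc : ∀ α : Om, (Iio α).Countable := by
    intro α
    have h1 : #(Iio α) < ℵ₁ := Cardinal.mk_Iio_toType_ord_lt α
    have h2 : #(Iio α) < Order.succ ℵ₀ := h1.trans_eq Cardinal.succ_aleph0.symm
    rw [← Cardinal.le_aleph0_iff_set_countable]
    exact Order.lt_succ_iff.1 h2
  have hT : ∃ T : Om → Task, Function.Surjective T := by
    have h1 : #Task ≤ #Om := by
      rw [hcard]
      simp
    obtain ⟨f⟩ := Cardinal.le_def _ _ |>.1 h1
    exact ⟨Function.invFun f, Function.invFun_surjective f.injective⟩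
  obtain ⟨T, hT⟩ := hT
  have : Uncountable Om := by
    rw [← Cardinal.aleph0_lt_mk_iff, hcard]
    exact Cardinal.aleph0_lt_continuum
  have hs := spec T hc
  have hinj : Function.Injective (xx T) := by
    have h1 : ∀ α β, β < α → xx T α ≠ xx T β := fun α β h h' =>
      (hs α).2.2.1 (h' ▸ ⟨β, h, rfl⟩)
    intro α β h
    rcases lt_trichotomy α β with h' | h' | h'
    · exact absurd h.symm (h1 β α h')
    · exact h'
    · exact absurd h (h1 α β h')
  exact ⟨XX (xx T), inferInstance, t35, separable_Cp,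
    fu_of_gamma fun U hU hcov => gamma T hT hs hc U hU hcov, not_hs (fun α => (hs α).1) hinj⟩

end Pool.Agent.R820.GSet
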