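import Pool.Agent.R820.Plank

/-!
# A regular space which is not completely regular and a completely regular subspace of its product
with a power of a discrete space
-/

namespace Pool.Agent.R820.Ladder

open Set Topology Filter Pool.Agent.R820.SigmaSep

/-- The points of the ladder: `ql j E c` tends to `t j E` as `c` leaves finite sets and to `r j c`
along the finite sets `E`; `qr j E c` tends to `t (j + 1) E` and to `r j c`; the levels tend
to `a`. -/
inductive Lad (Λ C : Type) : Type
  | a
  | t (j : ℕ) (E : Finset Λ)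
  | r (j : ℕ) (c : C)
  | ql (j : ℕ) (E : Finset Λ) (c : C)
  | qr (j : ℕ) (E : Finset Λ) (c : C)

variable {Λ C : Type}

/-- The level. -/
def lev : Lad Λ C → ℕ
  | .a => 0
  | .t j _ => 4 * j
  | .ql j _ _ => 4 * j + 1
  | .r j _ => 4 * j + 2
  | .qr j _ _ => 4 * j + 3

instance : TopologicalSpace (Lad Λ C) where
  IsOpen U :=
    (∀ j E, Lad.t j E ∈ U → ∃ W : Finset C, ∀ c, c ∉ W → Lad.ql j E c ∈ U ∧
      ∀ j', j = j' + 1 → Lad.qr j' E c ∈ U) ∧
    (∀ j c, Lad.r j c ∈ U → ∃ E' : Finset Λ, ∀ E, E' ⊆ E → Lad.ql j E c ∈ U ∧ Lad.qr j E c ∈ U) ∧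
    (Lad.a ∈ U → ∃ n, ∀ x, n ≤ lev x → x ∈ U)
  isOpen_univ := ⟨fun _ _ _ => ⟨∅, fun _ _ => ⟨trivial, fun _ _ => trivial⟩⟩,
    fun _ _ _ => ⟨∅, fun _ _ => ⟨trivial, trivial⟩⟩, fun _ => ⟨0, fun _ _ => trivial⟩⟩
  isOpen_inter := by
    classical
    rintro U V ⟨hU1, hU2, hU3⟩ ⟨hV1, hV2, hV3⟩
    refine ⟨fun j E hE => ?_, fun j c hc => ?_, fun h => ?_⟩
    · obtain ⟨W, hW⟩ := hU1 j E hE.1
      obtain ⟨W', hW'⟩ := hV1 j E hE.2
      refine ⟨W ∪ W', fun c hc => ?_⟩
      rw [Finset.mem_union, not_or] at hc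
      exact ⟨⟨(hW c hc.1).1, (hW' c hc.2).1⟩, fun j' h => ⟨(hW c hc.1).2 j' h, (hW' c hc.2).2 j' h⟩⟩
    · obtain ⟨E, hE⟩ := hU2 j c hc.1
      obtain ⟨E', hE'⟩ := hV2 j c hc.2
      refine ⟨E ∪ E', fun E'' h => ?_⟩
      have h1 := hE _ (Finset.union_subset_left h)
      have h2 := hE' _ (Finset.union_subset_right h)
      exact ⟨⟨h1.1, h2.1⟩, ⟨h1.2, h2.2⟩⟩
    · obtain ⟨n, hn⟩ := hU3 h.1
      obtain ⟨m, hm⟩ := hV3 h.2
      exact ⟨max n m, fun x hx => ⟨hn x ((le_max_left _ _).trans hx),
        hm x ((le_max_right _ _).trans hx)⟩⟩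
  isOpen_sUnion := by
    rintro S hS
    refine ⟨fun j E hE => ?_, fun j c hc => ?_, fun h => ?_⟩
    · obtain ⟨U, hU, hEU⟩ := hE
      obtain ⟨W, hW⟩ := (hS U hU).1 j E hEU
      exact ⟨W, fun c hc => ⟨⟨U, hU, (hW c hc).1⟩, fun j' h => ⟨U, hU, (hW c hc).2 j' h⟩⟩⟩
    · obtain ⟨U, hU, hcU⟩ := hc
      obtain ⟨E, hE⟩ := (hS U hU).2.1 j c hcU
      exact ⟨E, fun E' h => ⟨⟨U, hU, (hE E' h).1⟩, ⟨U, hU, (hE E' h).2⟩⟩⟩
    · obtain ⟨U, hU, haU⟩ := h
      obtain ⟨n, hn⟩ := (hS U hU).2.2 haU
      exact ⟨n, fun x hx => ⟨U, hU, hn x hx⟩⟩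

lemma isOpen_iff (U : Set (Lad Λ C)) : IsOpen U ↔
    (∀ j E, Lad.t j E ∈ U → ∃ W : Finset C, ∀ c, c ∉ W → Lad.ql j E c ∈ U ∧
      ∀ j', j = j' + 1 → Lad.qr j' E c ∈ U) ∧
    (∀ j c, Lad.r j c ∈ U → ∃ E' : Finset Λ, ∀ E, E' ⊆ E → Lad.ql j E c ∈ U ∧ Lad.qr j E c ∈ U) ∧
    (Lad.a ∈ U → ∃ n, ∀ x, n ≤ lev x → x ∈ U) := Iff.rfl

lemma mem_nhds_ql {U : Set (Lad Λ C)} {j : ℕ} {E : Finset Λ} {c : C} (h : Lad.ql j E c ∈ U) :
    U ∈ 𝓝 (Lad.ql j E c) := by
  refine mem_nhds_iff.2 ⟨{Lad.ql j E c}, singleton_subset_iff.2 h, ?_, rfl⟩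
  rw [isOpen_iff]
  refine ⟨?_, ?_, ?_⟩
  · intro j' E' h'
    cases h'
  · intro j' c' h'
    cases h'
  · intro h'
    cases h'

lemma mem_nhds_qr {U : Set (Lad Λ C)} {j : ℕ} {E : Finset Λ} {c : C} (h : Lad.qr j E c ∈ U) :
    U ∈ 𝓝 (Lad.qr j E c) := by
  refine mem_nhds_iff.2 ⟨{Lad.qr j E c}, singleton_subset_iff.2 h, ?_, rfl⟩
  rw [isOpen_iff]
  refine ⟨?_, ?_, ?_⟩
  · intro j' E' h'
    cases h'
  · intro j' c' h'
    cases h'
  · intro h'
    cases h'

lemma mem_nhds_t {U : Set (Lad Λ C)} {j : ℕ} {E : Finset Λ} (h : Lad.t j E ∈ U) (W : Finset C)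
    (hW : ∀ c, c ∉ W → Lad.ql j E c ∈ U ∧ ∀ j', j = j' + 1 → Lad.qr j' E c ∈ U) :
    U ∈ 𝓝 (Lad.t j E) := by
  refine mem_nhds_iff.2 ⟨{x | x = Lad.t j E ∨ ∃ c, c ∉ W ∧ (x = Lad.ql j E c ∨
    ∃ j', j = j' + 1 ∧ x = Lad.qr j' E c)}, ?_, ?_, Or.inl rfl⟩
  · rintro x (rfl | ⟨c, hc, rfl | ⟨j', hj', rfl⟩⟩)
    · exact h
    · exact (hW c hc).1
    · exact (hW c hc).2 j' hj'
  · rw [isOpen_iff]
    refine ⟨?_, ?_, ?_⟩
    · rintro j1 E1 (h' | ⟨c, _, h' | ⟨j', _, h'⟩⟩)
      · rw [Lad.t.injEq] at h'
        obtain ⟨rfl, rfl⟩ := h'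
        exact ⟨W, fun c hc => ⟨Or.inr ⟨c, hc, Or.inl rfl⟩,
          fun j' hj' => Or.inr ⟨c, hc, Or.inr ⟨j', hj', rfl⟩⟩⟩⟩
      · cases h'
      · cases h'
    · rintro j1 c1 (h' | ⟨c, _, h' | ⟨j', _, h'⟩⟩) <;> cases h'
    · rintro (h' | ⟨c, _, h' | ⟨j', _, h'⟩⟩) <;> cases h'

lemma mem_nhds_r {U : Set (Lad Λ C)} {j : ℕ} {c : C} (h : Lad.r j c ∈ U) (E' : Finset Λ)
    (hE : ∀ E, E' ⊆ E → Lad.ql j E c ∈ U ∧ Lad.qr j E c ∈ U) : U ∈ 𝓝 (Lad.r j c) := by
  refine mem_nhds_iff.2 ⟨{x | x = Lad.r j c ∨ ∃ E, E' ⊆ E ∧ (x = Lad.ql j E c ∨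
    x = Lad.qr j E c)}, ?_, ?_, Or.inl rfl⟩
  · rintro x (rfl | ⟨E, hE', rfl | rfl⟩)
    · exact h
    · exact (hE E hE').1
    · exact (hE E hE').2
  · rw [isOpen_iff]
    refine ⟨?_, ?_, ?_⟩
    · rintro j1 E1 (h' | ⟨E, _, h' | h'⟩) <;> cases h'
    · rintro j1 c1 (h' | ⟨E, _, h' | h'⟩)
      · rw [Lad.r.injEq] at h'
        obtain ⟨rfl, rfl⟩ := h'
        exact ⟨E', fun E hE => ⟨Or.inr ⟨E, hE, Or.inl rfl⟩, Or.inr ⟨E, hE, Or.inr rfl⟩⟩⟩
      · cases h'
      · cases h'
    · rintro (h' | ⟨E, _, h' | h'⟩) <;> cases h'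

lemma mem_nhds_a {U : Set (Lad Λ C)} (h : Lad.a ∈ U) (n : ℕ) (hn : ∀ x, n ≤ lev x → x ∈ U) :
    U ∈ 𝓝 (Lad.a : Lad Λ C) := by
  refine mem_nhds_iff.2 ⟨{x | x = Lad.a ∨ 4 * n < lev x}, ?_, ?_, Or.inl rfl⟩
  · rintro x (rfl | hx)
    · exact h
    · exact hn x (by omega)
  · rw [isOpen_iff]
    refine ⟨?_, ?_, ?_⟩
    · rintro j1 E1 (h' | h')
      · cases h'
      · change 4 * n < 4 * j1 at h'
        refine ⟨∅, fun c _ => ⟨Or.inr ?_, fun j' hj' => Or.inr ?_⟩⟩
        · change 4 * n < 4 * j1 + 1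
          omega
        · change 4 * n < 4 * j' + 3
          omega
    · rintro j1 c1 (h' | h')
      · cases h'
      · change 4 * n < 4 * j1 + 2 at h'
        refine ⟨∅, fun E _ => ⟨Or.inr ?_, Or.inr ?_⟩⟩
        · change 4 * n < 4 * j1 + 1
          omega
        · change 4 * n < 4 * j1 + 3
          omega
    · intro _
      exact ⟨4 * n + 1, fun x hx => Or.inr (by omega)⟩

lemma of_mem_nhds_t {U : Set (Lad Λ C)} {j : ℕ} {E : Finset Λ} (h : U ∈ 𝓝 (Lad.t j E)) :
    ∃ W : Finset C, ∀ c, c ∉ W → Lad.ql j E c ∈ U ∧ ∀ j', j = j' + 1 → Lad.qr j' E c ∈ U := by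
  obtain ⟨V, hVU, hV, hEV⟩ := mem_nhds_iff.1 h
  obtain ⟨W, hW⟩ := hV.1 j E hEV
  exact ⟨W, fun c hc => ⟨hVU (hW c hc).1, fun j' hj' => hVU ((hW c hc).2 j' hj')⟩⟩

lemma of_mem_nhds_r {U : Set (Lad Λ C)} {j : ℕ} {c : C} (h : U ∈ 𝓝 (Lad.r j c)) :
    ∃ E' : Finset Λ, ∀ E, E' ⊆ E → Lad.ql j E c ∈ U ∧ Lad.qr j E c ∈ U := by
  obtain ⟨V, hVU, hV, hcV⟩ := mem_nhds_iff.1 h
  obtain ⟨E, hE⟩ := hV.2.1 j c hcV
  exact ⟨E, fun E' h => ⟨hVU (hE E' h).1, hVU (hE E' h).2⟩⟩

lemma of_mem_nhds_a {U : Set (Lad Λ C)} (h : U ∈ 𝓝 (Lad.a : Lad Λ C)) :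
    ∃ n, ∀ x, n ≤ lev x → x ∈ U := by
  obtain ⟨V, hVU, hV, haV⟩ := mem_nhds_iff.1 h
  obtain ⟨n, hn⟩ := hV.2.2 haV
  exact ⟨n, fun x hx => hVU (hn x hx)⟩

instance [Infinite Λ] : T1Space (Lad Λ C) := by
  classical
  refine ⟨fun x => ?_⟩
  rw [← isOpen_compl_iff, isOpen_iff]
  refine ⟨?_, ?_, ?_⟩
  · intro j E _
    rcases x with _ | ⟨j0, E0⟩ | ⟨j0, c0⟩ | ⟨j0, E0, c0⟩ | ⟨j0, E0, c0⟩
    · exact ⟨∅, fun c _ => ⟨fun h => (by cases h), fun j' _ h => (by cases h)⟩⟩
    · exact ⟨∅, fun c _ => ⟨fun h => (by cases h), fun j' _ h => (by cases h)⟩⟩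
    · exact ⟨∅, fun c _ => ⟨fun h => (by cases h), fun j' _ h => (by cases h)⟩⟩
    · refine ⟨{c0}, fun c hc => ⟨fun h => hc ?_, fun j' _ h => (by cases h)⟩⟩
      simp only [mem_singleton_iff, Lad.ql.injEq] at h
      rw [h.2.2]
      exact Finset.mem_singleton_self _
    · refine ⟨{c0}, fun c hc => ⟨fun h => (by cases h), fun j' _ h => hc ?_⟩⟩
      simp only [mem_singleton_iff, Lad.qr.injEq] at h
      rw [h.2.2]
      exact Finset.mem_singleton_self _
  · intro j c _
    rcases x with _ | ⟨j0, E0⟩ | ⟨j0, c0⟩ | ⟨j0, E0, c0⟩ | ⟨j0, E0, c0⟩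
    · exact ⟨∅, fun E _ => ⟨fun h => (by cases h), fun h => (by cases h)⟩⟩
    · exact ⟨∅, fun E _ => ⟨fun h => (by cases h), fun h => (by cases h)⟩⟩
    · exact ⟨∅, fun E _ => ⟨fun h => (by cases h), fun h => (by cases h)⟩⟩
    · obtain ⟨i, hi⟩ := Infinite.exists_notMem_finset E0
      refine ⟨{i}, fun E hE => ⟨fun h => hi ?_, fun h => (by cases h)⟩⟩
      simp only [mem_singleton_iff, Lad.ql.injEq] at h
      rw [← h.2.1]
      exact hE (Finset.mem_singleton_self i)
    · obtain ⟨i, hi⟩ := Infinite.exists_notMem_finset E0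
      refine ⟨{i}, fun E hE => ⟨fun h => (by cases h), fun h => hi ?_⟩⟩
      simp only [mem_singleton_iff, Lad.qr.injEq] at h
      rw [← h.2.1]
      exact hE (Finset.mem_singleton_self i)
  · intro _
    refine ⟨lev x + 1, fun y hy h => ?_⟩
    rw [mem_singleton_iff] at h
    rw [h] at hy
    omega

lemma isClopen_singleton_ql [Infinite Λ] (j : ℕ) (E : Finset Λ) (c : C) :
    IsClopen ({Lad.ql j E c} : Set (Lad Λ C)) :=
  ⟨isClosed_singleton, isOpen_iff_mem_nhds.2 fun x hx => by
    rw [mem_singleton_iff] at hx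
    rw [hx]
    exact mem_nhds_ql rfl⟩

lemma isClopen_singleton_qr [Infinite Λ] (j : ℕ) (E : Finset Λ) (c : C) :
    IsClopen ({Lad.qr j E c} : Set (Lad Λ C)) :=
  ⟨isClosed_singleton, isOpen_iff_mem_nhds.2 fun x hx => by
    rw [mem_singleton_iff] at hx
    rw [hx]
    exact mem_nhds_qr rfl⟩

/-- basic neighbourhoods of the points `t j E` -/
def Bt (j : ℕ) (E : Finset Λ) (W : Finset C) : Set (Lad Λ C) :=
  {x | x = Lad.t j E ∨ ∃ c, c ∉ W ∧ (x = Lad.ql j E c ∨ ∃ j', j = j' + 1 ∧ x = Lad.qr j' E c)}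

/-- basic neighbourhoods of the points `r j c` -/
def Br (j : ℕ) (c : C) (E' : Finset Λ) : Set (Lad Λ C) :=
  {x | x = Lad.r j c ∨ ∃ E, E' ⊆ E ∧ (x = Lad.ql j E c ∨ x = Lad.qr j E c)}

lemma isClopen_Bt [Infinite Λ] (j : ℕ) (E : Finset Λ) (W : Finset C) : IsClopen (Bt j E W) := by
  classical
  constructor
  · rw [← isOpen_compl_iff, isOpen_iff]
    refine ⟨?_, ?_, ?_⟩
    · intro j1 E1 h
      refine ⟨∅, fun c _ => ⟨?_, ?_⟩⟩
      · rintro (h' | ⟨c', _, h' | ⟨j', _, h'⟩⟩)
        · cases h'
        · simp only [Lad.ql.injEq] at h'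
          apply h
          left
          rw [h'.1, h'.2.1]
        · cases h'
      · rintro j2 hj2 (h' | ⟨c', _, h' | ⟨j', hj', h'⟩⟩)
        · cases h'
        · cases h'
        · simp only [Lad.qr.injEq] at h'
          apply h
          left
          rw [hj', ← h'.1, ← hj2, h'.2.1]
    · intro j1 c1 h
      obtain ⟨i, hi⟩ := Infinite.exists_notMem_finset E
      refine ⟨{i}, fun E1 hE1 => ⟨?_, ?_⟩⟩
      · rintro (h' | ⟨c', _, h' | ⟨j', _, h'⟩⟩)
        · cases h'
        · simp only [Lad.ql.injEq] at h'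
          apply hi
          rw [← h'.2.1]
          exact hE1 (Finset.mem_singleton_self i)
        · cases h'
      · rintro (h' | ⟨c', _, h' | ⟨j', _, h'⟩⟩)
        · cases h'
        · cases h'
        · simp only [Lad.qr.injEq] at h'
          apply hi
          rw [← h'.2.1]
          exact hE1 (Finset.mem_singleton_self i)
    · intro _
      refine ⟨4 * j + 2, fun x hx h => ?_⟩
      rcases h with rfl | ⟨c', _, rfl | ⟨j', hj', rfl⟩⟩
      · change 4 * j + 2 ≤ 4 * j at hx
        omega
      · change 4 * j + 2 ≤ 4 * j + 1 at hx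
        omega
      · change 4 * j + 2 ≤ 4 * j' + 3 at hx
        omega
  · rw [isOpen_iff_mem_nhds]
    rintro x (rfl | ⟨c, hc, rfl | ⟨j', hj', rfl⟩⟩)
    · exact mem_nhds_t (Or.inl rfl) W fun c hc => ⟨Or.inr ⟨c, hc, Or.inl rfl⟩,
        fun j' hj' => Or.inr ⟨c, hc, Or.inr ⟨j', hj', rfl⟩⟩⟩
    · exact mem_nhds_ql (Or.inr ⟨c, hc, Or.inl rfl⟩)
    · exact mem_nhds_qr (Or.inr ⟨c, hc, Or.inr ⟨j', hj', rfl⟩⟩)

lemma isClopen_Br (j : ℕ) (c : C) (E' : Finset Λ) : IsClopen (Br j c E') := by
  classical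
  constructor
  · rw [← isOpen_compl_iff, isOpen_iff]
    refine ⟨?_, ?_, ?_⟩
    · intro j1 E1 _
      refine ⟨{c}, fun c1 hc1 => ⟨?_, ?_⟩⟩
      · rintro (h' | ⟨E, _, h' | h'⟩)
        · cases h'
        · simp only [Lad.ql.injEq] at h'
          apply hc1
          rw [h'.2.2]
          exact Finset.mem_singleton_self _
        · cases h'
      · rintro j2 hj2 (h' | ⟨E, _, h' | h'⟩)
        · cases h'
        · cases h'
        · simp only [Lad.qr.injEq] at h'
          apply hc1
          rw [h'.2.2]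
          exact Finset.mem_singleton_self _
    · intro j1 c1 h
      refine ⟨∅, fun E1 _ => ⟨?_, ?_⟩⟩
      · rintro (h' | ⟨E, _, h' | h'⟩)
        · cases h'
        · simp only [Lad.ql.injEq] at h'
          apply h
          left
          rw [h'.1, h'.2.2]
        · cases h'
      · rintro (h' | ⟨E, _, h' | h'⟩)
        · cases h'
        · cases h'
        · simp only [Lad.qr.injEq] at h'
          apply h
          left
          rw [h'.1, h'.2.2]
    · intro _
      refine ⟨4 * j + 4, fun x hx h => ?_⟩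
      rcases h with rfl | ⟨E, _, rfl | rfl⟩
      · change 4 * j + 4 ≤ 4 * j + 2 at hx
        omega
      · change 4 * j + 4 ≤ 4 * j + 1 at hx
        omega
      · change 4 * j + 4 ≤ 4 * j + 3 at hx
        omega
  · rw [isOpen_iff_mem_nhds]
    rintro x (rfl | ⟨E, hE, rfl | rfl⟩)
    · exact mem_nhds_r (Or.inl rfl) E' fun E hE => ⟨Or.inr ⟨E, hE, Or.inl rfl⟩,
        Or.inr ⟨E, hE, Or.inr rfl⟩⟩
    · exact mem_nhds_ql (Or.inr ⟨E, hE, Or.inl rfl⟩)
    · exact mem_nhds_qr (Or.inr ⟨E, hE, Or.inr rfl⟩)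

/-! ### The ladder is not completely regular -/

/-- a continuous function takes the value at `t j E` at all but countably many neighbours -/
lemma countable_exceptions {f : Lad Λ C → ℝ} (hf : Continuous f) (j : ℕ) (E : Finset Λ) :
    ∃ W : Set C, W.Countable ∧ ∀ c, c ∉ W → f (Lad.ql j E c) = f (Lad.t j E) ∧
      ∀ j', j = j' + 1 → f (Lad.qr j' E c) = f (Lad.t j E) := by
  have h1 : ∀ m : ℕ, ∃ W : Finset C, ∀ c, c ∉ W →
      dist (f (Lad.ql j E c)) (f (Lad.t j E)) < 1 / ((m : ℝ) + 1) ∧
      ∀ j', j = j' + 1 → dist (f (Lad.qr j' E c)) (f (Lad.t j E)) < 1 / ((m : ℝ) + 1) := by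
    intro m
    have hb : Metric.ball (f (Lad.t j E)) (1 / ((m : ℝ) + 1)) ∈ 𝓝 (f (Lad.t j E)) :=
      Metric.ball_mem_nhds _ (by positivity)
    exact of_mem_nhds_t (hf.continuousAt.preimage_mem_nhds hb)
  choose W hW using h1
  have harch : ∀ x y : ℝ, (∀ m : ℕ, dist x y < 1 / ((m : ℝ) + 1)) → x = y := by
    intro x y h
    by_contra hne
    have hpos : 0 < dist x y := dist_pos.2 hne
    obtain ⟨m, hm⟩ := exists_nat_one_div_lt hpos
    exact absurd (h m) (not_lt.2 hm.le)
  refine ⟨⋃ m, (W m : Set C), countable_iUnion fun m => (W m).countable_toSet, ?_⟩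
  intro c hc
  have hc' : ∀ m, c ∉ W m := fun m h => hc (mem_iUnion.2 ⟨m, h⟩)
  exact ⟨harch _ _ fun m => (hW m c (hc' m)).1, fun j' hj' => harch _ _ fun m =>
    (hW m c (hc' m)).2 j' hj'⟩

theorem not_completelyRegular
    (hC : ∀ W : Finset Λ → Set C, (∀ E, (W E).Countable) → ∃ c, ∀ E, c ∉ W E) :
    ¬ CompletelyRegularSpace (Lad Λ C) := by
  classical
  intro hcr
  have hK : IsClosed (range fun E : Finset Λ => (Lad.t 0 E : Lad Λ C)) := by
    rw [← isOpen_compl_iff, isOpen_iff]
    refine ⟨?_, ?_, ?_⟩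
    · intro j E _
      refine ⟨∅, fun c _ => ⟨?_, ?_⟩⟩
      · rintro ⟨E', h'⟩
        cases h'
      · rintro j' _ ⟨E', h'⟩
        cases h'
    · intro j c _
      refine ⟨∅, fun E _ => ⟨?_, ?_⟩⟩
      · rintro ⟨E', h'⟩
        cases h'
      · rintro ⟨E', h'⟩
        cases h'
    · intro _
      refine ⟨1, fun x hx h => ?_⟩
      obtain ⟨E', h'⟩ := h
      change Lad.t 0 E' = x at h'
      rw [← h'] at hx
      change 1 ≤ 4 * 0 at hx
      omega
  obtain ⟨f, hf, hfa, hfK⟩ := hcr.completely_regular (Lad.a : Lad Λ C) _ hK (by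
    rintro ⟨E', h'⟩
    cases h')
  let g : Lad Λ C → ℝ := fun x => (f x : ℝ)
  have hg : Continuous g := continuous_subtype_val.comp hf
  have hg0 : ∀ E, g (Lad.t 0 E) = 1 := by
    intro E
    have : f (Lad.t 0 E) = 1 := hfK ⟨E, rfl⟩
    simp only [g, this]
    rfl
  have hga : g Lad.a = 0 := by
    simp only [g, hfa]
    rfl
  -- a good column
  choose W hWc hW using fun (j : ℕ) (E : Finset Λ) => countable_exceptions hg j E
  obtain ⟨c, hc⟩ := hC (fun E => ⋃ j, W j E) fun E => countable_iUnion fun j => hWc j E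
  have hc' : ∀ j E, c ∉ W j E := fun j E h => hc E (mem_iUnion.2 ⟨j, h⟩)
  have hl : ∀ j, Tendsto (fun E : Finset Λ => g (Lad.t j E)) atTop (𝓝 (g (Lad.r j c))) := by
    intro j
    have h1 : Tendsto (fun E : Finset Λ => (Lad.ql j E c : Lad Λ C)) atTop (𝓝 (Lad.r j c)) := by
      intro U hU
      obtain ⟨E', hE'⟩ := of_mem_nhds_r hU
      rw [mem_map]
      exact mem_of_superset (Ici_mem_atTop E') fun E hE => (hE' E hE).1
    have h2 := (hg.tendsto (Lad.r j c)).comp h1
    refine h2.congr fun E => ?_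
    exact (hW j E c (hc' j E)).1
  have hr : ∀ j, Tendsto (fun E : Finset Λ => g (Lad.t (j + 1) E)) atTop
      (𝓝 (g (Lad.r j c))) := by
    intro j
    have h1 : Tendsto (fun E : Finset Λ => (Lad.qr j E c : Lad Λ C)) atTop (𝓝 (Lad.r j c)) := by
      intro U hU
      obtain ⟨E', hE'⟩ := of_mem_nhds_r hU
      rw [mem_map]
      exact mem_of_superset (Ici_mem_atTop E') fun E hE => (hE' E hE).2
    have h2 := (hg.tendsto (Lad.r j c)).comp h1
    refine h2.congr fun E => ?_
    exact (hW (j + 1) E c (hc' (j + 1) E)).2 j rfl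
  have hall : ∀ j, g (Lad.r j c) = 1 := by
    intro j
    induction j with
    | zero =>
      have h1 := hl 0
      have h2 : Tendsto (fun E : Finset Λ => g (Lad.t 0 E)) atTop (𝓝 1) := by
        simp only [hg0]
        exact tendsto_const_nhds
      exact tendsto_nhds_unique h1 h2
    | succ j ih =>
      rw [← ih]
      exact tendsto_nhds_unique (hl (j + 1)) (hr j)
  have ha : Tendsto (fun j : ℕ => (Lad.r j c : Lad Λ C)) atTop (𝓝 Lad.a) := by
    intro U hU
    obtain ⟨n, hn⟩ := of_mem_nhds_a hU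
    rw [mem_map]
    refine mem_of_superset (Ici_mem_atTop n) fun j hj => hn _ ?_
    change n ≤ 4 * j + 2
    have : n ≤ j := hj
    omega
  have h1 := (hg.tendsto (Lad.a)).comp ha
  have h2 : Tendsto (g ∘ fun j : ℕ => (Lad.r j c : Lad Λ C)) atTop (𝓝 1) := by
    have : (g ∘ fun j : ℕ => (Lad.r j c : Lad Λ C)) = fun _ => 1 := by
      funext j
      exact hall j
    rw [this]
    exact tendsto_const_nhds
  have h3 := tendsto_nhds_unique h1 h2
  rw [hga] at h3
  exact zero_ne_one h3

/-! ### The subspace -/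

/-- The subspace of the product of the ladder with `C ^ Λ`. -/
def DC (Λ C : Type) : Set (Lad Λ C × (Λ → C)) := {z | ∀ j c, z.1 = Lad.r j c → ∃ i, z.2 i = c}

/-- Complete regularity of a subspace from sets clopen at the points of the subspace. -/
lemma cr_of_base {Z : Type*} [TopologicalSpace Z] (D : Set Z)
    (h : ∀ z ∈ D, ∀ N ∈ 𝓝 z, ∃ U ⊆ N, z ∈ U ∧
      ∀ z' ∈ D, (z' ∈ U → U ∈ 𝓝 z') ∧ (z' ∉ U → Uᶜ ∈ 𝓝 z')) : CompletelyRegularSpace D := by
  classical
  refine ⟨fun z K hK hzK => ?_⟩
  obtain ⟨N, hN, hNK⟩ := mem_nhds_subtype D z Kᶜ |>.1 (hK.isOpen_compl.mem_nhds hzK)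
  obtain ⟨U, hUN, hzU, hU⟩ := h z.1 z.2 N hN
  have hc : IsClopen (Subtype.val ⁻¹' U : Set D) := by
    constructor
    · rw [← isOpen_compl_iff, isOpen_iff_mem_nhds]
      intro w hw
      exact continuous_subtype_val.continuousAt.preimage_mem_nhds ((hU w.1 w.2).2 hw)
    · rw [isOpen_iff_mem_nhds]
      intro w hw
      exact continuous_subtype_val.continuousAt.preimage_mem_nhds ((hU w.1 w.2).1 hw)
  refine ⟨fun w => if w.1 ∈ U then 0 else 1, ?_, ?_, ?_⟩
  · exact continuous_const.if (by
      intro w hw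
      have : frontier (Subtype.val ⁻¹' U : Set D) = ∅ := hc.frontier_eq
      have h2 : w ∈ frontier (Subtype.val ⁻¹' U : Set D) := hw
      rw [this] at h2
      exact h2.elim) continuous_const
  · exact if_pos hzU
  · intro w hw
    refine if_neg fun hwU => ?_
    exact (hNK (show w ∈ Subtype.val ⁻¹' N from hUN hwU)) hw

theorem cr_DC [Infinite Λ] [TopologicalSpace C] [DiscreteTopology C] :
    CompletelyRegularSpace (DC Λ C) := by
  classical
  apply cr_of_base
  rintro ⟨x, k⟩ hz N hN
  obtain ⟨N1, hN1, N2, hN2, hNN⟩ := mem_nhds_prod_iff.1 hN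
  obtain ⟨F, hF⟩ := exists_cyl hN2
  have hclopen : ∀ U : Set (Lad Λ C), IsClopen U → U ⊆ N1 → x ∈ U →
      ∃ V ⊆ N, (x, k) ∈ V ∧ ∀ z' ∈ DC Λ C, (z' ∈ V → V ∈ 𝓝 z') ∧ (z' ∉ V → Vᶜ ∈ 𝓝 z') := by
    intro U hU hUN hxU
    have hcyl : IsClopen (cyl F k) := by
      refine ⟨?_, isOpen_cyl F k⟩
      rw [← isOpen_compl_iff, isOpen_iff_mem_nhds]
      intro k' hk'
      refine mem_of_superset (cyl_mem_nhds F k') ?_
      intro k'' hk'' h
      apply hk'
      rw [← cyl_eq h, cyl_eq hk'']
      exact mem_cyl_self _ _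
    have hV : IsClopen (U ×ˢ cyl F k) := hU.prod hcyl
    refine ⟨U ×ˢ cyl F k, ?_, ⟨hxU, mem_cyl_self _ _⟩, ?_⟩
    · exact (prod_mono hUN hF).trans hNN
    · intro z' _
      exact ⟨fun h => hV.isOpen.mem_nhds h, fun h => hV.compl.isOpen.mem_nhds h⟩
  rcases x with _ | ⟨j, E⟩ | ⟨j, c⟩ | ⟨j, E, c⟩ | ⟨j, E, c⟩
  · -- the point `a`
    obtain ⟨n, hn⟩ := of_mem_nhds_a hN1
    let V : Set (Lad Λ C × (Λ → C)) := {z | z.2 ∈ cyl F k ∧ (z.1 = Lad.a ∨ 4 * n + 2 ≤ lev z.1 ∨
      ∃ E c, z.1 = Lad.ql n E c ∧ ∃ i ∈ E, z.2 i = c)}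
    refine ⟨V, ?_, ⟨mem_cyl_self _ _, Or.inl rfl⟩, ?_⟩
    · rintro ⟨x, k'⟩ ⟨hk', hx⟩
      apply hNN
      refine ⟨?_, hF hk'⟩
      rcases hx with hx | hx | ⟨E, c, hx, _⟩
      · change x = Lad.a at hx
        subst hx
        exact mem_of_mem_nhds hN1
      · apply hn
        change 4 * n + 2 ≤ lev x at hx
        change n ≤ lev x
        omega
      · change x = Lad.ql n E c at hx
        subst hx
        apply hn
        change n ≤ 4 * n + 1
        omega
    · -- `V` is clopen at the points of the subspace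
      rintro ⟨x, k'⟩ hz'
      -- membership depends only on few coordinates
      by_cases hk' : k' ∈ cyl F k
      · -- it suffices to treat the condition on the first coordinate
        have hred : ∀ (S : Set (Lad Λ C × (Λ → C))), S ∈ 𝓝 (x, k') →
            S ∩ {z | z.2 ∈ cyl F k} ∈ 𝓝 (x, k') := by
          intro S hS
          refine inter_mem hS ?_
          exact continuous_snd.continuousAt.preimage_mem_nhds
            ((isOpen_cyl F k).mem_nhds hk')
        let V' : Set (Lad Λ C × (Λ → C)) := {z | z.1 = Lad.a ∨ 4 * n + 2 ≤ lev z.1 ∨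
          ∃ E c, z.1 = Lad.ql n E c ∧ ∃ i ∈ E, z.2 i = c}
        have hVV' : ∀ z : Lad Λ C × (Λ → C), z.2 ∈ cyl F k → (z ∈ V ↔ z ∈ V') := fun z hz =>
          ⟨fun h => h.2, fun h => ⟨hz, h⟩⟩
        have main : ((x, k') ∈ V' → V' ∈ 𝓝 (x, k')) ∧ ((x, k') ∉ V' → V'ᶜ ∈ 𝓝 (x, k')) := by
          rcases x with _ | ⟨j, E⟩ | ⟨j, c⟩ | ⟨j, E, c⟩ | ⟨j, E, c⟩
          · -- `a`
            constructor
            · intro _
              have h1 : {x : Lad Λ C | x = Lad.a ∨ 4 * n + 2 ≤ lev x} ∈ 𝓝 (Lad.a : Lad Λ C) :=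
                mem_nhds_a (Or.inl rfl) (4 * n + 2) fun x hx => Or.inr hx
              refine mem_of_superset (prod_mem_nhds h1 univ_mem) ?_
              rintro ⟨y, k''⟩ ⟨hy, _⟩
              rcases hy with hy | hy
              · exact Or.inl hy
              · exact Or.inr (Or.inl hy)
            · intro h
              exact absurd (Or.inl rfl) h
          · -- `t j E`
            constructor
            · intro h
              have hj : n < j := by
                rcases h with h | h | ⟨E', c', h, _⟩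
                · cases h
                · change 4 * n + 2 ≤ 4 * j at h
                  omega
                · cases h
              have h1 : Bt j E (∅ : Finset C) ∈ 𝓝 (Lad.t j E : Lad Λ C) :=
                (isClopen_Bt j E ∅).isOpen.mem_nhds (Or.inl rfl)
              refine mem_of_superset (prod_mem_nhds h1 univ_mem) ?_
              rintro ⟨y, k''⟩ ⟨hy, _⟩
              right; left
              rcases hy with hy | ⟨c, _, hy | ⟨j', hj', hy⟩⟩
              · change y = _ at hy
                subst hy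
                change 4 * n + 2 ≤ 4 * j
                omega
              · change y = _ at hy
                subst hy
                change 4 * n + 2 ≤ 4 * j + 1
                omega
              · change y = _ at hy
                subst hy
                change 4 * n + 2 ≤ 4 * j' + 3
                omega
            · intro h
              have hj : j ≤ n := by
                by_contra hlt
                apply h
                right; left
                change 4 * n + 2 ≤ 4 * j
                omega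
              have h1 : Bt j E (E.image k') ∈ 𝓝 (Lad.t j E : Lad Λ C) :=
                (isClopen_Bt j E _).isOpen.mem_nhds (Or.inl rfl)
              refine mem_of_superset (prod_mem_nhds h1 (cyl_mem_nhds E k')) ?_
              rintro ⟨y, k''⟩ ⟨hy, hk''⟩ hin
              rcases hy with hy | ⟨c, hc, hy | ⟨j', hj', hy⟩⟩
              · change y = _ at hy
                subst hy
                rcases hin with h | h | ⟨E', c', h, _⟩
                · cases h
                · change 4 * n + 2 ≤ 4 * j at h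
                  omega
                · cases h
              · change y = _ at hy
                subst hy
                rcases hin with h | h | ⟨E', c', h, i, hi, hic⟩
                · cases h
                · change 4 * n + 2 ≤ 4 * j + 1 at h
                  omega
                · simp only [Lad.ql.injEq] at h
                  obtain ⟨_, rfl, rfl⟩ := h
                  apply hc
                  rw [Finset.mem_image]
                  exact ⟨i, hi, (hk'' i hi).symm.trans hic⟩
              · change y = _ at hy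
                subst hy
                rcases hin with h | h | ⟨E', c', h, _⟩
                · cases h
                · change 4 * n + 2 ≤ 4 * j' + 3 at h
                  omega
                · cases h
          · -- `r j c`
            obtain ⟨i, hi⟩ := hz' j c rfl
            constructor
            · intro h
              have hj : n ≤ j := by
                rcases h with h | h | ⟨E', c', h, _⟩
                · cases h
                · change 4 * n + 2 ≤ 4 * j + 2 at h
                  omega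
                · cases h
              have h1 : Br j c ({i} : Finset Λ) ∈ 𝓝 (Lad.r j c : Lad Λ C) :=
                (isClopen_Br j c _).isOpen.mem_nhds (Or.inl rfl)
              refine mem_of_superset (prod_mem_nhds h1 (cyl_mem_nhds {i} k')) ?_
              rintro ⟨y, k''⟩ ⟨hy, hk''⟩
              rcases hy with hy | ⟨E, hE, hy | hy⟩
              · change y = _ at hy
                subst hy
                right; left
                change 4 * n + 2 ≤ 4 * j + 2
                omega
              · change y = _ at hy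
                subst hy
                rcases hj.lt_or_eq with hj | hj
                · right; left
                  change 4 * n + 2 ≤ 4 * j + 1
                  omega
                · right; right
                  refine ⟨E, c, by rw [hj], i, hE (Finset.mem_singleton_self i), ?_⟩
                  exact (hk'' i (Finset.mem_singleton_self i)).trans hi
              · change y = _ at hy
                subst hy
                right; left
                change 4 * n + 2 ≤ 4 * j + 3
                omega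
            · intro h
              have hj : j < n := by
                by_contra hlt
                apply h
                right; left
                change 4 * n + 2 ≤ 4 * j + 2
                omega
              have h1 : Br j c (∅ : Finset Λ) ∈ 𝓝 (Lad.r j c : Lad Λ C) :=
                (isClopen_Br j c _).isOpen.mem_nhds (Or.inl rfl)
              refine mem_of_superset (prod_mem_nhds h1 univ_mem) ?_
              rintro ⟨y, k''⟩ ⟨hy, _⟩ hin
              rcases hy with hy | ⟨E, hE, hy | hy⟩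
              · change y = _ at hy
                subst hy
                rcases hin with h | h | ⟨E', c', h, _⟩
                · cases h
                · change 4 * n + 2 ≤ 4 * j + 2 at h
                  omega
                · cases h
              · change y = _ at hy
                subst hy
                rcases hin with h | h | ⟨E', c', h, _⟩
                · cases h
                · change 4 * n + 2 ≤ 4 * j + 1 at h
                  omega
                · simp only [Lad.ql.injEq] at h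
                  omega
              · change y = _ at hy
                subst hy
                rcases hin with h | h | ⟨E', c', h, _⟩
                · cases h
                · change 4 * n + 2 ≤ 4 * j + 3 at h
                  omega
                · cases h
          · -- `ql j E c`
            have hconst : ∀ k'' ∈ cyl E k', (((Lad.ql j E c, k'') : Lad Λ C × (Λ → C)) ∈ V' ↔
                ((Lad.ql j E c, k') : Lad Λ C × (Λ → C)) ∈ V') := by
              intro k'' hk''
              constructor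
              · rintro (h | h | ⟨E', c', h, i, hi, hic⟩)
                · exact Or.inl h
                · exact Or.inr (Or.inl h)
                · right; right
                  have h2 := h
                  simp only [Lad.ql.injEq] at h2
                  refine ⟨E', c', h, i, hi, ?_⟩
                  rw [← hic]
                  exact (hk'' i (by rw [h2.2.1]; exact hi)).symm
              · rintro (h | h | ⟨E', c', h, i, hi, hic⟩)
                · exact Or.inl h
                · exact Or.inr (Or.inl h)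
                · right; right
                  have h2 := h
                  simp only [Lad.ql.injEq] at h2
                  refine ⟨E', c', h, i, hi, ?_⟩
                  rw [← hic]
                  exact hk'' i (by rw [h2.2.1]; exact hi)
            have h1 : {Lad.ql j E c} ∈ 𝓝 (Lad.ql j E c : Lad Λ C) := mem_nhds_ql rfl
            constructor
            · intro h
              refine mem_of_superset (prod_mem_nhds h1 (cyl_mem_nhds E k')) ?_
              rintro ⟨y, k''⟩ ⟨hy, hk''⟩
              change y = _ at hy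
              subst hy
              exact (hconst k'' hk'').2 h
            · intro h
              refine mem_of_superset (prod_mem_nhds h1 (cyl_mem_nhds E k')) ?_
              rintro ⟨y, k''⟩ ⟨hy, hk''⟩ hin
              change y = _ at hy
              subst hy
              exact h ((hconst k'' hk'').1 hin)
          · -- `qr j E c`
            have h1 : {Lad.qr j E c} ∈ 𝓝 (Lad.qr j E c : Lad Λ C) := mem_nhds_qr rfl
            have hconst : ∀ k'' : Λ → C, (((Lad.qr j E c, k'') : Lad Λ C × (Λ → C)) ∈ V' ↔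
                ((Lad.qr j E c, k') : Lad Λ C × (Λ → C)) ∈ V') := by
              intro k''
              constructor
              · rintro (h | h | ⟨E', c', h, _⟩)
                · exact Or.inl h
                · exact Or.inr (Or.inl h)
                · cases h
              · rintro (h | h | ⟨E', c', h, _⟩)
                · exact Or.inl h
                · exact Or.inr (Or.inl h)
                · cases h
            constructor
            · intro h
              refine mem_of_superset (prod_mem_nhds h1 univ_mem) ?_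
              rintro ⟨y, k''⟩ ⟨hy, _⟩
              change y = _ at hy
              subst hy
              exact (hconst k'').2 h
            · intro h
              refine mem_of_superset (prod_mem_nhds h1 univ_mem) ?_
              rintro ⟨y, k''⟩ ⟨hy, _⟩ hin
              change y = _ at hy
              subst hy
              exact h ((hconst k'').1 hin)
        constructor
        · intro h
          refine mem_of_superset (hred _ (main.1 ((hVV' _ hk').1 h))) ?_
          rintro z ⟨h1, h2⟩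
          exact (hVV' z h2).2 h1
        · intro h
          refine mem_of_superset (hred _ (main.2 fun h' => h ((hVV' _ hk').2 h'))) ?_
          rintro z ⟨h1, h2⟩ h3
          exact h1 ((hVV' z h2).1 h3)
      · constructor
        · intro h
          exact absurd h.1 hk'
        · intro _
          have h1 : {z : Lad Λ C × (Λ → C) | z.2 ∈ cyl F k'} ∈ 𝓝 (x, k') :=
            continuous_snd.continuousAt.preimage_mem_nhds (cyl_mem_nhds F k')
          refine mem_of_superset h1 ?_
          rintro z hz2 hzV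
          apply hk'
          have h2 : cyl F z.2 = cyl F k' := cyl_eq hz2
          have h3 : cyl F z.2 = cyl F k := cyl_eq hzV.1
          rw [← h3, h2]
          exact mem_cyl_self _ _
  · obtain ⟨W, hW⟩ := of_mem_nhds_t hN1
    refine hclopen (Bt j E W) (isClopen_Bt j E W) ?_ (Or.inl rfl)
    rintro x (rfl | ⟨c, hc, rfl | ⟨j', hj', rfl⟩⟩)
    · exact mem_of_mem_nhds hN1
    · exact (hW c hc).1
    · exact (hW c hc).2 j' hj'
  · obtain ⟨E', hE'⟩ := of_mem_nhds_r hN1
    refine hclopen (Br j c E') (isClopen_Br j c E') ?_ (Or.inl rfl)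
    rintro x (rfl | ⟨E, hE, rfl | rfl⟩)
    · exact mem_of_mem_nhds hN1
    · exact (hE' E hE).1
    · exact (hE' E hE).2
  · exact hclopen {Lad.ql j E c} (isClopen_singleton_ql j E c)
      (singleton_subset_iff.2 (mem_of_mem_nhds hN1)) rfl
  · exact hclopen {Lad.qr j E c} (isClopen_singleton_qr j E c)
      (singleton_subset_iff.2 (mem_of_mem_nhds hN1)) rfl

end Pool.Agent.R820.Ladder
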