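import Pool.Agent.R820.SigmaSep

/-!
# A non-normal plank and a normal subspace of its product with a power of a discrete space
-/

namespace Pool.Agent.R820.Plank

open Set Topology Filter Pool.Agent.R820.SigmaSep

/-- The points of the plank `([Λ]^{<ω} ∪ {∞}) × (C ∪ {∞})` without the corner. -/
inductive Pt (Λ C : Type) : Type
  | q (E : Finset Λ) (c : C)
  | t (E : Finset Λ)
  | r (c : C)

variable {Λ C : Type}

/-- `q E c` is isolated, `q E c` tends to `t E` as `c` leaves finite sets, and `q E c` tends to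
`r c` along the directed set of the finite sets `E`. -/
instance : TopologicalSpace (Pt Λ C) where
  IsOpen U := (∀ E, Pt.t E ∈ U → ∃ W : Finset C, ∀ c, c ∉ W → Pt.q E c ∈ U) ∧
    ∀ c, Pt.r c ∈ U → ∃ E' : Finset Λ, ∀ E, E' ⊆ E → Pt.q E c ∈ U
  isOpen_univ := ⟨fun _ _ => ⟨∅, fun _ _ => trivial⟩, fun _ _ => ⟨∅, fun _ _ => trivial⟩⟩
  isOpen_inter := by
    classical
    rintro U V ⟨hU1, hU2⟩ ⟨hV1, hV2⟩
    refine ⟨fun E hE => ?_, fun c hc => ?_⟩
    · obtain ⟨W, hW⟩ := hU1 E hE.1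
      obtain ⟨W', hW'⟩ := hV1 E hE.2
      refine ⟨W ∪ W', fun c hc => ?_⟩
      rw [Finset.mem_union, not_or] at hc
      exact ⟨hW c hc.1, hW' c hc.2⟩
    · obtain ⟨E, hE⟩ := hU2 c hc.1
      obtain ⟨E', hE'⟩ := hV2 c hc.2
      refine ⟨E ∪ E', fun E'' h => ?_⟩
      exact ⟨hE _ (Finset.union_subset_left h), hE' _ (Finset.union_subset_right h)⟩
  isOpen_sUnion := by
    rintro S hS
    refine ⟨fun E hE => ?_, fun c hc => ?_⟩
    · obtain ⟨U, hU, hEU⟩ := hE
      obtain ⟨W, hW⟩ := (hS U hU).1 E hEU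
      exact ⟨W, fun c hc => ⟨U, hU, hW c hc⟩⟩
    · obtain ⟨U, hU, hcU⟩ := hc
      obtain ⟨E, hE⟩ := (hS U hU).2 c hcU
      exact ⟨E, fun E' h => ⟨U, hU, hE E' h⟩⟩

lemma isOpen_iff (U : Set (Pt Λ C)) : IsOpen U ↔
    (∀ E, Pt.t E ∈ U → ∃ W : Finset C, ∀ c, c ∉ W → Pt.q E c ∈ U) ∧
    ∀ c, Pt.r c ∈ U → ∃ E' : Finset Λ, ∀ E, E' ⊆ E → Pt.q E c ∈ U := Iff.rfl

lemma mem_nhds_q {U : Set (Pt Λ C)} {E : Finset Λ} {c : C} (h : Pt.q E c ∈ U) :
    U ∈ 𝓝 (Pt.q E c) := by
  refine mem_nhds_iff.2 ⟨{Pt.q E c}, singleton_subset_iff.2 h, ?_, rfl⟩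
  rw [isOpen_iff]
  constructor
  · intro E' h'
    cases h'
  · intro c' h'
    cases h'

lemma mem_nhds_t {U : Set (Pt Λ C)} {E : Finset Λ} (h : Pt.t E ∈ U) (W : Finset C)
    (hW : ∀ c, c ∉ W → Pt.q E c ∈ U) : U ∈ 𝓝 (Pt.t E) := by
  refine mem_nhds_iff.2 ⟨{Pt.t E} ∪ {x | ∃ c, c ∉ W ∧ x = Pt.q E c}, ?_, ?_, Or.inl rfl⟩
  · rintro x (rfl | ⟨c, hc, rfl⟩)
    · exact h
    · exact hW c hc
  · rw [isOpen_iff]
    constructor
    · rintro E' (h' | ⟨c, _, h'⟩)
      · have : E' = E := by simpa using h'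
        subst this
        exact ⟨W, fun c hc => Or.inr ⟨c, hc, rfl⟩⟩
      · cases h'
    · rintro c' (h' | ⟨c, _, h'⟩)
      · cases h'
      · cases h'

lemma mem_nhds_r {U : Set (Pt Λ C)} {c : C} (h : Pt.r c ∈ U) (E' : Finset Λ)
    (hE : ∀ E, E' ⊆ E → Pt.q E c ∈ U) : U ∈ 𝓝 (Pt.r c) := by
  refine mem_nhds_iff.2 ⟨{Pt.r c} ∪ {x | ∃ E, E' ⊆ E ∧ x = Pt.q E c}, ?_, ?_, Or.inl rfl⟩
  · rintro x (rfl | ⟨E, hE', rfl⟩)
    · exact h
    · exact hE E hE'
  · rw [isOpen_iff]
    constructor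
    · rintro E'' (h' | ⟨E, _, h'⟩)
      · cases h'
      · cases h'
    · rintro c' (h' | ⟨E, _, h'⟩)
      · have : c' = c := by simpa using h'
        subst this
        exact ⟨E', fun E hE => Or.inr ⟨E, hE, rfl⟩⟩
      · cases h'

lemma of_mem_nhds_t {U : Set (Pt Λ C)} {E : Finset Λ} (h : U ∈ 𝓝 (Pt.t E)) :
    ∃ W : Finset C, ∀ c, c ∉ W → Pt.q E c ∈ U := by
  obtain ⟨V, hVU, hV, hEV⟩ := mem_nhds_iff.1 h
  obtain ⟨W, hW⟩ := hV.1 E hEV
  exact ⟨W, fun c hc => hVU (hW c hc)⟩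

lemma of_mem_nhds_r {U : Set (Pt Λ C)} {c : C} (h : U ∈ 𝓝 (Pt.r c)) :
    ∃ E' : Finset Λ, ∀ E, E' ⊆ E → Pt.q E c ∈ U := by
  obtain ⟨V, hVU, hV, hcV⟩ := mem_nhds_iff.1 h
  obtain ⟨E, hE⟩ := hV.2 c hcV
  exact ⟨E, fun E' h => hVU (hE E' h)⟩

instance [Infinite Λ] : T1Space (Pt Λ C) := by
  classical
  refine ⟨fun x => ?_⟩
  rw [← isOpen_compl_iff, isOpen_iff]
  constructor
  · intro E _
    rcases x with ⟨E0, c0⟩ | E0 | c0
    · refine ⟨{c0}, fun c hc h => hc ?_⟩
      simp only [mem_singleton_iff, Pt.q.injEq] at h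
      rw [h.2]
      exact Finset.mem_singleton_self _
    · exact ⟨∅, fun c _ h => by simp at h⟩
    · exact ⟨∅, fun c _ h => by simp at h⟩
  · intro c _
    rcases x with ⟨E0, c0⟩ | E0 | c0
    · obtain ⟨i, hi⟩ := Infinite.exists_notMem_finset E0
      refine ⟨{i}, fun E hE h => hi ?_⟩
      simp only [mem_singleton_iff, Pt.q.injEq] at h
      rw [← h.1]
      exact hE (Finset.mem_singleton_self i)
    · exact ⟨∅, fun c _ h => by simp at h⟩
    · exact ⟨∅, fun c _ h => by simp at h⟩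

/-- The plank is not normal. -/
lemma not_normal (hC : ∀ W : Finset Λ → Finset C, ∃ c, ∀ E, c ∉ W E) :
    ¬ NormalSpace (Pt Λ C) := by
  intro hn
  have hT : IsClosed (range (Pt.t : Finset Λ → Pt Λ C)) := by
    rw [← isOpen_compl_iff, isOpen_iff]
    constructor
    · intro E hE
      exact absurd ⟨E, rfl⟩ hE
    · intro c _
      refine ⟨∅, fun E _ h => ?_⟩
      obtain ⟨E', h'⟩ := h
      cases h'
  have hR : IsClosed (range (Pt.r : C → Pt Λ C)) := by
    rw [← isOpen_compl_iff, isOpen_iff]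
    constructor
    · intro E _
      refine ⟨∅, fun c _ h => ?_⟩
      obtain ⟨c', h'⟩ := h
      cases h'
    · intro c hc
      exact absurd ⟨c, rfl⟩ hc
  have hd : Disjoint (range (Pt.t : Finset Λ → Pt Λ C)) (range (Pt.r : C → Pt Λ C)) := by
    rw [Set.disjoint_left]
    rintro _ ⟨E, rfl⟩ ⟨c, h⟩
    cases h
  obtain ⟨U, V, hU, hV, hTU, hRV, hUV⟩ := hn.normal _ _ hT hR hd
  have h1 : ∀ E, ∃ W : Finset C, ∀ c, c ∉ W → Pt.q E c ∈ U := fun E => hU.1 E (hTU ⟨E, rfl⟩)
  choose W hW using h1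
  obtain ⟨c, hc⟩ := hC W
  obtain ⟨E, hE⟩ := hV.2 c (hRV ⟨c, rfl⟩)
  exact Set.disjoint_left.1 hUV (hW E c (hc E)) (hE E Finset.Subset.rfl)

/-! ### The subspace -/

/-- The base values. -/
def base (b : C) : Pt Λ C → C
  | .q _ _ => b
  | .t _ => b
  | .r c => c

/-- The subspace of the product of the plank with `C ^ Λ`. -/
def DD (Λ : Type) {C : Type} (b : C) : Set (Pt Λ C × (Λ → C)) := {z | z.2 ∈ Sig Λ (base b z.1)}

lemma exists_eq_of_mem_Sig [Uncountable Λ] {c : C} {k : Λ → C} (hk : k ∈ Sig Λ c) :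
    ∃ i, k i = c := by
  by_contra h
  push Not at h
  have : {i | k i ≠ c} = univ := eq_univ_of_forall h
  have h2 : (univ : Set Λ).Countable := by rw [← this]; exact hk
  exact not_countable_iff.2 ‹Uncountable Λ› (countable_univ_iff.1 h2)

lemma rr_mem_Sig (c : C) (F : Finset Λ) (k : Λ → C) : rr c F k ∈ Sig Λ c := by
  refine F.countable_toSet.mono ?_
  intro i hi
  by_contra hiF
  apply hi
  simp only [Finset.mem_coe] at hiF
  simp [rr, hiF]

section onePoint

variable [TopologicalSpace C] [DiscreteTopology C]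

lemma onePoint_nhds {U : Set (OnePoint C)} (h : U ∈ 𝓝 (OnePoint.infty : OnePoint C)) :
    ∃ W : Finset C, ∀ c, c ∉ W → (c : OnePoint C) ∈ U := by
  obtain ⟨V, hVU, hV, hiV⟩ := mem_nhds_iff.1 h
  have h1 := (OnePoint.isOpen_def.1 hV).1 hiV
  have h2 : (((↑) : C → OnePoint C) ⁻¹' V)ᶜ.Finite := isCompact_iff_finite.1 h1
  refine ⟨h2.toFinset, fun c hc => hVU ?_⟩
  by_contra hcV
  apply hc
  rw [Finite.mem_toFinset]
  exact hcV

lemma onePoint_isClopen {F : Set (OnePoint C)} (hF : IsClosed F)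
    (h : (OnePoint.infty : OnePoint C) ∉ F) : IsClopen F := by
  refine ⟨hF, ?_⟩
  rw [OnePoint.isOpen_def]
  exact ⟨fun h' => absurd h' h, isOpen_discrete _⟩

lemma onePoint_zero (F G : Set (OnePoint C)) (hF : IsClosed F) (hG : IsClosed G)
    (hd : Disjoint F G) : ∃ U, IsClopen U ∧ F ⊆ U ∧ Disjoint G U := by
  by_cases h : (OnePoint.infty : OnePoint C) ∈ F
  · have h2 : (OnePoint.infty : OnePoint C) ∉ G := Set.disjoint_left.1 hd h
    refine ⟨Gᶜ, (onePoint_isClopen hG h2).compl, ?_, ?_⟩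
    · exact Set.subset_compl_iff_disjoint_right.2 hd
    · exact disjoint_compl_right
  · exact ⟨F, onePoint_isClopen hF h, Subset.rfl, hd.symm⟩

lemma onePoint_tight (S : Set (OnePoint C)) (y : OnePoint C) (hy : y ∈ closure S) :
    ∃ S' ⊆ S, S'.Countable ∧ y ∈ closure S' := by
  by_cases hyS : y ∈ S
  · exact ⟨{y}, singleton_subset_iff.2 hyS, countable_singleton _, subset_closure rfl⟩
  induction y using OnePoint.rec with
  | infty =>
    have hinf : {c : C | (c : OnePoint C) ∈ S}.Infinite := by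
      intro hfin
      have hO : IsOpen (((↑) : C → OnePoint C) '' {c : C | (c : OnePoint C) ∈ S})ᶜ := by
        rw [OnePoint.isOpen_def]
        refine ⟨fun _ => ?_, isOpen_discrete _⟩
        rw [isCompact_iff_finite]
        refine hfin.subset ?_
        intro c hc
        simpa using hc
      obtain ⟨x, hxO, hxS⟩ := mem_closure_iff.1 hy _ hO (by simp)
      induction x using OnePoint.rec with
      | infty => exact hyS hxS
      | coe c => exact hxO ⟨c, hxS, rfl⟩
    let f := Set.Infinite.natEmbedding _ hinf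
    refine ⟨range fun n => ((f n : C) : OnePoint C), ?_, countable_range _, ?_⟩
    · rintro _ ⟨n, rfl⟩
      exact (f n).2
    · rw [mem_closure_iff_nhds]
      intro N hN
      obtain ⟨W, hW⟩ := onePoint_nhds hN
      obtain ⟨n, hn⟩ : ∃ n, (f n : C) ∉ W := by
        by_contra hall
        push Not at hall
        have hinj : Function.Injective fun n => (f n : C) := fun m n h =>
          f.injective (Subtype.ext h)
        exact Set.infinite_range_of_injective hinj (W.finite_toSet.subset (by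
          rintro _ ⟨n, rfl⟩
          exact hall n))
      exact ⟨_, hW _ hn, ⟨n, rfl⟩⟩
  | coe c =>
    exfalso
    apply hyS
    have hO : IsOpen ({(c : OnePoint C)} : Set (OnePoint C)) := by
      rw [OnePoint.isOpen_def]
      exact ⟨fun h => by simp at h, isOpen_discrete _⟩
    obtain ⟨x, hx, hxS⟩ := mem_closure_iff.1 hy _ hO rfl
    rw [mem_singleton_iff.1 hx] at hxS
    exact hxS

/-- The embedding of the row of `E`. -/
def row (E : Finset Λ) : OnePoint C → Pt Λ C
  | none => Pt.t E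
  | some c => Pt.q E c

lemma continuous_row (E : Finset Λ) : Continuous (row (C := C) E) := by
  rw [continuous_def]
  intro U hU
  rw [OnePoint.isOpen_def]
  refine ⟨fun h => ?_, isOpen_discrete _⟩
  obtain ⟨W, hW⟩ := hU.1 E h
  rw [isCompact_iff_finite]
  refine W.finite_toSet.subset ?_
  intro c hc
  by_contra hcW
  exact hc (hW c hcW)

end onePoint

/-! ### Normality -/

/-- Normality of a subspace from separation by sets clopen at the points of the subspace. -/
lemma normal_of_sep {Z : Type*} [TopologicalSpace Z] (D : Set Z)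
    (h : ∀ A B : Set Z, A ⊆ D → B ⊆ D → (∀ z ∈ D, z ∈ closure A → z ∈ A) →
      (∀ z ∈ D, z ∈ closure B → z ∈ B) → Disjoint A B →
      ∃ O : Set Z, A ⊆ O ∧ Disjoint B O ∧
        ∀ z ∈ D, (z ∈ O → O ∈ 𝓝 z) ∧ (z ∉ O → Oᶜ ∈ 𝓝 z)) : NormalSpace D := by
  refine ⟨fun A B hA hB hAB => ?_⟩
  have hcl : ∀ A : Set D, IsClosed A → ∀ z ∈ D, z ∈ closure (Subtype.val '' A) →
      z ∈ Subtype.val '' A := by
    intro A hA z hz hzA
    have h1 : (⟨z, hz⟩ : D) ∈ closure A := closure_subtype.2 hzA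
    rw [hA.closure_eq] at h1
    exact ⟨_, h1, rfl⟩
  obtain ⟨O, hAO, hBO, hO⟩ := h (Subtype.val '' A) (Subtype.val '' B)
    (by rintro _ ⟨z, _, rfl⟩; exact z.2) (by rintro _ ⟨z, _, rfl⟩; exact z.2)
    (hcl A hA) (hcl B hB) (by
      rw [Set.disjoint_left]
      rintro _ ⟨z, hz, rfl⟩ ⟨z', hz', h'⟩
      rw [Subtype.ext h'] at hz'
      exact Set.disjoint_left.1 hAB hz hz')
  refine ⟨Subtype.val ⁻¹' O, Subtype.val ⁻¹' Oᶜ, ?_, ?_, ?_, ?_, ?_⟩
  · rw [isOpen_iff_mem_nhds]
    intro z hz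
    exact continuous_subtype_val.continuousAt.preimage_mem_nhds ((hO z.1 z.2).1 hz)
  · rw [isOpen_iff_mem_nhds]
    intro z hz
    exact continuous_subtype_val.continuousAt.preimage_mem_nhds ((hO z.1 z.2).2 hz)
  · intro z hz
    exact hAO ⟨z, hz, rfl⟩
  · intro z hz hzO
    exact Set.disjoint_left.1 hBO ⟨z, hz, rfl⟩ hzO
  · rw [Set.disjoint_left]
    intro z h1 h2
    exact h2 h1

theorem normal_DD [Uncountable Λ] [TopologicalSpace C] [DiscreteTopology C] (b : C) :
    NormalSpace (DD Λ b) := by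
  classical
  have hneΛ : Nonempty Λ := inferInstance
  apply normal_of_sep
  intro A B hAD hBD hAcl hBcl hdis
  have hAB : ∀ z ∈ DD Λ b, z ∉ closure A ∨ z ∉ closure B := by
    intro z hz
    by_contra hno
    push Not at hno
    exact Set.disjoint_left.1 hdis (hAcl z hz hno.1) (hBcl z hz hno.2)
  -- separation in the rows
  have hrow : ∀ E : Finset Λ, ∃ O : Set (OnePoint C × (Λ → C)),
      (∀ y k, (row E y, k) ∈ A → (y, k) ∈ O) ∧ (∀ y k, (row E y, k) ∈ B → (y, k) ∉ O) ∧
      ∀ z : OnePoint C × (Λ → C), z.2 ∈ Sig Λ b → (z ∈ O → O ∈ 𝓝 z) ∧ (z ∉ O → Oᶜ ∈ 𝓝 z) := by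
    intro E
    let ι : OnePoint C × (Λ → C) → Pt Λ C × (Λ → C) := fun z => (row E z.1, z.2)
    have hι : Continuous ι := ((continuous_row E).comp continuous_fst).prodMk continuous_snd
    have hbase : ∀ y : OnePoint C, base b (row E y : Pt Λ C) = b := by
      intro y
      induction y using OnePoint.rec with
      | infty => rfl
      | coe c => rfl
    obtain ⟨O, h1, h2, h3⟩ := separation onePoint_zero onePoint_tight b
      (A := ι ⁻¹' A) (B := ι ⁻¹' B) (by
        intro z hz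
        have := hAD hz
        change z.2 ∈ Sig Λ (base b (row E z.1)) at this
        rwa [hbase] at this) (by
        intro z hz
        have := hBD hz
        change z.2 ∈ Sig Λ (base b (row E z.1)) at this
        rwa [hbase] at this) (by
        intro z hz
        have hzD : ι z ∈ DD Λ b := by
          change z.2 ∈ Sig Λ (base b (row E z.1))
          rwa [hbase]
        rcases hAB _ hzD with h | h
        · left
          exact fun h' => h (closure_mono (image_preimage_subset _ _)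
            (image_closure_subset_closure_image hι ⟨z, h', rfl⟩))
        · right
          exact fun h' => h (closure_mono (image_preimage_subset _ _)
            (image_closure_subset_closure_image hι ⟨z, h', rfl⟩)))
    refine ⟨O, fun y k h => h1 h, fun y k h h' => Set.disjoint_left.1 h2 h h', h3⟩
  choose T hTA hTB hT using hrow
  -- separation in the limit points of the columns
  have hcol : ∀ c : C, ∃ G : Set (Λ → C),
      (∀ k, (Pt.r c, k) ∈ A → k ∈ G) ∧ (∀ k, (Pt.r c, k) ∈ B → k ∉ G) ∧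
      ∀ k ∈ Sig Λ c, (k ∈ G → G ∈ 𝓝 k) ∧ (k ∉ G → Gᶜ ∈ 𝓝 k) := by
    intro c
    let ι : Unit × (Λ → C) → Pt Λ C × (Λ → C) := fun z => (Pt.r c, z.2)
    have hι : Continuous ι := continuous_const.prodMk continuous_snd
    obtain ⟨O, h1, h2, h3⟩ := separation (Y := Unit) (by
        intro F G _ _ hd
        exact ⟨F, isClopen_discrete F, Subset.rfl, hd.symm⟩) (by
        intro S y hy
        exact ⟨S, Subset.rfl, S.to_countable, hy⟩) c
      (A := ι ⁻¹' A) (B := ι ⁻¹' B) (fun z hz => hAD hz) (fun z hz => hBD hz) (by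
        intro z hz
        have hzD : ι z ∈ DD Λ b := hz
        rcases hAB _ hzD with h | h
        · left
          exact fun h' => h (closure_mono (image_preimage_subset _ _)
            (image_closure_subset_closure_image hι ⟨z, h', rfl⟩))
        · right
          exact fun h' => h (closure_mono (image_preimage_subset _ _)
            (image_closure_subset_closure_image hι ⟨z, h', rfl⟩)))
    have hj : Continuous fun k : Λ → C => (((), k) : Unit × (Λ → C)) :=
      continuous_const.prodMk continuous_id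
    refine ⟨{k | ((), k) ∈ O}, fun k h => h1 h, fun k h h' => Set.disjoint_left.1 h2 h h', ?_⟩
    intro k hk
    exact ⟨fun h => hj.continuousAt.preimage_mem_nhds ((h3 ((), k) hk).1 h),
      fun h => hj.continuousAt.preimage_mem_nhds ((h3 ((), k) hk).2 h)⟩
  choose G hGA hGB hG using hcol
  -- the positive and the negative parts in the columns
  let P : Finset Λ → C → Set (Λ → C) := fun E c => {k | ∃ F ⊆ E, cyl F k ∩ Sig Λ c ⊆ G c ∧
    ∀ E', E ⊆ E' → ∀ k' ∈ cyl F k, (Pt.q E' c, k') ∉ B}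
  let M : Finset Λ → C → Set (Λ → C) := fun E c => {k | ∃ F ⊆ E, cyl F k ∩ Sig Λ c ⊆ (G c)ᶜ ∧
    ∀ E', E ⊆ E' → ∀ k' ∈ cyl F k, (Pt.q E' c, k') ∉ A}
  have hPcyl : ∀ E c k k', k' ∈ cyl E k → (k' ∈ P E c ↔ k ∈ P E c) := by
    intro E c k k' hk
    have h1 : ∀ F ⊆ E, cyl F k' = cyl F k := fun F hF => cyl_eq (cyl_anti hF k hk)
    constructor
    · rintro ⟨F, hF, h2⟩
      rw [h1 F hF] at h2
      exact ⟨F, hF, h2⟩
    · rintro ⟨F, hF, h2⟩
      rw [← h1 F hF] at h2
      exact ⟨F, hF, h2⟩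
  have hMcyl : ∀ E c k k', k' ∈ cyl E k → (k' ∈ M E c ↔ k ∈ M E c) := by
    intro E c k k' hk
    have h1 : ∀ F ⊆ E, cyl F k' = cyl F k := fun F hF => cyl_eq (cyl_anti hF k hk)
    constructor
    · rintro ⟨F, hF, h2⟩
      rw [h1 F hF] at h2
      exact ⟨F, hF, h2⟩
    · rintro ⟨F, hF, h2⟩
      rw [← h1 F hF] at h2
      exact ⟨F, hF, h2⟩
  let H : Finset Λ → C → Set (Λ → C) := fun E c => {k | (∃ i ∈ E, k i = c)}
  have hHcyl : ∀ E c k k', k' ∈ cyl E k → (k' ∈ H E c ↔ k ∈ H E c) := by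
    intro E c k k' hk
    constructor
    · rintro ⟨i, hi, h⟩
      exact ⟨i, hi, by rw [← hk i hi]; exact h⟩
    · rintro ⟨i, hi, h⟩
      exact ⟨i, hi, by rw [hk i hi]; exact h⟩
  let O : Set (Pt Λ C × (Λ → C)) := {z | match z.1 with
    | .q E c => (z.2 ∈ H E c ∧ (z.2 ∈ P E c ∨ (z.2 ∉ M E c ∧ ((c : OnePoint C), z.2) ∈ T E))) ∨
      (z.2 ∉ H E c ∧ ((c : OnePoint C), z.2) ∈ T E)
    | .t E => ((OnePoint.infty : OnePoint C), z.2) ∈ T E
    | .r c => z.2 ∈ G c}
  have hOq : ∀ E c k, ((Pt.q E c, k) : Pt Λ C × (Λ → C)) ∈ O ↔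
      (k ∈ H E c ∧ (k ∈ P E c ∨ (k ∉ M E c ∧ ((c : OnePoint C), k) ∈ T E))) ∨
      (k ∉ H E c ∧ ((c : OnePoint C), k) ∈ T E) := fun _ _ _ => Iff.rfl
  have hOt : ∀ E k, ((Pt.t E, k) : Pt Λ C × (Λ → C)) ∈ O ↔
      ((OnePoint.infty : OnePoint C), k) ∈ T E := fun _ _ => Iff.rfl
  have hOr : ∀ c k, ((Pt.r c, k) : Pt Λ C × (Λ → C)) ∈ O ↔ k ∈ G c := fun _ _ => Iff.rfl
  refine ⟨O, ?_, ?_, ?_⟩
  · -- `A ⊆ O`
    rintro ⟨x, k⟩ hz
    rcases x with ⟨E, c⟩ | E | c
    · rw [hOq]
      by_cases hH : k ∈ H E c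
      · left
        refine ⟨hH, Or.inr ⟨?_, hTA E c k hz⟩⟩
        rintro ⟨F, hF, h1, h2⟩
        exact h2 E Finset.Subset.rfl k (mem_cyl_self _ _) hz
      · right
        exact ⟨hH, hTA E c k hz⟩
    · exact hTA E OnePoint.infty k hz
    · exact hGA c k hz
  · -- `B` is disjoint from `O`
    rw [Set.disjoint_left]
    rintro ⟨x, k⟩ hz hzO
    rcases x with ⟨E, c⟩ | E | c
    · rw [hOq] at hzO
      rcases hzO with ⟨_, ⟨F, hF, h1, h2⟩ | ⟨_, h⟩⟩ | ⟨_, h⟩
      · exact h2 E Finset.Subset.rfl k (mem_cyl_self _ _) hz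
      · exact hTB E c k hz h
      · exact hTB E c k hz h
    · exact hTB E OnePoint.infty k hz hzO
    · exact hGB c k hz hzO
  · -- `O` is clopen at the points of the subspace
    rintro ⟨x, k⟩ hz
    rcases x with ⟨E, c⟩ | E | c
    · -- isolated points of the plank
      have hk : k ∈ Sig Λ b := hz
      have hTT := hT E ((c : OnePoint C), k) hk
      have hj : Continuous fun k' : Λ → C => (((c : OnePoint C), k') : OnePoint C × (Λ → C)) :=
        continuous_const.prodMk continuous_id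
      -- a neighbourhood of `k` on which the membership is constant
      obtain ⟨N, hN, hNc⟩ : ∃ N ∈ 𝓝 k, ∀ k' ∈ N,
          (((c : OnePoint C), k') ∈ T E ↔ ((c : OnePoint C), k) ∈ T E) := by
        by_cases hin : ((c : OnePoint C), k) ∈ T E
        · exact ⟨_, hj.continuousAt.preimage_mem_nhds (hTT.1 hin), fun k' hk' =>
            ⟨fun _ => hin, fun _ => hk'⟩⟩
        · exact ⟨_, hj.continuousAt.preimage_mem_nhds (hTT.2 hin), fun k' hk' =>
            ⟨fun h => absurd h hk', fun h => absurd h hin⟩⟩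
      have hconst : ∀ k' ∈ N ∩ cyl E k, (((Pt.q E c, k') : Pt Λ C × (Λ → C)) ∈ O ↔
          ((Pt.q E c, k) : Pt Λ C × (Λ → C)) ∈ O) := by
        rintro k' ⟨h1, h2⟩
        rw [hOq, hOq, hPcyl E c k k' h2, hMcyl E c k k' h2, hHcyl E c k k' h2, hNc k' h1]
      have hnb : {Pt.q E c} ×ˢ (N ∩ cyl E k) ∈ 𝓝 ((Pt.q E c, k) : Pt Λ C × (Λ → C)) :=
        prod_mem_nhds (mem_nhds_q rfl) (inter_mem hN (cyl_mem_nhds E k))
      constructor
      · intro h
        refine mem_of_superset hnb ?_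
        rintro ⟨x', k'⟩ ⟨hx', hk'⟩
        have hx'' : x' = Pt.q E c := hx'
        subst hx''
        exact (hconst k' hk').2 h
      · intro h
        refine mem_of_superset hnb ?_
        rintro ⟨x', k'⟩ ⟨hx', hk'⟩ h'
        have hx'' : x' = Pt.q E c := hx'
        subst hx''
        exact h ((hconst k' hk').1 h')
    · -- the points `t E`
      have hk : k ∈ Sig Λ b := hz
      have hTT := hT E ((OnePoint.infty : OnePoint C), k) hk
      have key : ∀ S : Set (OnePoint C × (Λ → C)),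
          S ∈ 𝓝 ((OnePoint.infty : OnePoint C), k) →
          {z : Pt Λ C × (Λ → C) | (z.1 = Pt.t E ∧ ((OnePoint.infty : OnePoint C), z.2) ∈ S) ∨
            ∃ c, z.1 = Pt.q E c ∧ z.2 ∉ H E c ∧ ((c : OnePoint C), z.2) ∈ S} ∈
            𝓝 ((Pt.t E, k) : Pt Λ C × (Λ → C)) := by
        intro S hS
        obtain ⟨N1, hN1, N2, hN2, hNS⟩ := mem_nhds_prod_iff.1 hS
        obtain ⟨W, hW⟩ := onePoint_nhds hN1
        have h1 : {x : Pt Λ C | x = Pt.t E ∨ ∃ c, c ∉ W ∪ E.image k ∧ x = Pt.q E c} ∈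
            𝓝 (Pt.t E : Pt Λ C) :=
          mem_nhds_t (Or.inl rfl) (W ∪ E.image k) fun c hc => Or.inr ⟨c, hc, rfl⟩
        refine mem_of_superset (prod_mem_nhds h1 (inter_mem hN2 (cyl_mem_nhds E k))) ?_
        rintro ⟨x', k'⟩ ⟨hx', hk'1, hk'2⟩
        rcases hx' with hx' | ⟨c, hc, hx'⟩
        · left
          exact ⟨hx', hNS ⟨mem_of_mem_nhds hN1, hk'1⟩⟩
        · right
          rw [Finset.mem_union, not_or] at hc
          refine ⟨c, hx', ?_, hNS ⟨hW c hc.1, hk'1⟩⟩
          rintro ⟨i, hi, hik⟩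
          apply hc.2
          rw [Finset.mem_image]
          exact ⟨i, hi, by rw [← hk'2 i hi]; exact hik⟩
      constructor
      · intro h
        refine mem_of_superset (key _ (hTT.1 h)) ?_
        rintro ⟨x', k'⟩ (⟨hx', h'⟩ | ⟨c, hx', hH, h'⟩)
        · change x' = Pt.t E at hx'
          subst hx'
          exact h'
        · change x' = Pt.q E c at hx'
          subst hx'
          exact Or.inr ⟨hH, h'⟩
      · intro h
        refine mem_of_superset (key _ (hTT.2 h)) ?_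
        rintro ⟨x', k'⟩ (⟨hx', h'⟩ | ⟨c, hx', hH, h'⟩) hin
        · change x' = Pt.t E at hx'
          subst hx'
          exact h' hin
        · change x' = Pt.q E c at hx'
          subst hx'
          rw [hOq] at hin
          rcases hin with ⟨h1, _⟩ | ⟨_, h1⟩
          · exact hH h1
          · exact h' h1
    · -- the points `r c`
      have hk : k ∈ Sig Λ c := hz
      obtain ⟨i, hi⟩ := exists_eq_of_mem_Sig hk
      have hsep : ∀ (S : Set (Pt Λ C × (Λ → C))), (Pt.r c, k) ∉ closure S →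
          ∃ (E' F : Finset Λ), ∀ E, E' ⊆ E → ∀ k' ∈ cyl F k, (Pt.q E c, k') ∉ S := by
        intro S hS
        have h1 : Sᶜ ∈ 𝓝 ((Pt.r c, k) : Pt Λ C × (Λ → C)) := by
          rw [← mem_interior_iff_mem_nhds, interior_compl]
          exact hS
        obtain ⟨N1, hN1, N2, hN2, hNS⟩ := mem_nhds_prod_iff.1 h1
        obtain ⟨E', hE'⟩ := of_mem_nhds_r hN1
        obtain ⟨F, hF⟩ := exists_cyl hN2
        exact ⟨E', F, fun E hE k' hk' => hNS ⟨hE' E hE, hF hk'⟩⟩
      constructor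
      · intro h
        rw [hOr] at h
        have hnB : (Pt.r c, k) ∉ closure B := fun h' => hGB c k (hBcl _ hz h') h
        obtain ⟨E0, F2, hB2⟩ := hsep B hnB
        obtain ⟨F1, hF1⟩ := exists_cyl ((hG c k hk).1 h)
        let F : Finset Λ := F1 ∪ F2 ∪ {i}
        have hFF1 : F1 ⊆ F := fun j hj => by simp [F, hj]
        have hFF2 : F2 ⊆ F := fun j hj => by simp [F, hj]
        have hiF : i ∈ F := by simp [F]
        have h1 : {x : Pt Λ C | x = Pt.r c ∨ ∃ E, E0 ∪ F ⊆ E ∧ x = Pt.q E c} ∈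
            𝓝 (Pt.r c : Pt Λ C) :=
          mem_nhds_r (Or.inl rfl) (E0 ∪ F) fun E hE => Or.inr ⟨E, hE, rfl⟩
        refine mem_of_superset (prod_mem_nhds h1 (cyl_mem_nhds F k)) ?_
        rintro ⟨x', k'⟩ ⟨hx', hk'⟩
        rcases hx' with hx' | ⟨E, hE, hx'⟩
        · change x' = Pt.r c at hx'
          subst hx'
          exact hF1 (cyl_anti hFF1 k hk')
        · change x' = Pt.q E c at hx'
          subst hx'
          have hFE : F ⊆ E := Finset.union_subset_right hE
          rw [hOq]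
          left
          refine ⟨⟨i, hFE hiF, (hk' i hiF).trans hi⟩, Or.inl ⟨F, hFE, ?_, ?_⟩⟩
          · rw [cyl_eq hk']
            exact fun k'' hk'' => hF1 (cyl_anti hFF1 k hk''.1)
          · rw [cyl_eq hk']
            intro E' hEE' k'' hk''
            exact hB2 E' ((Finset.union_subset_left hE).trans hEE') k'' (cyl_anti hFF2 k hk'')
      · intro h
        rw [hOr] at h
        have hnA : (Pt.r c, k) ∉ closure A := fun h' => h (hGA c k (hAcl _ hz h'))
        obtain ⟨E0, F2, hA2⟩ := hsep A hnA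
        obtain ⟨F1, hF1⟩ := exists_cyl ((hG c k hk).2 h)
        let F : Finset Λ := F1 ∪ F2 ∪ {i}
        have hFF1 : F1 ⊆ F := fun j hj => by simp [F, hj]
        have hFF2 : F2 ⊆ F := fun j hj => by simp [F, hj]
        have hiF : i ∈ F := by simp [F]
        have h1 : {x : Pt Λ C | x = Pt.r c ∨ ∃ E, E0 ∪ F ⊆ E ∧ x = Pt.q E c} ∈
            𝓝 (Pt.r c : Pt Λ C) :=
          mem_nhds_r (Or.inl rfl) (E0 ∪ F) fun E hE => Or.inr ⟨E, hE, rfl⟩
        refine mem_of_superset (prod_mem_nhds h1 (cyl_mem_nhds F k)) ?_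
        rintro ⟨x', k'⟩ ⟨hx', hk'⟩ hin
        rcases hx' with hx' | ⟨E, hE, hx'⟩
        · change x' = Pt.r c at hx'
          subst hx'
          exact hF1 (cyl_anti hFF1 k hk') hin
        · change x' = Pt.q E c at hx'
          subst hx'
          have hFE : F ⊆ E := Finset.union_subset_right hE
          have hH : k' ∈ H E c := ⟨i, hFE hiF, (hk' i hiF).trans hi⟩
          have hM : k' ∈ M E c := by
            refine ⟨F, hFE, ?_, ?_⟩
            · rw [cyl_eq hk']
              exact fun k'' hk'' => hF1 (cyl_anti hFF1 k hk''.1)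
            · rw [cyl_eq hk']
              intro E' hEE' k'' hk''
              exact hA2 E' ((Finset.union_subset_left hE).trans hEE') k'' (cyl_anti hFF2 k hk'')
          have hP : k' ∉ P E c := by
            rintro ⟨F', hF'E, h2, h3⟩
            have h4 : rr c (F' ∪ F) k' ∈ cyl F' k' ∩ Sig Λ c :=
              ⟨cyl_anti Finset.subset_union_left k' (rr_mem_cyl c (F' ∪ F) k'),
                rr_mem_Sig c (F' ∪ F) k'⟩
            have h5 : rr c (F' ∪ F) k' ∈ cyl F1 k := by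
              have h6 := cyl_anti Finset.subset_union_right k' (rr_mem_cyl c (F' ∪ F) k')
              rw [cyl_eq hk'] at h6
              exact cyl_anti hFF1 k h6
            exact hF1 h5 (h2 h4)
          rw [hOq] at hin
          rcases hin with ⟨_, h2 | ⟨h2, _⟩⟩ | ⟨h2, _⟩
          · exact hP h2
          · exact h2 hM
          · exact h2 hH

end Pool.Agent.R820.Plank
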