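import Mathlib

/-!
# Clopen separation in products of a compact space with a Sigma-product of discrete spaces
-/

namespace Pool.Agent.R820.SigmaSep

open Set Topology Filter

variable {Λ C Y : Type*}

/-- The Sigma-product with constant base point `b`. -/
def Sig (Λ : Type*) {C : Type*} (b : C) : Set (Λ → C) := {k | {i | k i ≠ b}.Countable}

/-- The functions which agree with `k` on `E`. -/
def cyl (E : Finset Λ) (k : Λ → C) : Set (Λ → C) := {k' | ∀ i ∈ E, k' i = k i}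

lemma mem_cyl_self (E : Finset Λ) (k : Λ → C) : k ∈ cyl E k := fun _ _ => rfl

lemma cyl_eq {E : Finset Λ} {k k' : Λ → C} (h : k' ∈ cyl E k) : cyl E k' = cyl E k := by
  ext x
  exact ⟨fun hx i hi => (hx i hi).trans (h i hi), fun hx i hi => (hx i hi).trans (h i hi).symm⟩

lemma cyl_anti {E F : Finset Λ} (h : E ⊆ F) (k : Λ → C) : cyl F k ⊆ cyl E k :=
  fun _ hx i hi => hx i (h hi)

lemma isOpen_cyl [TopologicalSpace C] [DiscreteTopology C] (E : Finset Λ) (k : Λ → C) :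
    IsOpen (cyl E k) := by
  have : cyl E k = ⋂ i ∈ E, (fun k' : Λ → C => k' i) ⁻¹' {k i} := by
    ext x
    simp [cyl]
  rw [this]
  exact isOpen_biInter_finset fun i _ => (isOpen_discrete _).preimage (continuous_apply i)

lemma cyl_mem_nhds [TopologicalSpace C] [DiscreteTopology C] (E : Finset Λ) (k : Λ → C) :
    cyl E k ∈ 𝓝 k := (isOpen_cyl E k).mem_nhds (mem_cyl_self E k)

lemma exists_cyl [TopologicalSpace C] {k : Λ → C} {O : Set (Λ → C)} (hO : O ∈ 𝓝 k) :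
    ∃ F : Finset Λ, cyl F k ⊆ O := by
  obtain ⟨O', hO'O, hO', hk⟩ := mem_nhds_iff.1 hO
  obtain ⟨F, u, hu, hF⟩ := isOpen_pi_iff.1 hO' _ hk
  refine ⟨F, fun x hx => hO'O (hF fun i hi => ?_)⟩
  rw [hx i hi]
  exact (hu i hi).2

/-- The canonical representative of `k` on `E`. -/
noncomputable def rr (b : C) (E : Finset Λ) (k : Λ → C) : Λ → C := by
  classical
  exact fun i => if i ∈ E then k i else b

lemma rr_mem_cyl (b : C) (E : Finset Λ) (k : Λ → C) : rr b E k ∈ cyl E k := by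
  intro i hi
  simp [rr, hi]

lemma cyl_rr (b : C) (E : Finset Λ) (k : Λ → C) : cyl E (rr b E k) = cyl E k :=
  cyl_eq (rr_mem_cyl b E k)

lemma rr_congr (b : C) {E : Finset Λ} {k k' : Λ → C} (h : ∀ i ∈ E, k' i = k i) :
    rr b E k' = rr b E k := by
  funext i
  by_cases hi : i ∈ E
  · simp [rr, hi, h i hi]
  · simp [rr, hi]

/-- The recursive closing off of coordinates. -/
noncomputable def dom (b : C) (e : Finset Λ → (Λ → C) → ℕ → Λ) (k : Λ → C) : ℕ → Finset Λ := by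
  classical
  exact fun n => Nat.rec ∅ (fun n D => D ∪ D.powerset.biUnion fun E =>
    (Finset.range (n + 1)).image (e E (rr b E k))) n

lemma dom_zero (b : C) (e : Finset Λ → (Λ → C) → ℕ → Λ) (k : Λ → C) : dom b e k 0 = ∅ := rfl

open Classical in
lemma dom_succ (b : C) (e : Finset Λ → (Λ → C) → ℕ → Λ) (k : Λ → C) (n : ℕ) :
    dom b e k (n + 1) = dom b e k n ∪ (dom b e k n).powerset.biUnion fun E =>
      (Finset.range (n + 1)).image (e E (rr b E k)) := by
  unfold dom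
  rfl

lemma dom_mono (b : C) (e : Finset Λ → (Λ → C) → ℕ → Λ) (k : Λ → C) : Monotone (dom b e k) := by
  classical
  apply monotone_nat_of_le_succ
  intro n
  rw [dom_succ]
  exact Finset.subset_union_left

lemma dom_step (b : C) (e : Finset Λ → (Λ → C) → ℕ → Λ) {k k' : Λ → C} {n : ℕ}
    (h1 : dom b e k' n = dom b e k n) (h2 : ∀ i ∈ dom b e k n, k' i = k i) :
    dom b e k' (n + 1) = dom b e k (n + 1) := by
  classical
  rw [dom_succ, dom_succ, h1]
  congr 1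
  ext i
  simp only [Finset.mem_biUnion, Finset.mem_powerset]
  constructor
  · rintro ⟨E, hE, hi⟩
    refine ⟨E, hE, ?_⟩
    rwa [rr_congr b (fun i hi => h2 i (hE hi))] at hi
  · rintro ⟨E, hE, hi⟩
    refine ⟨E, hE, ?_⟩
    rwa [rr_congr b (fun i hi => h2 i (hE hi))]

lemma dom_congr (b : C) (e : Finset Λ → (Λ → C) → ℕ → Λ) {k k' : Λ → C} (n : ℕ)
    (h : ∀ i ∈ dom b e k n, k' i = k i) : ∀ m ≤ n, dom b e k' m = dom b e k m := by
  intro m hm
  induction m with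
  | zero => rfl
  | succ m ih =>
    exact dom_step b e (ih (by omega)) fun i hi => h i (dom_mono b e k (by omega) hi)

/-- The closed off countable set of coordinates. -/
def JJ (b : C) (e : Finset Λ → (Λ → C) → ℕ → Λ) (k : Λ → C) : Set Λ := ⋃ n, (dom b e k n : Set Λ)

lemma JJ_countable (b : C) (e : Finset Λ → (Λ → C) → ℕ → Λ) (k : Λ → C) :
    (JJ b e k).Countable := countable_iUnion fun n => (dom b e k n).countable_toSet

lemma range_subset_JJ (b : C) (e : Finset Λ → (Λ → C) → ℕ → Λ) (k : Λ → C) (n : ℕ) :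
    range (e (dom b e k n) (rr b (dom b e k n) k)) ⊆ JJ b e k := by
  classical
  rintro _ ⟨j, rfl⟩
  refine mem_iUnion.2 ⟨max n j + 1, ?_⟩
  rw [Finset.mem_coe, dom_succ]
  apply Finset.mem_union_right
  refine Finset.mem_biUnion.2 ⟨dom b e k n, ?_, ?_⟩
  · exact Finset.mem_powerset.2 (dom_mono b e k (le_max_left _ _))
  · refine Finset.mem_image_of_mem _ (Finset.mem_range.2 ?_)
    have := le_max_right n j
    omega

/-- Separation: disjoint relatively closed subsets of `Y × Sig b`, `Y` compact, can be separated by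
a set which is clopen at the points of `Y × Sig b`. -/
theorem separation [TopologicalSpace C] [DiscreteTopology C] [TopologicalSpace Y] [CompactSpace Y]
    [Nonempty Λ]
    (hzero : ∀ F G : Set Y, IsClosed F → IsClosed G → Disjoint F G →
      ∃ U, IsClopen U ∧ F ⊆ U ∧ Disjoint G U)
    (htight : ∀ (S : Set Y) (y : Y), y ∈ closure S → ∃ S' ⊆ S, S'.Countable ∧ y ∈ closure S')
    (b : C) {A B : Set (Y × (Λ → C))} (hA : ∀ z ∈ A, z.2 ∈ Sig Λ b) (hB : ∀ z ∈ B, z.2 ∈ Sig Λ b)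
    (hAB : ∀ z : Y × (Λ → C), z.2 ∈ Sig Λ b → z ∉ closure A ∨ z ∉ closure B) :
    ∃ O : Set (Y × (Λ → C)), A ⊆ O ∧ Disjoint B O ∧
      ∀ z : Y × (Λ → C), z.2 ∈ Sig Λ b → (z ∈ O → O ∈ 𝓝 z) ∧ (z ∉ O → Oᶜ ∈ 𝓝 z) := by
  classical
  -- good pairs
  let Good : Finset Λ → (Λ → C) → Set Y → Prop := fun E k G =>
    IsClopen G ∧ (∀ z ∈ A, z.2 ∈ cyl E k → z.1 ∈ G) ∧ ∀ z ∈ B, z.2 ∈ cyl E k → z.1 ∉ G
  have hbad : ∀ (E : Finset Λ) (k : Λ → C), (¬ ∃ G, Good E k G) →
      ∃ (y : Y) (J : Set Λ), J.Countable ∧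
        (∀ O : Set Y, IsOpen O → y ∈ O → ∃ z ∈ A, z.2 ∈ cyl E k ∧ z.1 ∈ O ∧ {i | z.2 i ≠ b} ⊆ J) ∧
        (∀ O : Set Y, IsOpen O → y ∈ O → ∃ z ∈ B, z.2 ∈ cyl E k ∧ z.1 ∈ O ∧ {i | z.2 i ≠ b} ⊆ J) := by
    intro E k hno
    let SA : Set Y := Prod.fst '' {z | z ∈ A ∧ z.2 ∈ cyl E k}
    let SB : Set Y := Prod.fst '' {z | z ∈ B ∧ z.2 ∈ cyl E k}
    obtain ⟨y, hyA, hyB⟩ : ∃ y, y ∈ closure SA ∧ y ∈ closure SB := by
      by_contra hdis
      push Not at hdis
      obtain ⟨U, hU, hAU, hBU⟩ := hzero (closure SA) (closure SB) isClosed_closure isClosed_closure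
        (Set.disjoint_left.2 hdis)
      apply hno
      refine ⟨U, hU, ?_, ?_⟩
      · intro z hz hzk
        exact hAU (subset_closure ⟨z, ⟨hz, hzk⟩, rfl⟩)
      · intro z hz hzk hzU
        exact Set.disjoint_left.1 hBU (subset_closure ⟨z, ⟨hz, hzk⟩, rfl⟩) hzU
    have main : ∀ (T : Set (Y × (Λ → C))) (_ : ∀ z ∈ T, z.2 ∈ Sig Λ b)
        (_ : y ∈ closure (Prod.fst '' {z | z ∈ T ∧ z.2 ∈ cyl E k})),
        ∃ J : Set Λ, J.Countable ∧ ∀ O : Set Y, IsOpen O → y ∈ O →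
          ∃ z ∈ T, z.2 ∈ cyl E k ∧ z.1 ∈ O ∧ {i | z.2 i ≠ b} ⊆ J := by
      intro T hT hy
      obtain ⟨S', hS', hS'c, hyS'⟩ := htight _ y hy
      have : Nonempty (Y × (Λ → C)) := ⟨(y, k)⟩
      have hS'' : ∀ x ∈ S', ∃ w : Y × (Λ → C), (w ∈ T ∧ w.2 ∈ cyl E k) ∧ w.1 = x := fun x hx => hS' hx
      choose! w hw using hS''
      refine ⟨⋃ x ∈ S', {i | (w x).2 i ≠ b}, ?_, ?_⟩
      · exact hS'c.biUnion fun x hx => hT _ (hw _ hx).1.1
      · intro O hO hyO
        obtain ⟨x, hxO, hx⟩ := mem_closure_iff.1 hyS' O hO hyO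
        refine ⟨w x, (hw _ hx).1.1, (hw _ hx).1.2, ?_, ?_⟩
        · rw [(hw _ hx).2]
          exact hxO
        · exact subset_biUnion_of_mem (u := fun x => {i | (w x).2 i ≠ b}) hx
    obtain ⟨J1, hJ1, h1⟩ := main A hA hyA
    obtain ⟨J2, hJ2, h2⟩ := main B hB hyB
    refine ⟨y, J1 ∪ J2, hJ1.union hJ2, ?_, ?_⟩
    · intro O hO hyO
      obtain ⟨z, hz, hzk, hzO, hzJ⟩ := h1 O hO hyO
      exact ⟨z, hz, hzk, hzO, hzJ.trans subset_union_left⟩
    · intro O hO hyO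
      obtain ⟨z, hz, hzk, hzO, hzJ⟩ := h2 O hO hyO
      exact ⟨z, hz, hzk, hzO, hzJ.trans subset_union_right⟩
  -- total choices
  have hch : ∀ (E : Finset Λ) (k : Λ → C), ∃ (G : Set Y) (e : ℕ → Λ),
      Good E k G ∨ ∃ y : Y,
        (∀ O : Set Y, IsOpen O → y ∈ O →
          ∃ z ∈ A, z.2 ∈ cyl E k ∧ z.1 ∈ O ∧ {i | z.2 i ≠ b} ⊆ range e) ∧
        (∀ O : Set Y, IsOpen O → y ∈ O →
          ∃ z ∈ B, z.2 ∈ cyl E k ∧ z.1 ∈ O ∧ {i | z.2 i ≠ b} ⊆ range e) := by
    intro E k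
    obtain ⟨i0⟩ := ‹Nonempty Λ›
    by_cases h : ∃ G, Good E k G
    · obtain ⟨G, hG⟩ := h
      exact ⟨G, fun _ => i0, Or.inl hG⟩
    · obtain ⟨y, J, hJ, h1, h2⟩ := hbad E k h
      obtain ⟨e, he⟩ := (hJ.insert i0).exists_eq_range (insert_nonempty _ _)
      have hJe : J ⊆ range e := by
        rw [← he]
        exact subset_insert _ _
      refine ⟨univ, e, Or.inr ⟨y, ?_, ?_⟩⟩
      · intro O hO hyO
        obtain ⟨z, hz, hzk, hzO, hzJ⟩ := h1 O hO hyO
        exact ⟨z, hz, hzk, hzO, hzJ.trans hJe⟩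
      · intro O hO hyO
        obtain ⟨z, hz, hzk, hzO, hzJ⟩ := h2 O hO hyO
        exact ⟨z, hz, hzk, hzO, hzJ.trans hJe⟩
  choose G e hGe using hch
  -- the nodes along `k`
  let D : (Λ → C) → ℕ → Finset Λ := fun k n => dom b e k n
  let good : (Λ → C) → ℕ → Prop := fun k n => Good (D k n) (rr b (D k n) k) (G (D k n) (rr b (D k n) k))
  have hterm : ∀ k ∈ Sig Λ b, ∃ n, good k n := by
    intro k hk
    by_contra hno
    push Not at hno
    have hy : ∀ n, ∃ y : Y,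
        (∀ O : Set Y, IsOpen O → y ∈ O → ∃ z ∈ A, z.2 ∈ cyl (D k n) k ∧ z.1 ∈ O ∧
          {i | z.2 i ≠ b} ⊆ JJ b e k) ∧
        (∀ O : Set Y, IsOpen O → y ∈ O → ∃ z ∈ B, z.2 ∈ cyl (D k n) k ∧ z.1 ∈ O ∧
          {i | z.2 i ≠ b} ⊆ JJ b e k) := by
      intro n
      rcases hGe (D k n) (rr b (D k n) k) with h | ⟨y, h1, h2⟩
      · exact absurd h (hno n)
      · rw [cyl_rr] at h1 h2
        refine ⟨y, ?_, ?_⟩
        · intro O hO hyO
          obtain ⟨z, hz, hzk, hzO, hzJ⟩ := h1 O hO hyO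
          exact ⟨z, hz, hzk, hzO, hzJ.trans (range_subset_JJ b e k n)⟩
        · intro O hO hyO
          obtain ⟨z, hz, hzk, hzO, hzJ⟩ := h2 O hO hyO
          exact ⟨z, hz, hzk, hzO, hzJ.trans (range_subset_JJ b e k n)⟩
    choose y hyA hyB using hy
    obtain ⟨ys, -, hys⟩ := isCompact_univ.exists_mapClusterPt (f := atTop) (u := y)
      (tendsto_principal.2 (Eventually.of_forall fun _ => mem_univ _))
    let ks : Λ → C := fun i => if i ∈ JJ b e k then k i else b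
    have hks : ks ∈ Sig Λ b := by
      refine (JJ_countable b e k).mono ?_
      intro i hi
      by_contra hiJ
      exact hi (if_neg hiJ)
    have hcl : ∀ T : Set (Y × (Λ → C)), (∀ n, ∀ O : Set Y, IsOpen O → y n ∈ O →
        ∃ z ∈ T, z.2 ∈ cyl (D k n) k ∧ z.1 ∈ O ∧ {i | z.2 i ≠ b} ⊆ JJ b e k) →
        (ys, ks) ∈ closure T := by
      intro T hT
      rw [mem_closure_iff_nhds]
      intro N hN
      obtain ⟨O, hO, N2, hN2, hON⟩ := mem_nhds_prod_iff.1 hN
      obtain ⟨O', hO'O, hO', hysO'⟩ := mem_nhds_iff.1 hO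
      obtain ⟨F, hF⟩ := exists_cyl hN2
      -- a node which contains the relevant coordinates
      obtain ⟨n0, hn0⟩ : ∃ n0, ∀ i ∈ F, i ∈ JJ b e k → i ∈ D k n0 := by
        have h1 : ∀ i ∈ F, ∃ n, i ∈ JJ b e k → i ∈ D k n := by
          intro i _
          by_cases hi : i ∈ JJ b e k
          · obtain ⟨n, hn⟩ := mem_iUnion.1 hi
            exact ⟨n, fun _ => hn⟩
          · exact ⟨0, fun h => absurd h hi⟩
        choose! m hm using h1
        refine ⟨F.sup m, fun i hi hiJ => ?_⟩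
        exact dom_mono b e k (Finset.le_sup hi) (hm i hi hiJ)
      have hfreq := hys.frequently (hO'.mem_nhds hysO')
      rw [frequently_atTop] at hfreq
      obtain ⟨n, hn, hyn⟩ := hfreq n0
      obtain ⟨z, hz, hzk, hzO, hzJ⟩ := hT n O' hO' hyn
      refine ⟨z, hON ⟨hO'O hzO, hF ?_⟩, hz⟩
      intro i hi
      by_cases hiJ : i ∈ JJ b e k
      · have h2 : ks i = k i := if_pos hiJ
        rw [h2]
        exact hzk i (dom_mono b e k hn (hn0 i hi hiJ))
      · have h2 : ks i = b := if_neg hiJ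
        rw [h2]
        by_contra hne
        exact hiJ (hzJ hne)
    rcases hAB (ys, ks) hks with h | h
    · exact h (hcl A hyA)
    · exact h (hcl B hyB)
  -- the separating set
  let O : Set (Y × (Λ → C)) := {z | ∃ n, good z.2 n ∧ (∀ m < n, ¬ good z.2 m) ∧
    z.1 ∈ G (D z.2 n) (rr b (D z.2 n) z.2)}
  have hfirst : ∀ k ∈ Sig Λ b, ∃ n, good k n ∧ ∀ m < n, ¬ good k m := by
    intro k hk
    have h := hterm k hk
    exact ⟨Nat.find h, Nat.find_spec h, fun m hm => Nat.find_min h hm⟩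
  have huniq : ∀ (k : Λ → C) (n m : ℕ), good k n → (∀ j < n, ¬ good k j) → good k m →
      (∀ j < m, ¬ good k j) → n = m := by
    intro k n m h1 h2 h3 h4
    rcases lt_trichotomy n m with h | h | h
    · exact absurd h1 (h4 n h)
    · exact h
    · exact absurd h3 (h2 m h)
  have hloc : ∀ (k k' : Λ → C) (n : ℕ), k' ∈ cyl (D k n) k → ∀ m ≤ n,
      D k' m = D k m ∧ rr b (D k' m) k' = rr b (D k m) k := by
    intro k k' n hk' m hm
    have h1 : D k' m = D k m := dom_congr b e n hk' m hm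
    refine ⟨h1, ?_⟩
    rw [h1]
    exact rr_congr b fun i hi => hk' i (dom_mono b e k hm hi)
  have hgood : ∀ (k k' : Λ → C) (n : ℕ), k' ∈ cyl (D k n) k → ∀ m ≤ n,
      (good k' m ↔ good k m) := by
    intro k k' n hk' m hm
    obtain ⟨h1, h2⟩ := hloc k k' n hk' m hm
    change Good _ _ _ ↔ Good _ _ _
    rw [h2, h1]
  have hmemO : ∀ (k : Λ → C) (n : ℕ) (y : Y), good k n → (∀ m < n, ¬ good k m) →
      ((y, k) ∈ O ↔ y ∈ G (D k n) (rr b (D k n) k)) := by
    intro k n y h1 h2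
    constructor
    · rintro ⟨m, h3, h4, h5⟩
      have := huniq k m n h3 h4 h1 h2
      subst this
      exact h5
    · intro h
      exact ⟨n, h1, h2, h⟩
  refine ⟨O, ?_, ?_, ?_⟩
  · intro z hz
    obtain ⟨n, h1, h2⟩ := hfirst z.2 (hA z hz)
    refine ⟨n, h1, h2, ?_⟩
    apply h1.2.1 z hz
    rw [cyl_rr]
    exact mem_cyl_self _ _
  · rw [Set.disjoint_left]
    rintro z hz ⟨n, h1, h2, h3⟩
    apply h1.2.2 z hz ?_ h3
    rw [cyl_rr]
    exact mem_cyl_self _ _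
  · rintro ⟨y, k⟩ hk
    obtain ⟨n, h1, h2⟩ := hfirst k hk
    have hconst : ∀ (y' : Y) (k' : Λ → C), k' ∈ cyl (D k n) k →
        ((y', k') ∈ O ↔ y' ∈ G (D k n) (rr b (D k n) k)) := by
      intro y' k' hk'
      have h3 : good k' n := (hgood k k' n hk' n le_rfl).2 h1
      have h4 : ∀ m < n, ¬ good k' m := fun m hm h =>
        h2 m hm ((hgood k k' n hk' m hm.le).1 h)
      rw [hmemO k' n y' h3 h4]
      obtain ⟨h5, h6⟩ := hloc k k' n hk' n le_rfl
      rw [h6, h5]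
    have hGc : IsClopen (G (D k n) (rr b (D k n) k)) := h1.1
    constructor
    · intro hz
      have hy := (hconst y k (mem_cyl_self _ _)).1 hz
      have := prod_mem_nhds (hGc.isOpen.mem_nhds hy) (cyl_mem_nhds (D k n) k)
      refine mem_of_superset this ?_
      rintro ⟨y', k'⟩ ⟨hy', hk'⟩
      exact (hconst y' k' hk').2 hy'
    · intro hz
      have hy : y ∉ G (D k n) (rr b (D k n) k) := fun h => hz ((hconst y k (mem_cyl_self _ _)).2 h)
      have := prod_mem_nhds (hGc.compl.isOpen.mem_nhds hy) (cyl_mem_nhds (D k n) k)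
      refine mem_of_superset this ?_
      rintro ⟨y', k'⟩ ⟨hy', hk'⟩ hz'
      exact hy' ((hconst y' k' hk').1 hz')

end Pool.Agent.R820.SigmaSep
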